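import Mathlib

/-!
Ordered Ramsey goodness (owner helper831, problem MP_23a060_co).

Everything is written with relations on `ℕ`: an ordered graph on `k` vertices is a relation
`E : ℕ → ℕ → Prop` of which only the values `E i j` with `i < j < k` matter; a colouring of
`K_N` is a relation `R : ℕ → ℕ → Prop` of which only the values `R i j` with `i < j < N` matter
(`R` = red, `¬ R` = blue).
-/

set_option autoImplicit false

namespace Pool.Agent.H831G

/-- `f` is an ordered copy of `E` (on `k` vertices) inside `R` (on `[0,N)`). -/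
def IsCopy (k : ℕ) (E : ℕ → ℕ → Prop) (N : ℕ) (R : ℕ → ℕ → Prop) (f : ℕ → ℕ) : Prop :=
  (∀ i j, i < j → j < k → f i < f j) ∧ (∀ i, i < k → f i < N) ∧
    ∀ i j, i < j → j < k → E i j → R (f i) (f j)

/-- there is an ordered copy of `E` inside `R`. -/
def HasCopy (k : ℕ) (E : ℕ → ℕ → Prop) (N : ℕ) (R : ℕ → ℕ → Prop) : Prop :=
  ∃ f : ℕ → ℕ, IsCopy k E N R f

/-- there is a blue clique on `n` vertices. -/
def BlueK (n N : ℕ) (R : ℕ → ℕ → Prop) : Prop :=
  HasCopy n (fun _ _ => True) N (fun i j => ¬ R i j)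

/-- every colouring of `K_N` has a red copy of `E` or a blue `K_n`. -/
def Arrow (n k : ℕ) (E : ℕ → ℕ → Prop) (N : ℕ) : Prop :=
  ∀ R : ℕ → ℕ → Prop, HasCopy k E N R ∨ BlueK n N R

/-- `n`-goodness of `E` (on `k` vertices). -/
def Good (n k : ℕ) (E : ℕ → ℕ → Prop) : Prop := Arrow n k E ((n - 1) * (k - 1) + 1)

/-- connectedness, in cut form. -/
def Conn (k : ℕ) (E : ℕ → ℕ → Prop) : Prop :=
  ∀ S : ℕ → Prop, (∃ i, i < k ∧ S i) → (∃ i, i < k ∧ ¬ S i) →
    ∃ i j, i < j ∧ j < k ∧ E i j ∧ ¬ (S i ↔ S j)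

/-- the reversed ordered graph. -/
def mir (k : ℕ) (E : ℕ → ℕ → Prop) : ℕ → ℕ → Prop := fun i j => E (k - 1 - j) (k - 1 - i)

/-- the join of `E₁` (on `k₁` vertices) and `E₂`: the last vertex of `E₁` is the first vertex of
`E₂`; it has `k₁ + k₂ - 1` vertices. -/
def join (k₁ : ℕ) (E₁ E₂ : ℕ → ℕ → Prop) : ℕ → ℕ → Prop := fun i j =>
  (j < k₁ ∧ E₁ i j) ∨ (k₁ - 1 ≤ i ∧ E₂ (i - (k₁ - 1)) (j - (k₁ - 1)))

/-- the star whose centre is the first vertex. -/
def starL : ℕ → ℕ → Prop := fun i _ => i = 0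

/-- the star on `k` vertices whose centre is the last vertex. -/
def starR (k : ℕ) : ℕ → ℕ → Prop := fun _ j => j = k - 1

/-- the double star `D_{p,q}` on `p + q + 2` vertices: centres `p` and `p + 1`. -/
def dstar (p : ℕ) : ℕ → ℕ → Prop := fun i j => (i ≤ p ∧ j = p + 1) ∨ (i = p ∧ p + 1 ≤ j)

/-- no inner cut vertex. -/
def Indec (k : ℕ) (E : ℕ → ℕ → Prop) : Prop :=
  ∀ c, 0 < c → c + 1 < k → ∃ i j, i < c ∧ c < j ∧ j < k ∧ E i j

end Pool.Agent.H831G
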