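import Pool.Agent.H831G.Defs

/-!
Definitions for the structure theorem of 3-good graphs (owner helper831, problem MP_23a060_co).

Letters `0,1,2,3,4` (called `A,B,C,D,E`) are the classes of a blown-up 5-cycle; a word of length
`2l+1` over the letters gives a colouring of `K_{2l+1}` without blue triangle: a pair is red iff its
letters are equal or cyclically adjacent.
-/

set_option autoImplicit false

namespace Pool.Agent.H831G

/-- equal or cyclically adjacent letters -/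
def radj (x y : ℕ) : Prop :=
  x = y ∨ x + 1 = y ∨ y + 1 = x ∨ (x = 0 ∧ y = 4) ∨ (x = 4 ∧ y = 0)

/-- letter of the vertex `i` for the cuts `c₁ ≤ … ≤ c₄` and the letters `L₁,…,L₅` -/
def let5 (c₁ c₂ c₃ c₄ : ℕ) (L₁ L₂ L₃ L₄ L₅ : ℕ) (i : ℕ) : ℕ :=
  if i < c₁ then L₁ else if i < c₂ then L₂ else if i < c₃ then L₃ else if i < c₄ then L₄ else L₅

def let6 (c₁ c₂ c₃ c₄ c₅ : ℕ) (L₁ L₂ L₃ L₄ L₅ L₆ : ℕ) (i : ℕ) : ℕ :=
  if i < c₁ then L₁ else if i < c₂ then L₂ else if i < c₃ then L₃ else if i < c₄ then L₄ else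
    if i < c₅ then L₅ else L₆

def let7 (c₁ c₂ c₃ c₄ c₅ c₆ : ℕ) (L₁ L₂ L₃ L₄ L₅ L₆ L₇ : ℕ) (i : ℕ) : ℕ :=
  if i < c₁ then L₁ else if i < c₂ then L₂ else if i < c₃ then L₃ else if i < c₄ then L₄ else
    if i < c₅ then L₅ else if i < c₆ then L₆ else L₇

def let8 (c₁ c₂ c₃ c₄ c₅ c₆ c₇ : ℕ) (L₁ L₂ L₃ L₄ L₅ L₆ L₇ L₈ : ℕ) (i : ℕ) : ℕ :=
  if i < c₁ then L₁ else if i < c₂ then L₂ else if i < c₃ then L₃ else if i < c₄ then L₄ else
    if i < c₅ then L₅ else if i < c₆ then L₆ else if i < c₇ then L₇ else L₈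

/-- the vertex set `[0,l]` is split by `S` and its complement, and there is exactly one edge across;
it joins `x ∈ S` and `y ∉ S` -/
def Split (l : ℕ) (E : ℕ → ℕ → Prop) (S : ℕ → Prop) (x y : ℕ) : Prop :=
  x ≤ l ∧ y ≤ l ∧ S x ∧ ¬ S y ∧ ((x < y ∧ E x y) ∨ (y < x ∧ E y x)) ∧
    ∀ i j, i < j → j ≤ l → E i j → ¬ (S i ↔ S j) → (i = x ∧ j = y) ∨ (i = y ∧ j = x)

/-- connected graph on `[0,l]`; the only neighbour of `0` is `b`, the only neighbour of `l` is `a`,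
`1 ≤ a < b < l` -/
structure Leaf (l : ℕ) (E : ℕ → ℕ → Prop) (a b : ℕ) : Prop where
  conn : Conn (l + 1) E
  ha : 1 ≤ a
  hab : a < b
  hb : b < l
  zb : E 0 b
  al : E a l
  z_only : ∀ j, 0 < j → j ≤ l → E 0 j → j = b
  l_only : ∀ i, i < l → E i l → i = a

end Pool.Agent.H831G
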