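import Pool.Agent.H831G.Defs

/-!
Definitions of the final statement (owner helper831, problem MP_23a060_co).
An ordered graph on `k` vertices is a `SimpleGraph (Fin k)` with the natural order of `Fin k`.
-/

set_option autoImplicit false

namespace Pool.Agent.H831G

/-- Every red/blue colouring of the edges of the ordered complete graph on `Fin N` (`c` is the graph
of the red edges, the other edges are blue) contains a red ordered copy of `G` or a blue ordered
copy of `K_n`. -/
def RamseyArrow {k : ℕ} (G : SimpleGraph (Fin k)) (n N : ℕ) : Prop :=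
  ∀ c : SimpleGraph (Fin N),
    (∃ f : Fin k ↪o Fin N, ∀ i j, G.Adj i j → c.Adj (f i) (f j)) ∨
      (∃ g : Fin n ↪o Fin N, ∀ i j, i ≠ j → ¬ c.Adj (g i) (g j))

/-- The ordered Ramsey number `r_<(G, K_n)`. -/
noncomputable def orderedRamsey {k : ℕ} (G : SimpleGraph (Fin k)) (n : ℕ) : ℕ :=
  sInf {N | RamseyArrow G n N}

/-- The ordered graph `G` on `k` vertices is connected and `r_<(G, K_n) = (n - 1) (k - 1) + 1`. -/
def IsGood {k : ℕ} (n : ℕ) (G : SimpleGraph (Fin k)) : Prop :=
  G.Connected ∧ orderedRamsey G n = (n - 1) * (k - 1) + 1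

/-- `H` is an ordered subgraph of `G`. -/
def OrderedSubgraph {k k' : ℕ} (H : SimpleGraph (Fin k')) (G : SimpleGraph (Fin k)) : Prop :=
  ∃ φ : Fin k' ↪o Fin k, ∀ i j, H.Adj i j → G.Adj (φ i) (φ j)

/-- the relation on `ℕ` of a graph on `Fin k` -/
def rel {k : ℕ} (G : SimpleGraph (Fin k)) (i j : ℕ) : Prop :=
  ∃ (hi : i < k) (hj : j < k), G.Adj ⟨i, hi⟩ ⟨j, hj⟩

end Pool.Agent.H831G
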