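import Pool.Agent.H831G.Defs

/-!
Part G0 of the proof for MP_23a060_co (owner helper831).
-/

set_option autoImplicit false

namespace Pool.Agent.H831G

/-- the enumeration of `S`, extended by zero -/
noncomputable def G0_e (S : Finset ℕ) (i : ℕ) : ℕ :=
  if h : i < S.card then S.orderEmbOfFin rfl ⟨i, h⟩ else 0

theorem G0_mem {S : Finset ℕ} {i : ℕ} (h : i < S.card) : G0_e S i ∈ S := by
  unfold G0_e
  rw [dif_pos h]
  exact Finset.orderEmbOfFin_mem S rfl _

theorem G0_lt {S : Finset ℕ} {i j : ℕ} (hij : i < j) (h : j < S.card) :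
    G0_e S i < G0_e S j := by
  unfold G0_e
  rw [dif_pos h, dif_pos (hij.trans h)]
  exact (S.orderEmbOfFin rfl).strictMono hij

/-- TARGET: goodness, used on an arbitrary finite set of at least `(n-1)(k-1)+1` vertices. -/
theorem good_on {n k : ℕ} {E : ℕ → ℕ → Prop} (h : Good n k E) (R : ℕ → ℕ → Prop) (S : Finset ℕ)
    (hS : (n - 1) * (k - 1) + 1 ≤ S.card) :
    (∃ f : ℕ → ℕ, (∀ i j, i < j → j < k → f i < f j) ∧ (∀ i, i < k → f i ∈ S) ∧
        ∀ i j, i < j → j < k → E i j → R (f i) (f j)) ∨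
      (∃ g : ℕ → ℕ, (∀ i j, i < j → j < n → g i < g j) ∧ (∀ i, i < n → g i ∈ S) ∧
        ∀ i j, i < j → j < n → ¬ R (g i) (g j)) := by
  rcases h (fun i j => R (G0_e S i) (G0_e S j)) with ⟨f, h1, h2, h3⟩ | ⟨f, h1, h2, h3⟩
  · left
    refine ⟨fun i => G0_e S (f i), fun i j hij hj => ?_, fun i hi => ?_, fun i j hij hj hE => ?_⟩
    · exact G0_lt (h1 i j hij hj) (lt_of_lt_of_le (h2 j hj) hS)
    · exact G0_mem (lt_of_lt_of_le (h2 i hi) hS)
    · exact h3 i j hij hj hE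
  · right
    refine ⟨fun i => G0_e S (f i), fun i j hij hj => ?_, fun i hi => ?_, fun i j hij hj => ?_⟩
    · exact G0_lt (h1 i j hij hj) (lt_of_lt_of_le (h2 j hj) hS)
    · exact G0_mem (lt_of_lt_of_le (h2 i hi) hS)
    · exact h3 i j hij hj trivial

/-- TARGET 2: a converse form: to prove `Good` it is enough to find a copy inside `Finset.range N`. -/
theorem good_of_finset {n k : ℕ} {E : ℕ → ℕ → Prop}
    (h : ∀ (R : ℕ → ℕ → Prop) (S : Finset ℕ), (n - 1) * (k - 1) + 1 ≤ S.card →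
      (∃ f : ℕ → ℕ, (∀ i j, i < j → j < k → f i < f j) ∧ (∀ i, i < k → f i ∈ S) ∧
        ∀ i j, i < j → j < k → E i j → R (f i) (f j)) ∨
      (∃ g : ℕ → ℕ, (∀ i j, i < j → j < n → g i < g j) ∧ (∀ i, i < n → g i ∈ S) ∧
        ∀ i j, i < j → j < n → ¬ R (g i) (g j))) : Good n k E := by
  intro R
  rcases h R (Finset.range ((n - 1) * (k - 1) + 1)) (by rw [Finset.card_range]) with
    ⟨f, h1, h2, h3⟩ | ⟨f, h1, h2, h3⟩
  · exact Or.inl ⟨f, h1, fun i hi => Finset.mem_range.1 (h2 i hi), h3⟩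
  · exact Or.inr ⟨f, h1, fun i hi => Finset.mem_range.1 (h2 i hi),
      fun i j hij hj _ => h3 i j hij hj⟩


end Pool.Agent.H831G
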