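import Pool.Agent.H831G.Defs
import Pool.Agent.H831G.G0

/-!
Part G1 of the proof for MP_23a060_co (owner helper831).
-/

set_option autoImplicit false

namespace Pool.Agent.H831G


theorem G1_enum (T : Finset ℕ) (m : ℕ) (h : m ≤ T.card) :
    ∃ e : ℕ → ℕ, (∀ i j, i < j → j < m → e i < e j) ∧ ∀ i, i < m → e i ∈ T := by
  refine ⟨fun i => if hi : i < m then T.orderEmbOfCardLe h ⟨i, hi⟩ else 0, ?_, ?_⟩
  · intro i j hij hj
    have hi : i < m := hij.trans hj
    simp only [hi, hj, dif_pos]
    exact (T.orderEmbOfCardLe h).strictMono (by simpa using hij)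
  · intro i hi
    simp only [hi, dif_pos]
    exact Finset.orderEmbOfCardLe_mem _ _ _

theorem G1_L (k : ℕ) (hk : 1 ≤ k) (R : ℕ → ℕ → Prop) (n : ℕ) (hn : 1 ≤ n) : ∀ S : Finset ℕ,
    (n - 1) * (k - 1) + 1 ≤ S.card →
      (∃ f : ℕ → ℕ, (∀ i j, i < j → j < k → f i < f j) ∧ (∀ i, i < k → f i ∈ S) ∧
        ∀ i j, i < j → j < k → starL i j → R (f i) (f j)) ∨
      (∃ g : ℕ → ℕ, (∀ i j, i < j → j < n → g i < g j) ∧ (∀ i, i < n → g i ∈ S) ∧
        ∀ i j, i < j → j < n → ¬ R (g i) (g j)) := by
  classical
  induction n, hn using Nat.le_induction with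
  | base =>
    intro S hS
    obtain ⟨v, hv⟩ : S.Nonempty := Finset.card_pos.1 (by omega)
    exact Or.inr ⟨fun _ => v, fun i j hij hj => by omega, fun i _ => hv, fun i j hij hj => by omega⟩
  | succ n hn ih =>
    intro S hS
    have hne : S.Nonempty := Finset.card_pos.1 (by omega)
    let v := S.min' hne
    have hvS : v ∈ S := S.min'_mem hne
    let RN := (S.erase v).filter (fun x => R v x)
    let BN := (S.erase v).filter (fun x => ¬ R v x)
    have hcard : RN.card + BN.card = S.card - 1 := by
      rw [Finset.card_filter_add_card_filter_not, Finset.card_erase_of_mem hvS]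
    have hlt : ∀ x ∈ S.erase v, v < x := fun x hx =>
      lt_of_le_of_ne (S.min'_le x (Finset.mem_of_mem_erase hx)) (Finset.ne_of_mem_erase hx).symm
    by_cases hR : k - 1 ≤ RN.card
    · left
      obtain ⟨e, he1, he2⟩ := G1_enum RN (k - 1) hR
      refine ⟨fun i => if i = 0 then v else e (i - 1), ?_, ?_, ?_⟩
      · intro i j hij hj
        have hj0 : j ≠ 0 := by omega
        simp only [hj0, if_false]
        by_cases hi : i = 0
        · simp only [hi, if_true]
          exact hlt _ (Finset.mem_of_mem_filter _ (he2 (j - 1) (by omega)))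
        · simp only [hi, if_false]
          exact he1 _ _ (by omega) (by omega)
      · intro i hi
        by_cases h0 : i = 0
        · simp only [h0, if_true]; exact hvS
        · simp only [h0, if_false]
          exact Finset.mem_of_mem_erase (Finset.mem_of_mem_filter _ (he2 (i - 1) (by omega)))
      · intro i j hij hj hs
        have hi : i = 0 := hs
        have hj0 : j ≠ 0 := by omega
        simp only [hj0, hi, if_false, if_true]
        exact (Finset.mem_filter.1 (he2 (j - 1) (by omega))).2
    · have hb : (n - 1) * (k - 1) + 1 ≤ BN.card := by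
        obtain ⟨m, rfl⟩ : ∃ m, n = m + 1 := ⟨n - 1, by omega⟩
        have h1 : (m + 1 + 1 - 1) * (k - 1) = m * (k - 1) + (k - 1) := by
          simp only [Nat.add_sub_cancel]; ring
        rw [h1] at hS
        simp only [Nat.add_sub_cancel]
        omega
      rcases ih BN hb with ⟨f, h1, h2, h3⟩ | ⟨g, h1, h2, h3⟩
      · exact Or.inl ⟨f, h1, fun i hi =>
          Finset.mem_of_mem_erase (Finset.mem_of_mem_filter _ (h2 i hi)), h3⟩
      · right
        refine ⟨fun i => if i = 0 then v else g (i - 1), ?_, ?_, ?_⟩
        · intro i j hij hj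
          have hj0 : j ≠ 0 := by omega
          simp only [hj0, if_false]
          by_cases hi : i = 0
          · simp only [hi, if_true]
            exact hlt _ (Finset.mem_of_mem_filter _ (h2 (j - 1) (by omega)))
          · simp only [hi, if_false]
            exact h1 _ _ (by omega) (by omega)
        · intro i hi
          by_cases h0 : i = 0
          · simp only [h0, if_true]; exact hvS
          · simp only [h0, if_false]
            exact Finset.mem_of_mem_erase (Finset.mem_of_mem_filter _ (h2 (i - 1) (by omega)))
        · intro i j hij hj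
          have hj0 : j ≠ 0 := by omega
          simp only [hj0, if_false]
          by_cases hi : i = 0
          · simp only [hi, if_true]
            exact (Finset.mem_filter.1 (h2 (j - 1) (by omega))).2
          · simp only [hi, if_false]
            exact h3 _ _ (by omega) (by omega)

theorem G1_R (k : ℕ) (hk : 1 ≤ k) (R : ℕ → ℕ → Prop) (n : ℕ) (hn : 1 ≤ n) : ∀ S : Finset ℕ,
    (n - 1) * (k - 1) + 1 ≤ S.card →
      (∃ f : ℕ → ℕ, (∀ i j, i < j → j < k → f i < f j) ∧ (∀ i, i < k → f i ∈ S) ∧
        ∀ i j, i < j → j < k → starR k i j → R (f i) (f j)) ∨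
      (∃ g : ℕ → ℕ, (∀ i j, i < j → j < n → g i < g j) ∧ (∀ i, i < n → g i ∈ S) ∧
        ∀ i j, i < j → j < n → ¬ R (g i) (g j)) := by
  classical
  induction n, hn using Nat.le_induction with
  | base =>
    intro S hS
    obtain ⟨v, hv⟩ : S.Nonempty := Finset.card_pos.1 (by omega)
    exact Or.inr ⟨fun _ => v, fun i j hij hj => by omega, fun i _ => hv, fun i j hij hj => by omega⟩
  | succ n hn ih =>
    intro S hS
    have hne : S.Nonempty := Finset.card_pos.1 (by omega)
    let v := S.max' hne
    have hvS : v ∈ S := S.max'_mem hne
    let RN := (S.erase v).filter (fun x => R x v)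
    let BN := (S.erase v).filter (fun x => ¬ R x v)
    have hcard : RN.card + BN.card = S.card - 1 := by
      rw [Finset.card_filter_add_card_filter_not, Finset.card_erase_of_mem hvS]
    have hlt : ∀ x ∈ S.erase v, x < v := fun x hx =>
      lt_of_le_of_ne (S.le_max' x (Finset.mem_of_mem_erase hx)) (Finset.ne_of_mem_erase hx)
    by_cases hR : k - 1 ≤ RN.card
    · left
      obtain ⟨e, he1, he2⟩ := G1_enum RN (k - 1) hR
      refine ⟨fun i => if i < k - 1 then e i else v, ?_, ?_, ?_⟩
      · intro i j hij hj
        have hi : i < k - 1 := by omega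
        simp only [hi, if_true]
        by_cases hj' : j < k - 1
        · simp only [hj', if_true]
          exact he1 _ _ (by omega) (by omega)
        · simp only [hj', if_false]
          exact hlt _ (Finset.mem_of_mem_filter _ (he2 i (by omega)))
      · intro i hi
        by_cases h0 : i < k - 1
        · simp only [h0, if_true]
          exact Finset.mem_of_mem_erase (Finset.mem_of_mem_filter _ (he2 i (by omega)))
        · simp only [h0, if_false]; exact hvS
      · intro i j hij hj hs
        have hj' : j = k - 1 := hs
        have hi : i < k - 1 := by omega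
        have hj0 : ¬ (j < k - 1) := by omega
        simp only [hj0, hi, if_false, if_true]
        exact (Finset.mem_filter.1 (he2 i (by omega))).2
    · have hb : (n - 1) * (k - 1) + 1 ≤ BN.card := by
        obtain ⟨m, rfl⟩ : ∃ m, n = m + 1 := ⟨n - 1, by omega⟩
        have h1 : (m + 1 + 1 - 1) * (k - 1) = m * (k - 1) + (k - 1) := by
          simp only [Nat.add_sub_cancel]; ring
        rw [h1] at hS
        simp only [Nat.add_sub_cancel]
        omega
      rcases ih BN hb with ⟨f, h1, h2, h3⟩ | ⟨g, h1, h2, h3⟩
      · exact Or.inl ⟨f, h1, fun i hi =>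
          Finset.mem_of_mem_erase (Finset.mem_of_mem_filter _ (h2 i hi)), h3⟩
      · right
        refine ⟨fun i => if i < n then g i else v, ?_, ?_, ?_⟩
        · intro i j hij hj
          have hi : i < n := by omega
          simp only [hi, if_true]
          by_cases hj' : j < n
          · simp only [hj', if_true]
            exact h1 _ _ (by omega) (by omega)
          · simp only [hj', if_false]
            exact hlt _ (Finset.mem_of_mem_filter _ (h2 i (by omega)))
        · intro i hi
          by_cases h0 : i < n
          · simp only [h0, if_true]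
            exact Finset.mem_of_mem_erase (Finset.mem_of_mem_filter _ (h2 i (by omega)))
          · simp only [h0, if_false]; exact hvS
        · intro i j hij hj
          have hi : i < n := by omega
          simp only [hi, if_true]
          by_cases hj' : j < n
          · simp only [hj', if_true]
            exact h3 _ _ (by omega) (by omega)
          · simp only [hj', if_false]
            exact (Finset.mem_filter.1 (h2 i (by omega))).2

/-! ## TARGETS -/

/-- TARGET 1 -/
theorem good_starL {n k : ℕ} (hn : 1 ≤ n) (hk : 1 ≤ k) : Good n k starL :=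
  good_of_finset fun R S hS => G1_L k hk R n hn S hS

/-- TARGET 2 -/
theorem good_starR {n k : ℕ} (hn : 1 ≤ n) (hk : 1 ≤ k) : Good n k (starR k) :=
  good_of_finset fun R S hS => G1_R k hk R n hn S hS


end Pool.Agent.H831G
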