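import Pool.Agent.H831G.Defs
import Pool.Agent.H831G.G0

/-!
Part G2 of the proof for MP_23a060_co (owner helper831).
-/

set_option autoImplicit false

namespace Pool.Agent.H831G


/-! ## TARGETS -/

/-- TARGET -/
theorem good_join {n k₁ k₂ : ℕ} {E₁ E₂ : ℕ → ℕ → Prop} (hn : 1 ≤ n) (h₁ : 1 ≤ k₁) (h₂ : 1 ≤ k₂)
    (g₁ : Good n k₁ E₁) (g₂ : Good n k₂ E₂) : Good n (k₁ + k₂ - 1) (join k₁ E₁ E₂) := by
  classical
  intro R
  by_cases hB : BlueK n ((n - 1) * (k₁ + k₂ - 1 - 1) + 1) R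
  · exact Or.inr hB
  left
  have hNe : (n - 1) * (k₁ + k₂ - 1 - 1) + 1 = (n - 1) * (k₁ - 1) + (n - 1) * (k₂ - 1) + 1 := by
    rw [← Nat.mul_add]
    congr 2
    omega
  generalize (n - 1) * (k₁ + k₂ - 1 - 1) + 1 = N at hB hNe
  have hnb : ¬ ∃ g : ℕ → ℕ, (∀ i j, i < j → j < n → g i < g j) ∧
      (∀ i, i < n → g i ∈ Finset.range N) ∧ ∀ i j, i < j → j < n → ¬ R (g i) (g j) := by
    rintro ⟨g, h1, h2, h3⟩
    exact hB ⟨g, h1, fun i hi => Finset.mem_range.1 (h2 i hi), fun i j hij hj _ => h3 i j hij hj⟩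
  let P : ℕ → Prop := fun x => ∃ f : ℕ → ℕ, (∀ i j, i < j → j < k₁ → f i < f j) ∧
    (∀ i, i < k₁ → f i < N) ∧ (∀ i j, i < j → j < k₁ → E₁ i j → R (f i) (f j)) ∧ f (k₁ - 1) = x
  let X := (Finset.range N).filter P
  let Y := (Finset.range N).filter (fun x => ¬ P x)
  have hXY : X.card + Y.card = N := by
    have := Finset.card_filter_add_card_filter_not (s := Finset.range N) P
    simpa using this
  have hY : Y.card ≤ (n - 1) * (k₁ - 1) := by
    by_contra hc
    push Not at hc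
    rcases good_on g₁ R Y (by omega) with ⟨f, hf1, hf2, hf3⟩ | ⟨g, hg1, hg2, hg3⟩
    · have := hf2 (k₁ - 1) (by omega)
      rw [Finset.mem_filter] at this
      exact this.2 ⟨f, hf1, fun i hi => Finset.mem_range.1 (Finset.mem_filter.1 (hf2 i hi)).1,
        hf3, rfl⟩
    · exact hnb ⟨g, hg1, fun i hi => (Finset.mem_filter.1 (hg2 i hi)).1, hg3⟩
  rcases good_on g₂ R X (by omega) with ⟨g, hg1, hg2, hg3⟩ | ⟨g, hg1, hg2, hg3⟩
  swap
  · exact absurd ⟨g, hg1, fun i hi => (Finset.mem_filter.1 (hg2 i hi)).1, hg3⟩ hnb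
  obtain ⟨hx, f, hf1, hf2, hf3, hf4⟩ := Finset.mem_filter.1 (hg2 0 (by omega))
  have hgl : ∀ i, k₁ - 1 ≤ i → (if i < k₁ then f i else g (i - (k₁ - 1))) = g (i - (k₁ - 1)) := by
    intro i hi
    split_ifs with h
    · have : i = k₁ - 1 := by omega
      subst this
      simp [hf4]
    · rfl
  refine ⟨fun i => if i < k₁ then f i else g (i - (k₁ - 1)), ?_, ?_, ?_⟩
  · intro i j hij hj
    by_cases hjk : j < k₁
    · have hik : i < k₁ := by omega
      simp only [hjk, hik, if_true]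
      exact hf1 i j hij hjk
    · simp only [hjk, if_false]
      by_cases hik : k₁ - 1 ≤ i
      · rw [hgl i hik]
        exact hg1 _ _ (by omega) (by omega)
      · have hik' : i < k₁ := by omega
        simp only [hik', if_true]
        calc f i < f (k₁ - 1) := hf1 i (k₁ - 1) (by omega) (by omega)
          _ = g 0 := hf4
          _ < g (j - (k₁ - 1)) := hg1 _ _ (by omega) (by omega)
  · intro i hi
    by_cases hik : i < k₁
    · simp only [hik, if_true]
      exact hf2 i hik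
    · simp only [hik, if_false]
      exact Finset.mem_range.1 (Finset.mem_filter.1 (hg2 (i - (k₁ - 1)) (by omega))).1
  · intro i j hij hj hE
    rcases hE with ⟨hjk, hE⟩ | ⟨hik, hE⟩
    · have hik : i < k₁ := by omega
      simp only [hjk, hik, if_true]
      exact hf3 i j hij hjk hE
    · show R (if i < k₁ then f i else g (i - (k₁ - 1))) (if j < k₁ then f j else g (j - (k₁ - 1)))
      rw [hgl i hik, hgl j (by omega)]
      exact hg3 _ _ (by omega) (by omega) hE


end Pool.Agent.H831G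

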