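import Pool.Agent.H831G.Defs

/-!
Part G3a of the proof for MP_23a060_co (owner helper831).
-/


set_option autoImplicit false

namespace Pool.Agent.H831G

theorem G3a_nth (C : Finset ℕ) (k : ℕ) (hk : k < C.card) :
    ∃ x ∈ C, (C.filter (fun y => y < x)).card = k := by
  induction C using Finset.induction_on_max generalizing k with
  | empty => simp at hk
  | insert a s ha ih =>
    have has : a ∉ s := fun h => lt_irrefl _ (ha a h)
    rw [Finset.card_insert_of_notMem has] at hk
    rcases Nat.lt_or_ge k s.card with h | h
    · obtain ⟨x, hx, hc⟩ := ih k h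
      refine ⟨x, Finset.mem_insert_of_mem hx, ?_⟩
      rw [Finset.filter_insert, if_neg (by have := ha x hx; omega)]
      exact hc
    · refine ⟨a, Finset.mem_insert_self _ _, ?_⟩
      rw [Finset.filter_insert, if_neg (lt_irrefl _), Finset.filter_true_of_mem (fun x hx => ha x hx)]
      omega

/-- TARGET. `R` symmetric is NOT assumed: red pairs are `R i j` with `i < j`. -/
theorem dstar_key {p q N : ℕ} (R : ℕ → ℕ → Prop) [DecidableRel R] (hN : N = 2 * (p + q + 1) + 1)
    (hB : ∀ x y z, x < y → y < z → z < N → R x y ∨ R x z ∨ R y z)
    (hD : ∀ α β, α < β → β < N → R α β →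
      p ≤ ((Finset.range α).filter (fun x => R x β)).card →
      q ≤ ((Finset.Ioo β N).filter (fun y => R α y)).card → False) :
    ∀ v, v ≤ 2 * p + 1 → v < N → ((Finset.range v).filter (fun u => R u v)).card ≤ p := by
  intro b
  induction b using Nat.strong_induction_on with
  | _ b ih =>
    intro hb hbN
    by_contra hcon
    push Not at hcon
    -- the largest red left neighbour of `b`
    have hne : ((Finset.range b).filter (fun u => R u b)).Nonempty := by
      rw [← Finset.card_pos]; omega
    obtain ⟨a, ha, hmax⟩ := Finset.exists_max_image _ (fun x => x) hne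
    have ha' := Finset.mem_filter.1 ha
    have hab : a < b := Finset.mem_range.1 ha'.1
    have h1 : p ≤ ((Finset.range a).filter (fun x => R x b)).card := by
      have h2 : ((Finset.range b).filter (fun u => R u b)).erase a ⊆
          (Finset.range a).filter (fun x => R x b) := by
        intro x hx
        rw [Finset.mem_erase] at hx
        have h3 := hmax x hx.2
        have h4 := Finset.mem_filter.1 hx.2
        refine Finset.mem_filter.2 ⟨Finset.mem_range.2 ?_, h4.2⟩
        have h5 := hx.1
        change x ≤ a at h3
        omega
      have h3 := Finset.card_le_card h2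
      rw [Finset.card_erase_of_mem ha] at h3
      omega
    have h2 : ¬ q ≤ ((Finset.Ioo b N).filter (fun y => R a y)).card :=
      fun h => hD a b hab hbN ha'.2 h1 h
    set C := (Finset.Ioo b N).filter (fun y => ¬ R a y) with hC
    have hCc : 2 * p + q + 3 - b ≤ C.card := by
      have h3 := Finset.card_filter_add_card_filter_not (s := Finset.Ioo b N) (fun y => R a y)
      rw [Nat.card_Ioo, ← hC] at h3
      omega
    have hCm : ∀ x ∈ C, b < x ∧ x < N ∧ ¬ R a x := by
      intro x hx
      have h4 := Finset.mem_filter.1 hx
      have h5 := Finset.mem_Ioo.1 h4.1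
      exact ⟨h5.1, h5.2, h4.2⟩
    have hCR : ∀ x ∈ C, ∀ y ∈ C, x < y → R x y := by
      intro x hx y hy hxy
      obtain ⟨h4, h5, h6⟩ := hCm x hx
      obtain ⟨h7, h8, h9⟩ := hCm y hy
      rcases hB a x y (by omega) hxy h8 with h | h | h
      · exact absurd h h6
      · exact absurd h h9
      · exact h
    obtain ⟨α, hα, hαc⟩ := G3a_nth C (2 * p + 1 - b) (by omega)
    obtain ⟨β, hβ, hβc⟩ := G3a_nth C (2 * p + 1 - b + 1) (by omega)
    have hαβ : α < β := by
      by_contra h
      push Not at h
      have h3 : C.filter (fun y => y < β) ⊆ C.filter (fun y => y < α) := by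
        intro y hy
        rw [Finset.mem_filter] at hy ⊢
        exact ⟨hy.1, by omega⟩
      have := Finset.card_le_card h3
      omega
    obtain ⟨hαb, hαN, -⟩ := hCm α hα
    obtain ⟨hβb, hβN, -⟩ := hCm β hβ
    have h3 : q ≤ ((Finset.Ioo β N).filter (fun y => R α y)).card := by
      have h4 : (C.filter (fun y => ¬ y < β)).erase β ⊆
          (Finset.Ioo β N).filter (fun y => R α y) := by
        intro y hy
        rw [Finset.mem_erase, Finset.mem_filter] at hy
        obtain ⟨h5, h6, h7⟩ := hy
        refine Finset.mem_filter.2 ⟨Finset.mem_Ioo.2 ⟨by omega, (hCm y h6).2.1⟩,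
          hCR α hα y h6 (by omega)⟩
      have h5 := Finset.card_le_card h4
      rw [Finset.card_erase_of_mem (Finset.mem_filter.2 ⟨hβ, lt_irrefl _⟩)] at h5
      have h6 := Finset.card_filter_add_card_filter_not (s := C) (fun y => y < β)
      omega
    have h4 : ¬ p ≤ ((Finset.range α).filter (fun x => R x β)).card :=
      fun h => hD α β hαβ hβN (hCR α hα β hβ hαβ) h h3
    -- the red neighbours of `β` which are at most `b`
    have h5 : ((Finset.range (b + 1)).filter (fun x => R x β)).card + (2 * p + 1 - b) ≤
        ((Finset.range α).filter (fun x => R x β)).card := by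
      rw [← hαc, ← Finset.card_union_of_disjoint]
      · refine Finset.card_le_card fun x hx => ?_
        rcases Finset.mem_union.1 hx with h | h
        · rw [Finset.mem_filter, Finset.mem_range] at h ⊢
          exact ⟨by omega, h.2⟩
        · rw [Finset.mem_filter] at h
          rw [Finset.mem_filter, Finset.mem_range]
          exact ⟨h.2, hCR x h.1 β hβ (by omega)⟩
      · rw [Finset.disjoint_left]
        intro x hx hx'
        rw [Finset.mem_filter, Finset.mem_range] at hx
        rw [Finset.mem_filter] at hx'
        have := (hCm x hx'.1).1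
        omega
    have h6 := Finset.card_filter_add_card_filter_not (s := Finset.range (b + 1)) (fun x => R x β)
    rw [Finset.card_range] at h6
    set K := (Finset.range b).filter (fun x => ¬ R x β) with hK
    have h7 : ((Finset.range (b + 1)).filter (fun x => ¬ R x β)).card ≤ K.card + 1 := by
      rw [Finset.range_add_one, Finset.filter_insert]
      split_ifs
      · rw [← hK]
        omega
      · rw [← hK]
        exact Finset.card_insert_le _ _
    have hKc : p + 2 ≤ K.card := by omega
    have hKm : ∀ x ∈ K, x < b ∧ ¬ R x β := by
      intro x hx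
      have h4 := Finset.mem_filter.1 hx
      exact ⟨Finset.mem_range.1 h4.1, h4.2⟩
    have hKne : K.Nonempty := by
      rw [← Finset.card_pos]; omega
    obtain ⟨w, hw, hwm⟩ := Finset.exists_max_image _ (fun x => x) hKne
    obtain ⟨hwb, hwR⟩ := hKm w hw
    have h8 := ih w hwb (by omega) (by omega)
    have h9 : K.erase w ⊆ (Finset.range w).filter (fun u => R u w) := by
      intro x hx
      rw [Finset.mem_erase] at hx
      obtain ⟨h10, h11⟩ := hKm x hx.2
      have h12 := hwm x hx.2
      change x ≤ w at h12
      have h13 : x < w := by have := hx.1; omega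
      refine Finset.mem_filter.2 ⟨Finset.mem_range.2 h13, ?_⟩
      rcases hB x w β h13 (by omega) hβN with h | h | h
      · exact h
      · exact absurd h h11
      · exact absurd h hwR
    have h10 := Finset.card_le_card h9
    rw [Finset.card_erase_of_mem hw] at h10
    omega

end Pool.Agent.H831G
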