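import Pool.Agent.H831G.Defs
import Pool.Agent.H831G.G3a

/-!
Part G3b of the proof for MP_23a060_co (owner helper831).
-/

set_option autoImplicit false

namespace Pool.Agent.H831G


theorem G3b_enum (n : ℕ) (A : Finset ℕ) (hA : A.card = n) :
    ∃ g : ℕ → ℕ, (∀ i, i < n → g i ∈ A) ∧ ∀ i j, i < j → j < n → g i < g j := by
  classical
  refine ⟨fun i => if h : i < n then A.orderEmbOfFin hA ⟨i, h⟩ else 0, ?_, ?_⟩
  · intro i hi
    simp only [hi, dif_pos]
    exact A.orderEmbOfFin_mem hA ⟨i, hi⟩
  · intro i j hij hj
    have hi : i < n := lt_trans hij hj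
    simp only [hi, hj, dif_pos]
    exact (A.orderEmbOfFin hA).strictMono (by simpa using hij)

theorem G3b_clique {k N : ℕ} {R : ℕ → ℕ → Prop} (E : ℕ → ℕ → Prop) (A : Finset ℕ)
    (hA : k ≤ A.card) (hN : ∀ x ∈ A, x < N) (hR : ∀ x ∈ A, ∀ y ∈ A, x < y → R x y) :
    HasCopy k E N R := by
  obtain ⟨B, hBA, hB⟩ := Finset.exists_subset_card_eq hA
  obtain ⟨g, h1, h2⟩ := G3b_enum k B hB
  refine ⟨g, h2, fun i hi => hN _ (hBA (h1 i hi)), ?_⟩
  intro i j hij hj _
  exact hR _ (hBA (h1 i (lt_trans hij hj))) _ (hBA (h1 j hj)) (h2 i j hij hj)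

theorem G3b_star {p q N : ℕ} {R : ℕ → ℕ → Prop} (α β : ℕ) (hαβ : α < β) (hβ : β < N)
    (hR : R α β) (A B : Finset ℕ) (hA : p ≤ A.card) (hB : q ≤ B.card)
    (hA1 : ∀ x ∈ A, x < α ∧ R x β) (hB1 : ∀ y ∈ B, β < y ∧ y < N ∧ R α y) :
    HasCopy (p + q + 2) (dstar p) N R := by
  obtain ⟨A', hA'A, hA'⟩ := Finset.exists_subset_card_eq hA
  obtain ⟨B', hB'B, hB'⟩ := Finset.exists_subset_card_eq hB
  obtain ⟨g, h1, h2⟩ := G3b_enum p A' hA'
  obtain ⟨g', h1', h2'⟩ := G3b_enum q B' hB'
  have ga : ∀ i, i < p → g i < α ∧ R (g i) β := fun i hi => hA1 _ (hA'A (h1 i hi))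
  have gb : ∀ i, i < q → β < g' i ∧ g' i < N ∧ R α (g' i) := fun i hi => hB1 _ (hB'B (h1' i hi))
  refine ⟨fun i => if i < p then g i else if i = p then α else if i = p + 1 then β
    else g' (i - (p + 2)), ?_, ?_, ?_⟩
  · intro i j hij hj
    dsimp only
    rcases lt_trichotomy j p with hjp | hjp | hjp
    · rw [if_pos (lt_trans hij hjp), if_pos hjp]
      exact h2 i j hij hjp
    · have hi : i < p := by omega
      rw [if_pos hi, if_neg (by omega), if_pos hjp]
      exact (ga i hi).1
    · rw [if_neg (by omega : ¬ j < p), if_neg (by omega : ¬ j = p)]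
      have hj' : (if j = p + 1 then β else g' (j - (p + 2))) ≥ β := by
        split_ifs with h
        · exact le_rfl
        · exact (gb _ (by omega)).1.le
      rcases lt_trichotomy i p with hi | hi | hi
      · rw [if_pos hi]
        have := (ga i hi).1
        omega
      · rw [if_neg (by omega), if_pos hi]
        omega
      · rw [if_neg (by omega), if_neg (by omega)]
        rw [if_neg (by omega : ¬ j = p + 1)]
        split_ifs with h
        · exact (gb _ (by omega)).1
        · exact h2' _ _ (by omega) (by omega)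
  · intro i hi
    dsimp only
    split_ifs with h3 h4 h5
    · have := (ga i h3).1
      omega
    · omega
    · omega
    · exact (gb _ (by omega)).2.1
  · intro i j hij hj hE
    dsimp only
    rcases hE with ⟨hi, hj1⟩ | ⟨hi, hj1⟩
    · rw [if_neg (by omega : ¬ j < p), if_neg (by omega : ¬ j = p), if_pos hj1]
      by_cases h3 : i < p
      · rw [if_pos h3]
        exact (ga i h3).2
      · rw [if_neg h3, if_pos (by omega)]
        exact hR
    · rw [if_neg (by omega : ¬ i < p), if_pos hi, if_neg (by omega : ¬ j < p),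
        if_neg (by omega : ¬ j = p)]
      split_ifs with h
      · exact hR
      · exact (gb _ (by omega)).2.2


/-- TARGET -/
theorem good_dstar (p q : ℕ) : Good 3 (p + q + 2) (dstar p) := by
  classical
  intro R
  by_contra hcon
  rw [not_or] at hcon
  obtain ⟨hc1, hc2⟩ := hcon
  have hN : (3 - 1) * ((p + q + 2) - 1) + 1 = 2 * (p + q + 1) + 1 := by omega
  rw [hN] at hc1 hc2
  set N := 2 * (p + q + 1) + 1 with hNdef
  -- no blue triangle
  have hB : ∀ x y z, x < y → y < z → z < N → R x y ∨ R x z ∨ R y z := by
    intro x y z hxy hyz hz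
    by_contra hn
    rw [not_or, not_or] at hn
    obtain ⟨n1, n2, n3⟩ := hn
    apply hc2
    apply G3b_clique (fun _ _ => True) {x, y, z}
    · rw [Finset.card_eq_three.2 ⟨x, y, z, by omega, by omega, by omega, rfl⟩]
    · intro w hw
      simp only [Finset.mem_insert, Finset.mem_singleton] at hw
      omega
    · intro u hu w hw huw
      simp only [Finset.mem_insert, Finset.mem_singleton] at hu hw
      rcases hu with rfl | rfl | rfl <;> rcases hw with rfl | rfl | rfl <;>
        first | assumption | omega
  have hD : ∀ α β, α < β → β < N → R α β →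
      p ≤ ((Finset.range α).filter (fun x => R x β)).card →
      q ≤ ((Finset.Ioo β N).filter (fun y => R α y)).card → False := by
    intro α β hαβ hβ hR hp hq
    apply hc1
    refine G3b_star α β hαβ hβ hR _ _ hp hq ?_ ?_
    · intro x hx
      rw [Finset.mem_filter, Finset.mem_range] at hx
      exact hx
    · intro y hy
      rw [Finset.mem_filter, Finset.mem_Ioo] at hy
      exact ⟨hy.1.1, hy.1.2, hy.2⟩
  -- the left degree
  have hl := dstar_key R hNdef hB hD (2 * p + 1) le_rfl (by omega)
  -- the mirror
  have hr0 := dstar_key (p := q) (q := p) (N := N) (fun i j => R (N - 1 - j) (N - 1 - i))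
    (by omega)
    (by
      intro x y z hxy hyz hz
      have := hB (N - 1 - z) (N - 1 - y) (N - 1 - x) (by omega) (by omega) (by omega)
      tauto)
    (by
      intro α β hαβ hβ hR hq hp
      refine hD (N - 1 - β) (N - 1 - α) (by omega) (by omega) hR (hp.trans ?_) (hq.trans ?_)
      · apply Finset.card_le_card_of_injOn (fun y => N - 1 - y)
        · intro y hy
          simp only [Finset.coe_filter, Finset.mem_Ioo, Set.mem_ofPred_eq] at hy
          simp only [Finset.coe_filter, Finset.mem_range, Set.mem_ofPred_eq]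
          exact ⟨by omega, hy.2⟩
        · intro y hy z hz hyz
          simp only [Finset.coe_filter, Finset.mem_Ioo, Set.mem_ofPred_eq] at hy hz hyz
          omega
      · apply Finset.card_le_card_of_injOn (fun y => N - 1 - y)
        · intro y hy
          simp only [Finset.coe_filter, Finset.mem_range, Set.mem_ofPred_eq] at hy
          simp only [Finset.coe_filter, Finset.mem_Ioo, Set.mem_ofPred_eq]
          exact ⟨by omega, hy.2⟩
        · intro y hy z hz hyz
          simp only [Finset.coe_filter, Finset.mem_range, Set.mem_ofPred_eq] at hy hz hyz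
          omega)
    (2 * q + 1) le_rfl (by omega)
  have hr : ((Finset.Ioo (2 * p + 1) N).filter (fun w => R (2 * p + 1) w)).card ≤ q := by
    refine le_trans ?_ hr0
    apply Finset.card_le_card_of_injOn (fun y => N - 1 - y)
    · intro y hy
      simp only [Finset.coe_filter, Finset.mem_Ioo, Set.mem_ofPred_eq] at hy
      simp only [Finset.coe_filter, Finset.mem_range, Set.mem_ofPred_eq]
      refine ⟨by omega, ?_⟩
      have e1 : N - 1 - (2 * q + 1) = 2 * p + 1 := by omega
      have e2 : N - 1 - (N - 1 - y) = y := by omega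
      rw [e1, e2]
      exact hy.2
    · intro y hy z hz hyz
      simp only [Finset.coe_filter, Finset.mem_Ioo, Set.mem_ofPred_eq] at hy hz hyz
      omega
  -- the blue neighbours
  have c1 := Finset.card_filter_add_card_filter_not (s := Finset.range (2 * p + 1))
    (fun u => R u (2 * p + 1))
  have c2 := Finset.card_filter_add_card_filter_not (s := Finset.Ioo (2 * p + 1) N)
    (fun w => R (2 * p + 1) w)
  rw [Finset.card_range] at c1
  rw [Nat.card_Ioo] at c2
  apply hc1
  apply G3b_clique (dstar p) ((Finset.range (2 * p + 1)).filter (fun u => ¬ R u (2 * p + 1)) ∪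
    (Finset.Ioo (2 * p + 1) N).filter (fun w => ¬ R (2 * p + 1) w))
  · rw [Finset.card_union_of_disjoint]
    · omega
    · rw [Finset.disjoint_left]
      intro u hu hu'
      rw [Finset.mem_filter, Finset.mem_range] at hu
      rw [Finset.mem_filter, Finset.mem_Ioo] at hu'
      omega
  · intro u hu
    rw [Finset.mem_union, Finset.mem_filter, Finset.mem_range, Finset.mem_filter,
      Finset.mem_Ioo] at hu
    omega
  · intro u hu w hw huw
    rw [Finset.mem_union, Finset.mem_filter, Finset.mem_range, Finset.mem_filter,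
      Finset.mem_Ioo] at hu hw
    rcases hu with ⟨hu1, hu2⟩ | ⟨hu1, hu2⟩ <;> rcases hw with ⟨hw1, hw2⟩ | ⟨hw1, hw2⟩
    · rcases hB u w (2 * p + 1) huw hw1 (by omega) with h | h | h
      · exact h
      · exact absurd h hu2
      · exact absurd h hw2
    · rcases hB u (2 * p + 1) w hu1 hw1.1 hw1.2 with h | h | h
      · exact absurd h hu2
      · exact h
      · exact absurd h hw2
    · omega
    · rcases hB (2 * p + 1) u w hu1.1 huw hw1.2 with h | h | h
      · exact absurd h hu2
      · exact absurd h hw2
      · exact h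



end Pool.Agent.H831G
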