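import Pool.Agent.H831G.Defs

/-!
Part G4 of the proof for MP_23a060_co (owner helper831).
-/

set_option autoImplicit false

namespace Pool.Agent.H831G

lemma G4_pig {n : ℕ} (hn : 1 ≤ n) (h : ℕ → ℕ) (hh : ∀ i, i < n → h i < n - 1) :
    ∃ i j, i < j ∧ j < n ∧ h i = h j := by
  have h1 : (Finset.range (n - 1)).card < (Finset.range n).card := by
    rw [Finset.card_range, Finset.card_range]
    omega
  obtain ⟨x, hx, y, hy, hxy, he⟩ := Finset.exists_ne_map_eq_of_card_lt_of_maps_to h1
    (f := h) (fun a ha => Finset.mem_coe.2 (Finset.mem_range.2 (hh a (Finset.mem_range.1 ha))))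
  rw [Finset.mem_range] at hx hy
  rcases lt_or_gt_of_ne hxy with h2 | h2
  · exact ⟨x, y, h2, hy, he⟩
  · exact ⟨y, x, h2, hx, he.symm⟩

lemma G4_same {a b m : ℕ} (hm : 0 < m) (h : a / m = b / m) : b < a + m := by
  have h1 := Nat.lt_mul_div_succ b hm
  have h2 := Nat.mul_div_le a m
  rw [h] at h2
  rw [Nat.mul_add, Nat.mul_one] at h1
  omega

lemma G4_inc {k : ℕ} {f : ℕ → ℕ} (h : ∀ i j, i < j → j < k → f i < f j) (c : ℕ) :
    ∀ a, c + a < k → f c + a ≤ f (c + a) := by
  intro a
  induction a with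
  | zero => intro _; simp
  | succ a ih =>
    intro h1
    have h2 := ih (by omega)
    have h3 := h (c + a) (c + (a + 1)) (by omega) h1
    omega

lemma G4_mono {k : ℕ} {f : ℕ → ℕ} (h : ∀ i j, i < j → j < k → f i < f j) {i j : ℕ}
    (hij : i ≤ j) (hj : j < k) : f i ≤ f j := by
  rcases Nat.lt_or_eq_of_le hij with h1 | h1
  · exact (h i j h1 hj).le
  · rw [h1]

/-- TARGET 1 -/
theorem not_good_join_left {n k₁ k₂ : ℕ} {E₁ E₂ : ℕ → ℕ → Prop} (hn : 1 ≤ n) (h₁ : 1 ≤ k₁) (h₂ : 1 ≤ k₂)
    (g₁ : ¬ Good n k₁ E₁) (c₂ : Conn k₂ E₂) : ¬ Good n (k₁ + k₂ - 1) (join k₁ E₁ E₂) := by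
  unfold Good Arrow at g₁
  push Not at g₁
  obtain ⟨R₁, hR, hB⟩ := g₁
  intro hG
  set N₁ := (n - 1) * (k₁ - 1) + 1 with hN₁
  have hN : (n - 1) * (k₁ + k₂ - 1 - 1) + 1 = N₁ + (n - 1) * (k₂ - 1) := by
    have : k₁ + k₂ - 1 - 1 = (k₁ - 1) + (k₂ - 1) := by omega
    rw [hN₁, this, Nat.mul_add]
    ring
  rcases hG (fun i j => (j < N₁ ∧ R₁ i j) ∨ (i < N₁ ∧ N₁ ≤ j) ∨
    (N₁ ≤ i ∧ N₁ ≤ j ∧ (i - N₁) / (k₂ - 1) = (j - N₁) / (k₂ - 1))) with ⟨f, hf1, hf2, hf3⟩ |
    ⟨g, hg1, hg2, hg3⟩
  · rw [hN] at hf2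
    rcases Nat.lt_or_ge (f (k₁ - 1)) N₁ with hc | hc
    · apply hR
      refine ⟨f, fun i j hij hj => hf1 i j hij (by omega), fun i hi => ?_, fun i j hij hj hE => ?_⟩
      · exact (G4_mono hf1 (show i ≤ k₁ - 1 by omega) (by omega)).trans_lt hc
      · have h3 : f j < N₁ := (G4_mono hf1 (show j ≤ k₁ - 1 by omega) (by omega)).trans_lt hc
        rcases hf3 i j hij (by omega) (Or.inl ⟨hj, hE⟩) with h4 | h4 | h4
        · exact h4.2
        · omega
        · omega
    · have hnew : ∀ a, a < k₂ → N₁ ≤ f (k₁ - 1 + a) := fun a ha =>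
        hc.trans (G4_mono hf1 (by omega) (by omega))
      have hm : 0 < k₂ - 1 := by
        have h4 := hf2 (k₁ - 1) (by omega)
        by_contra h5
        have h6 : k₂ - 1 = 0 := by omega
        rw [h6, Nat.mul_zero] at h4
        omega
      have hall : ∀ a, a < k₂ → (f (k₁ - 1 + a) - N₁) / (k₂ - 1) =
          (f (k₁ - 1) - N₁) / (k₂ - 1) := by
        by_contra hcon
        push Not at hcon
        obtain ⟨a, ha, hne⟩ := hcon
        obtain ⟨i, j, hij, hj, hE, hS⟩ := c₂ (fun a => (f (k₁ - 1 + a) - N₁) / (k₂ - 1) =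
          (f (k₁ - 1) - N₁) / (k₂ - 1)) ⟨0, by omega, rfl⟩ ⟨a, ha, hne⟩
        have h4 : join k₁ E₁ E₂ (k₁ - 1 + i) (k₁ - 1 + j) := by
          right
          refine ⟨by omega, ?_⟩
          have e1 : k₁ - 1 + i - (k₁ - 1) = i := by omega
          have e2 : k₁ - 1 + j - (k₁ - 1) = j := by omega
          rw [e1, e2]
          exact hE
        have h5 := hnew i (by omega)
        have h6 := hnew j hj
        rcases hf3 (k₁ - 1 + i) (k₁ - 1 + j) (by omega) (by omega) h4 with h7 | h7 | h7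
        · omega
        · omega
        · apply hS
          rw [h7.2.2]
      have h8 := hall (k₂ - 1) (by omega)
      have h9 := G4_same hm h8.symm
      have h10 := G4_inc hf1 (k₁ - 1) (k₂ - 1) (by omega)
      have h11 := hnew (k₂ - 1) (by omega)
      omega
  · rw [hN] at hg2
    rcases Nat.lt_or_ge (g (n - 1)) N₁ with hc | hc
    · apply hB
      refine ⟨g, hg1, fun i hi => ?_, fun i j hij hj _ => ?_⟩
      · exact (G4_mono hg1 (show i ≤ n - 1 by omega) (by omega)).trans_lt hc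
      · have h3 : g j < N₁ := (G4_mono hg1 (show j ≤ n - 1 by omega) (by omega)).trans_lt hc
        intro h4
        exact hg3 i j hij hj trivial (Or.inl ⟨h3, h4⟩)
    · have hnew : ∀ i, i < n → N₁ ≤ g i := by
        intro i hi
        by_contra h4
        push Not at h4
        rcases Nat.lt_or_ge i (n - 1) with h5 | h5
        · exact hg3 i (n - 1) h5 (by omega) trivial (Or.inr (Or.inl ⟨h4, hc⟩))
        · have : i = n - 1 := by omega
          rw [this] at h4
          omega
      obtain ⟨i, j, hij, hj, he⟩ := G4_pig hn (fun i => (g i - N₁) / (k₂ - 1)) (by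
        intro i hi
        apply Nat.div_lt_of_lt_mul
        have h4 := hg2 i hi
        have h5 := hnew i hi
        rw [Nat.mul_comm]
        omega)
      exact hg3 i j hij hj trivial (Or.inr (Or.inr ⟨hnew i (by omega), hnew j hj, he⟩))

/-- TARGET 2 -/
theorem not_good_join_right {n k₁ k₂ : ℕ} {E₁ E₂ : ℕ → ℕ → Prop} (hn : 1 ≤ n) (h₁ : 1 ≤ k₁) (h₂ : 1 ≤ k₂)
    (g₂ : ¬ Good n k₂ E₂) (c₁ : Conn k₁ E₁) : ¬ Good n (k₁ + k₂ - 1) (join k₁ E₁ E₂) := by
  unfold Good Arrow at g₂
  push Not at g₂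
  obtain ⟨R₂, hR, hB⟩ := g₂
  intro hG
  set N₂ := (n - 1) * (k₂ - 1) + 1 with hN₂
  set M := (n - 1) * (k₁ - 1) with hM
  have hN : (n - 1) * (k₁ + k₂ - 1 - 1) + 1 = M + N₂ := by
    have : k₁ + k₂ - 1 - 1 = (k₁ - 1) + (k₂ - 1) := by omega
    rw [hN₂, this, Nat.mul_add]
    ring
  rcases hG (fun i j => (j < M ∧ i / (k₁ - 1) = j / (k₁ - 1)) ∨ (i < M ∧ M ≤ j) ∨
    (M ≤ i ∧ M ≤ j ∧ R₂ (i - M) (j - M))) with ⟨f, hf1, hf2, hf3⟩ | ⟨g, hg1, hg2, hg3⟩
  · rw [hN] at hf2
    rcases Nat.lt_or_ge (f (k₁ - 1)) M with hc | hc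
    · have hold : ∀ a, a < k₁ → f a < M := fun a ha =>
        (G4_mono hf1 (show a ≤ k₁ - 1 by omega) (by omega)).trans_lt hc
      have hm : 0 < k₁ - 1 := by
        by_contra h5
        have h6 : k₁ - 1 = 0 := by omega
        rw [hM, h6, Nat.mul_zero] at hc
        omega
      have hall : ∀ a, a < k₁ → f a / (k₁ - 1) = f 0 / (k₁ - 1) := by
        by_contra hcon
        push Not at hcon
        obtain ⟨a, ha, hne⟩ := hcon
        obtain ⟨i, j, hij, hj, hE, hS⟩ := c₁ (fun a => f a / (k₁ - 1) = f 0 / (k₁ - 1))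
          ⟨0, by omega, rfl⟩ ⟨a, ha, hne⟩
        have h5 := hold i (by omega)
        have h6 := hold j hj
        rcases hf3 i j hij (by omega) (Or.inl ⟨hj, hE⟩) with h7 | h7 | h7
        · apply hS
          rw [h7.2]
        · omega
        · omega
      have h8 := hall (k₁ - 1) (by omega)
      have h9 := G4_same hm h8.symm
      have h10 := G4_inc hf1 0 (k₁ - 1) (by omega)
      rw [Nat.zero_add] at h10
      omega
    · apply hR
      have hnew : ∀ a, a < k₂ → M ≤ f (k₁ - 1 + a) := fun a ha =>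
        hc.trans (G4_mono hf1 (by omega) (by omega))
      refine ⟨fun a => f (k₁ - 1 + a) - M, fun i j hij hj => ?_, fun i hi => ?_,
        fun i j hij hj hE => ?_⟩
      · have h3 := hf1 (k₁ - 1 + i) (k₁ - 1 + j) (by omega) (by omega)
        have h4 := hnew i (by omega)
        have h5 := hnew j hj
        show f (k₁ - 1 + i) - M < f (k₁ - 1 + j) - M
        omega
      · have h3 := hf2 (k₁ - 1 + i) (by omega)
        have h4 := hnew i hi
        show f (k₁ - 1 + i) - M < N₂
        omega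
      · have h4 : join k₁ E₁ E₂ (k₁ - 1 + i) (k₁ - 1 + j) := by
          right
          refine ⟨by omega, ?_⟩
          have e1 : k₁ - 1 + i - (k₁ - 1) = i := by omega
          have e2 : k₁ - 1 + j - (k₁ - 1) = j := by omega
          rw [e1, e2]
          exact hE
        have h5 := hnew i (by omega)
        have h6 := hnew j hj
        rcases hf3 (k₁ - 1 + i) (k₁ - 1 + j) (by omega) (by omega) h4 with h7 | h7 | h7
        · omega
        · omega
        · exact h7.2.2
  · rw [hN] at hg2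
    rcases Nat.lt_or_ge (g 0) M with hc | hc
    · have hold : ∀ i, i < n → g i < M := by
        intro i hi
        by_contra h4
        push Not at h4
        rcases Nat.eq_zero_or_pos i with h5 | h5
        · rw [h5] at h4
          omega
        · exact hg3 0 i h5 hi trivial (Or.inr (Or.inl ⟨hc, h4⟩))
      obtain ⟨i, j, hij, hj, he⟩ := G4_pig hn (fun i => g i / (k₁ - 1)) (by
        intro i hi
        apply Nat.div_lt_of_lt_mul
        have h5 := hold i hi
        rw [Nat.mul_comm]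
        exact h5)
      exact hg3 i j hij hj trivial (Or.inl ⟨hold j hj, he⟩)
    · apply hB
      have hnew : ∀ i, i < n → M ≤ g i := fun i hi => hc.trans (G4_mono hg1 (by omega) hi)
      refine ⟨fun i => g i - M, fun i j hij hj => ?_, fun i hi => ?_, fun i j hij hj _ => ?_⟩
      · have h3 := hg1 i j hij hj
        have h4 := hnew i (by omega)
        have h5 := hnew j hj
        show g i - M < g j - M
        omega
      · have h3 := hg2 i hi
        have h4 := hnew i hi
        show g i - M < N₂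
        omega
      · intro h4
        exact hg3 i j hij hj trivial (Or.inr (Or.inr ⟨hnew i (by omega), hnew j hj, h4⟩))

end Pool.Agent.H831G
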