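import Pool.Agent.H831G.Defs

/-!
Part G5 of the proof for MP_23a060_co (owner helper831).
-/

set_option autoImplicit false

namespace Pool.Agent.H831G

/-- the class of a vertex (ten consecutive intervals of sizes `p,1,p,1,p,q,1,q,1,q`). -/
def G5_cl (p q x : ℕ) : ℕ :=
  if x < p then 0 else if x < p + 1 then 1 else if x < 2 * p + 1 then 2
  else if x < 2 * p + 2 then 3 else if x < 3 * p + 2 then 4 else if x < 3 * p + q + 2 then 5
  else if x < 3 * p + q + 3 then 6 else if x < 3 * p + 2 * q + 3 then 7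
  else if x < 3 * p + 2 * q + 4 then 8 else 9

/-- adjacency of classes `a ≤ b` in the reduced graph. -/
def G5_adj (a b : ℕ) : Prop :=
  a = b ∨ (a + 1 = b ∧ (b ≤ 4 ∨ 5 ≤ a)) ∨ (a = 0 ∧ (b = 7 ∨ b = 8 ∨ b = 9)) ∨
    (a = 1 ∧ (b = 5 ∨ b = 8)) ∨ (a = 2 ∧ b = 5) ∨ (a = 3 ∧ b = 9) ∨ (a = 4 ∧ (b = 6 ∨ b = 9))

instance (a b : ℕ) : Decidable (G5_adj a b) := by unfold G5_adj; infer_instance

theorem G5_spec (p q x : ℕ) (hx : x < 3 * p + 3 * q + 4) :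
    (G5_cl p q x = 0 ∧ x < p) ∨ (G5_cl p q x = 1 ∧ x = p) ∨
    (G5_cl p q x = 2 ∧ p + 1 ≤ x ∧ x < 2 * p + 1) ∨
    (G5_cl p q x = 3 ∧ x = 2 * p + 1) ∨
    (G5_cl p q x = 4 ∧ 2 * p + 2 ≤ x ∧ x < 3 * p + 2) ∨
    (G5_cl p q x = 5 ∧ 3 * p + 2 ≤ x ∧ x < 3 * p + q + 2) ∨
    (G5_cl p q x = 6 ∧ x = 3 * p + q + 2) ∨
    (G5_cl p q x = 7 ∧ 3 * p + q + 3 ≤ x ∧ x < 3 * p + 2 * q + 3) ∨
    (G5_cl p q x = 8 ∧ x = 3 * p + 2 * q + 3) ∨
    (G5_cl p q x = 9 ∧ 3 * p + 2 * q + 4 ≤ x ∧ x < 3 * p + 3 * q + 4) := by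
  unfold G5_cl
  split_ifs <;> omega

theorem G5_lt (p q x : ℕ) : G5_cl p q x < 10 := by
  unfold G5_cl
  split_ifs <;> omega

set_option maxHeartbeats 4000000 in
theorem G5_mono (p q : ℕ) {x y : ℕ} (h : x ≤ y) : G5_cl p q x ≤ G5_cl p q y := by
  unfold G5_cl
  split_ifs <;> omega

theorem G5_four : ∀ a : Fin 10, ∀ b : Fin 10, a ≤ b → ¬ G5_adj a b → ∀ c : Fin 10, b ≤ c →
    ¬ G5_adj a c → ¬ G5_adj b c → ∀ d : Fin 10, c ≤ d → ¬ G5_adj a d → ¬ G5_adj b d →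
    G5_adj c d := by
  decide

theorem G5_mul {f : ℕ → ℕ} {k : ℕ} (hf : ∀ i j, i < j → j < k → f i < f j) (i : ℕ) :
    ∀ d, i + d < k → f i + d ≤ f (i + d) := by
  intro d
  induction d with
  | zero => intro _; simp
  | succ d ih =>
    intro h
    have h1 := ih (by omega)
    have h2 := hf (i + d) (i + (d + 1)) (by omega) h
    omega

/-- TARGET -/
theorem not_good_dstar4 {p q : ℕ} (hp : 1 ≤ p) (hq : 1 ≤ q) : ¬ Good 4 (p + q + 2) (dstar p) := by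
  intro hgood
  have hN : (4 - 1) * (p + q + 2 - 1) + 1 = 3 * p + 3 * q + 4 := by omega
  unfold Good at hgood
  rw [hN] at hgood
  rcases hgood (fun i j => G5_adj (G5_cl p q i) (G5_cl p q j)) with ⟨f, hf, hlt, hE⟩ | ⟨f, hf, hlt, hE⟩
  · -- red double star
    have h0 := hlt 0 (by omega)
    have h1 := hlt p (by omega)
    have h2 := hlt (p + 1) (by omega)
    have h3 := hlt (p + 1 + q) (by omega)
    have m0 := G5_mul hf 0 p (by omega)
    have m1 := hf p (p + 1) (by omega) (by omega)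
    have m2 := G5_mul hf (p + 1) q (by omega)
    rw [Nat.zero_add] at m0
    have r0 := hE 0 (p + 1) (by omega) (by omega) (Or.inl ⟨by omega, rfl⟩)
    have r1 := hE p (p + 1) (by omega) (by omega) (Or.inl ⟨le_refl _, rfl⟩)
    have r2 := hE p (p + 1 + q) (by omega) (by omega) (Or.inr ⟨rfl, by omega⟩)
    simp only [] at r0 r1 r2
    have s0 := G5_spec p q _ h0
    have s1 := G5_spec p q _ h1
    have s2 := G5_spec p q _ h2
    have s3 := G5_spec p q _ h3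
    generalize f 0 = x0 at *
    generalize f p = x1 at *
    generalize f (p + 1) = x2 at *
    generalize f (p + 1 + q) = x3 at *
    unfold G5_adj at r0 r1 r2
    generalize G5_cl p q x0 = c0 at *
    generalize G5_cl p q x1 = c1 at *
    generalize G5_cl p q x2 = c2 at *
    generalize G5_cl p q x3 = c3 at *
    clear hlt hE hf hgood
    rcases s1 with ⟨rfl, s1⟩ | ⟨rfl, s1⟩ | ⟨rfl, s1⟩ | ⟨rfl, s1⟩ | ⟨rfl, s1⟩ | ⟨rfl, s1⟩ | ⟨rfl, s1⟩ |
      ⟨rfl, s1⟩ | ⟨rfl, s1⟩ | ⟨rfl, s1⟩ <;>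
    rcases s2 with ⟨rfl, s2⟩ | ⟨rfl, s2⟩ | ⟨rfl, s2⟩ | ⟨rfl, s2⟩ | ⟨rfl, s2⟩ | ⟨rfl, s2⟩ | ⟨rfl, s2⟩ |
      ⟨rfl, s2⟩ | ⟨rfl, s2⟩ | ⟨rfl, s2⟩ <;>
    first
      | (exfalso; clear r0 r2 s0 s3; omega)
      | (exfalso; clear r2 s3; omega)
      | (exfalso; clear r0 s0; omega)
  · have c01 := hE 0 1 (by omega) (by omega) trivial
    have c02 := hE 0 2 (by omega) (by omega) trivial
    have c03 := hE 0 3 (by omega) (by omega) trivial
    have c12 := hE 1 2 (by omega) (by omega) trivial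
    have c13 := hE 1 3 (by omega) (by omega) trivial
    have c23 := hE 2 3 (by omega) (by omega) trivial
    have m01 := G5_mono p q (hf 0 1 (by omega) (by omega)).le
    have m12 := G5_mono p q (hf 1 2 (by omega) (by omega)).le
    have m23 := G5_mono p q (hf 2 3 (by omega) (by omega)).le
    exact c23 (G5_four ⟨_, G5_lt p q (f 0)⟩ ⟨_, G5_lt p q (f 1)⟩ m01 c01 ⟨_, G5_lt p q (f 2)⟩ m12
      c02 c12 ⟨_, G5_lt p q (f 3)⟩ m23 c03 c13)

end Pool.Agent.H831G
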