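import Pool.Agent.H831G.Defs

/-!
Part G6 of the proof for MP_23a060_co (owner helper831).
-/

set_option autoImplicit false

namespace Pool.Agent.H831G


theorem G6_mono {k : ℕ} {f : ℕ → ℕ} (hf : ∀ i j, i < j → j < k → f i < f j) :
    ∀ i, i < k → f 0 + i ≤ f i := by
  intro i
  induction i with
  | zero => intro _; simp
  | succ m ih =>
    intro hm
    have h1 := ih (by omega)
    have h2 := hf m (m + 1) (by omega) hm
    omega

theorem G6_copy_rev {k N : ℕ} {E R : ℕ → ℕ → Prop} (hN : 1 ≤ N) {f : ℕ → ℕ}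
    (h : IsCopy k E N (fun i j => R (N - 1 - j) (N - 1 - i)) f) :
    IsCopy k (mir k E) N R (fun i => N - 1 - f (k - 1 - i)) := by
  obtain ⟨h1, h2, h3⟩ := h
  refine ⟨?_, ?_, ?_⟩
  · intro i j hij hj
    have a := h1 (k - 1 - j) (k - 1 - i) (by omega) (by omega)
    have b := h2 (k - 1 - i) (by omega)
    show N - 1 - f (k - 1 - i) < N - 1 - f (k - 1 - j)
    omega
  · intro i hi
    show N - 1 - f (k - 1 - i) < N
    omega
  · intro i j hij hj hE
    exact h3 (k - 1 - j) (k - 1 - i) (by omega) (by omega) hE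

/-- TARGET 1 -/
theorem good_pred {n k : ℕ} {E : ℕ → ℕ → Prop} (hn : 1 ≤ n) (hk : 1 ≤ k) (hE : Conn k E)
    (h : Good (n + 1) k E) : Good n k E := by
  intro R
  set N := (n - 1) * (k - 1) + 1 with hN
  have hN' : (n + 1 - 1) * (k - 1) + 1 = N + (k - 1) := by
    obtain ⟨m, rfl⟩ : ∃ m, n = m + 1 := ⟨n - 1, by omega⟩
    simp only [hN, Nat.add_sub_cancel]
    ring
  have hh := h (fun i j => (j < N ∧ R i j) ∨ N ≤ i)
  rw [hN'] at hh
  rcases hh with ⟨f, h1, h2, h3⟩ | ⟨g, h1, h2, h3⟩
  · by_cases hall : ∀ i, i < k → f i < N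
    · left
      refine ⟨f, h1, hall, ?_⟩
      intro i j hij hj hEij
      rcases h3 i j hij hj hEij with h4 | h4
      · exact h4.2
      · have := hall i (by omega)
        omega
    · by_cases hex : ∃ i, i < k ∧ f i < N
      · push Not at hall
        obtain ⟨i0, hi0, hi0'⟩ := hall
        obtain ⟨i, j, hij, hj, hEij, hS⟩ := hE (fun i => f i < N) hex ⟨i0, hi0, by
          show ¬ f i0 < N
          omega⟩
        exfalso
        have hlt := h1 i j hij hj
        rcases h3 i j hij hj hEij with h4 | h4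
        · apply hS
          show f i < N ↔ f j < N
          constructor
          · intro _; exact h4.1
          · intro _; exact lt_trans hlt h4.1
        · apply hS
          show f i < N ↔ f j < N
          constructor
          · intro h5; omega
          · intro h5; omega
      · exfalso
        push Not at hex
        have a := hex 0 (by omega)
        have b := G6_mono h1 (k - 1) (by omega)
        have c := h2 (k - 1) (by omega)
        omega
  · right
    have hlt : ∀ i, i < n → g i < N := by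
      intro i hi
      by_contra hcon
      exact h3 i (i + 1) (by omega) (by omega) trivial (Or.inr (by omega))
    refine ⟨g, fun i j hij hj => h1 i j hij (by omega), hlt, ?_⟩
    intro i j hij hj _ hR
    exact h3 i j hij (by omega) trivial (Or.inl ⟨hlt j hj, hR⟩)

/-- TARGET 2 -/
theorem good_mir {n k : ℕ} {E : ℕ → ℕ → Prop} (h : Good n k E) : Good n k (mir k E) := by
  intro R
  rcases h (fun i j => R ((n - 1) * (k - 1) + 1 - 1 - j) ((n - 1) * (k - 1) + 1 - 1 - i)) with
    ⟨f, hf⟩ | ⟨g, hg⟩
  · left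
    exact ⟨_, G6_copy_rev (by omega) hf⟩
  · right
    exact ⟨_, G6_copy_rev (R := fun i j => ¬ R i j) (by omega) hg⟩

/-- TARGET 3 -/
theorem conn_mir {k : ℕ} {E : ℕ → ℕ → Prop} (h : Conn k E) : Conn k (mir k E) := by
  intro S hS hS'
  obtain ⟨a, ha, ha'⟩ := hS
  obtain ⟨b, hb, hb'⟩ := hS'
  obtain ⟨i, j, hij, hj, hE, hne⟩ := h (fun i => S (k - 1 - i))
    ⟨k - 1 - a, by omega, by
      show S (k - 1 - (k - 1 - a))
      rwa [show k - 1 - (k - 1 - a) = a by omega]⟩
    ⟨k - 1 - b, by omega, by
      show ¬ S (k - 1 - (k - 1 - b))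
      rwa [show k - 1 - (k - 1 - b) = b by omega]⟩
  refine ⟨k - 1 - j, k - 1 - i, by omega, by omega, ?_, ?_⟩
  · show E (k - 1 - (k - 1 - i)) (k - 1 - (k - 1 - j))
    rw [show k - 1 - (k - 1 - i) = i by omega, show k - 1 - (k - 1 - j) = j by omega]
    exact hE
  · intro hcon
    exact hne hcon.symm

/-- TARGET 4 -/
theorem good_one (k : ℕ) (E : ℕ → ℕ → Prop) : Good 1 k E := by
  intro R
  right
  refine ⟨fun _ => 0, ?_, ?_, ?_⟩
  · intro i j hij hj; omega
  · intro i _
    show 0 < (1 - 1) * (k - 1) + 1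
    omega
  · intro i j hij hj; omega

/-- TARGET 5 -/
theorem good_two {k : ℕ} (hk : 1 ≤ k) (E : ℕ → ℕ → Prop) : Good 2 k E := by
  intro R
  have hN : (2 - 1) * (k - 1) + 1 = k := by omega
  show HasCopy k E ((2 - 1) * (k - 1) + 1) R ∨ BlueK 2 ((2 - 1) * (k - 1) + 1) R
  rw [hN]
  by_cases h : ∀ i j, i < j → j < k → R i j
  · left
    exact ⟨fun i => i, fun i j hij _ => hij, fun i hi => hi, fun i j hij hj _ => h i j hij hj⟩
  · right
    push Not at h
    obtain ⟨i, j, hij, hj, hR⟩ := h
    refine ⟨fun x => if x = 0 then i else j, ?_, ?_, ?_⟩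
    · intro a b hab hb
      have ha0 : a = 0 := by omega
      have hb0 : b ≠ 0 := by omega
      simp only [ha0, hb0, if_true, if_false]
      exact hij
    · intro a _
      show (if a = 0 then i else j) < k
      split_ifs <;> omega
    · intro a b hab hb _
      have ha0 : a = 0 := by omega
      have hb0 : b ≠ 0 := by omega
      simp only [ha0, hb0, if_true, if_false]
      exact hR

/-- TARGET 6 -/
theorem good_mono {n k : ℕ} {E E' : ℕ → ℕ → Prop} (hs : ∀ i j, i < j → j < k → E' i j → E i j)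
    (h : Good n k E) : Good n k E' := by
  intro R
  rcases h R with ⟨f, h1, h2, h3⟩ | hb
  · left
    exact ⟨f, h1, h2, fun i j hij hj he => h3 i j hij hj (hs i j hij hj he)⟩
  · exact Or.inr hb

/-- TARGET 7 -/
theorem good_congr {n k : ℕ} {E E' : ℕ → ℕ → Prop} (hs : ∀ i j, i < j → j < k → (E' i j ↔ E i j)) :
    Good n k E ↔ Good n k E' := by
  constructor
  · exact good_mono fun i j hij hj he => (hs i j hij hj).1 he
  · exact good_mono fun i j hij hj he => (hs i j hij hj).2 he


end Pool.Agent.H831G
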