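import Pool.Agent.H831G.Defs
import Pool.Agent.H831G.G1
import Pool.Agent.H831G.G2
import Pool.Agent.H831G.G3b
import Pool.Agent.H831G.G4
import Pool.Agent.H831G.G5
import Pool.Agent.H831G.G6

/-!
Part G8 of the proof for MP_23a060_co (owner helper831).
-/

set_option autoImplicit false

namespace Pool.Agent.H831G


/-! ## own lemmas -/

theorem G8_down {k : ℕ} {E : ℕ → ℕ → Prop} {m : ℕ} (hm : 1 ≤ m) (hk : 1 ≤ k) (hE : Conn k E)
    (d : ℕ) (h : Good (m + d) k E) : Good m k E := by
  induction d with
  | zero => exact h
  | succ d ih => exact ih (good_pred (by omega) hk hE h)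

theorem G8_k1 (n : ℕ) (E : ℕ → ℕ → Prop) : Good n 1 E := by
  intro R
  left
  refine ⟨fun _ => 0, ?_, ?_, ?_⟩
  · intro i j h1 h2
    omega
  · intro i _
    simp
  · intro i j h1 h2
    omega

/-- the right part -/
def G8_sh (c : ℕ) (E : ℕ → ℕ → Prop) : ℕ → ℕ → Prop := fun i j => E (i + c) (j + c)

theorem G8_connL {k c : ℕ} {E : ℕ → ℕ → Prop} (hck : c + 1 < k)
    (hno : ∀ i j, i < c → c < j → j < k → ¬ E i j) (hE : Conn k E) : Conn (c + 1) E := by
  rintro S ⟨i, hi, hSi⟩ ⟨j, hj, hSj⟩
  obtain ⟨a, b, hab, hbk, he, hS⟩ := hE (fun x => S (min x c))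
    ⟨i, by omega, by rwa [min_eq_left (by omega)]⟩ ⟨j, by omega, by rwa [min_eq_left (by omega)]⟩
  have hbc : b ≤ c := by
    by_contra hb
    push Not at hb
    rcases lt_or_ge a c with ha | ha
    · exact hno a b ha hb hbk he
    · apply hS
      rw [min_eq_right ha, min_eq_right (by omega)]
  rw [min_eq_left (by omega), min_eq_left (by omega)] at hS
  exact ⟨a, b, hab, by omega, he, hS⟩

theorem G8_connR {k c : ℕ} {E : ℕ → ℕ → Prop} (hck : c + 1 < k)
    (hno : ∀ i j, i < c → c < j → j < k → ¬ E i j) (hE : Conn k E) :
    Conn (k - c) (G8_sh c E) := by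
  rintro S ⟨i, hi, hSi⟩ ⟨j, hj, hSj⟩
  obtain ⟨a, b, hab, hbk, he, hS⟩ := hE (fun x => S (x - c))
    ⟨i + c, by omega, by rwa [Nat.add_sub_cancel]⟩ ⟨j + c, by omega, by rwa [Nat.add_sub_cancel]⟩
  have hac : c ≤ a := by
    by_contra ha
    push Not at ha
    rcases le_or_gt b c with hb | hb
    · apply hS
      rw [Nat.sub_eq_zero_of_le ha.le, Nat.sub_eq_zero_of_le hb]
    · exact hno a b ha hb hbk he
  refine ⟨a - c, b - c, by omega, by omega, ?_, hS⟩
  unfold G8_sh
  rw [Nat.sub_add_cancel hac, Nat.sub_add_cancel (by omega)]
  exact he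

theorem G8_join {k c : ℕ} {E : ℕ → ℕ → Prop}
    (hno : ∀ i j, i < c → c < j → j < k → ¬ E i j) (i j : ℕ) (hij : i < j) (hj : j < k) :
    E i j ↔ join (c + 1) E (G8_sh c E) i j := by
  unfold join G8_sh
  simp only [Nat.add_sub_cancel]
  constructor
  · intro he
    rcases le_or_gt j c with h | h
    · exact Or.inl ⟨by omega, he⟩
    · right
      have hi : c ≤ i := by
        by_contra hi
        exact hno i j (by omega) h hj he
      refine ⟨hi, ?_⟩
      rw [Nat.sub_add_cancel hi, Nat.sub_add_cancel (by omega)]
      exact he
  · rintro (⟨_, he⟩ | ⟨hi, he⟩)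
    · exact he
    · rwa [Nat.sub_add_cancel hi, Nat.sub_add_cancel (by omega)] at he

theorem G8_le {k' : ℕ} {f : ℕ → ℕ} (hf : ∀ i j, i < j → j < k' → f i < f j) {i j : ℕ}
    (hij : i ≤ j) (hj : j < k') : f i ≤ f j := by
  rcases hij.lt_or_eq with h | h
  · exact (hf i j h hj).le
  · rw [h]

theorem G8_inj {k' : ℕ} {f : ℕ → ℕ} (hf : ∀ i j, i < j → j < k' → f i < f j) {i j : ℕ}
    (hi : i < k') (hj : j < k') (h : f i = f j) : i = j := by
  rcases lt_trichotomy i j with h1 | h1 | h1
  · have := hf i j h1 hj
    omega
  · exact h1
  · have := hf j i h1 hi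
    omega

theorem G8_refl {k' : ℕ} {f : ℕ → ℕ} (hf : ∀ i j, i < j → j < k' → f i < f j) {i j : ℕ}
    (hi : i < k') (h : f i ≤ f j) : i ≤ j := by
  by_contra h1
  push Not at h1
  have := hf j i h1 hi
  omega

theorem G8_main
    (hN2 : ∀ (k : ℕ) (E : ℕ → ℕ → Prop), 3 ≤ k → Conn k E → Indec k E → Good 3 k E →
      (∀ i j, i < j → j < k → (E i j ↔ starL i j)) ∨ (∀ i j, i < j → j < k → (E i j ↔ starR k i j)) ∨
        ∃ p q, 1 ≤ p ∧ 1 ≤ q ∧ k = p + q + 2 ∧ ∀ i j, i < j → j < k → (E i j ↔ dstar p i j))
    {n : ℕ} (hn : 3 ≤ n) (k : ℕ) : ∀ (k' : ℕ) (E E' : ℕ → ℕ → Prop) (f : ℕ → ℕ), 1 ≤ k → 1 ≤ k' →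
      Conn k E → Good n k E → Conn k' E' → IsCopy k' E' k E f → Good n k' E' := by
  induction k using Nat.strong_induction_on with
  | _ k ih =>
  intro k' E E' f hk hk' c g c' hf
  obtain ⟨f1, f2, f3⟩ := hf
  rcases Nat.lt_or_ge k' 3 with hk3 | hk3
  · -- at most two vertices
    refine good_mono (E := starL) ?_ (good_starL (by omega) hk')
    intro i j hij hj _
    unfold starL
    omega
  have hkk : 3 ≤ k := by
    have h1 := f1 0 1 (by omega) (by omega)
    have h2 := f1 1 2 (by omega) (by omega)
    have h3 := f2 2 (by omega)
    omega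
  by_cases hind : Indec k E
  · have g3 : Good 3 k E := by
      have h1 : n = 3 + (n - 3) := by omega
      rw [h1] at g
      exact G8_down (by omega) hk c _ g
    rcases hN2 k E hkk c hind g3 with h | h | ⟨p, q, hp, hq, hpq, h⟩
    · refine good_mono (E := starL) ?_ (good_starL (by omega) hk')
      intro i j hij hj he
      have h1 := f3 i j hij hj he
      rw [h _ _ (f1 i j hij hj) (f2 j hj)] at h1
      unfold starL at h1 ⊢
      rcases Nat.eq_zero_or_pos i with h2 | h2
      · exact h2
      · have := f1 0 i h2 (by omega)
        omega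
    · refine good_mono (E := starR k') ?_ (good_starR (by omega) hk')
      intro i j hij hj he
      have h1 := f3 i j hij hj he
      rw [h _ _ (f1 i j hij hj) (f2 j hj)] at h1
      unfold starR at h1 ⊢
      by_contra h2
      have h3 := f1 j (k' - 1) (by omega) (by omega)
      have h4 := f2 (k' - 1) (by omega)
      omega
    · have hn3 : n = 3 := by
        by_contra hne
        have h1 : n = 4 + (n - 4) := by omega
        rw [h1] at g
        have g4 : Good 4 k E := G8_down (by omega) hk c _ g
        rw [hpq] at g4 h
        exact not_good_dstar4 hp hq ((good_congr (fun i j hij hj => (h i j hij hj).symm)).1 g4)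
      have hedge : ∀ i j, i < j → j < k' → E' i j →
          (f i ≤ p ∧ f j = p + 1) ∨ (f i = p ∧ p + 1 ≤ f j) := by
        intro i j hij hj he
        have h1 := f3 i j hij hj he
        rw [h _ _ (f1 i j hij hj) (f2 j hj)] at h1
        exact h1
      by_cases hp0 : ∃ i, i < k' ∧ f i = p
      · by_cases hp1 : ∃ i, i < k' ∧ f i = p + 1
        · obtain ⟨i0, hi0, e0⟩ := hp0
          obtain ⟨i1, hi1, e1⟩ := hp1
          have h01 : i0 < i1 := by
            have h2 : i0 ≤ i1 := G8_refl f1 hi0 (by omega)
            rcases h2.lt_or_eq with h3 | h3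
            · exact h3
            · rw [h3] at e0
              omega
          have h11 : i1 = i0 + 1 := by
            by_contra hne
            have h2 := f1 i0 (i0 + 1) (by omega) (by omega)
            have h3 := f1 (i0 + 1) i1 (by omega) hi1
            omega
          have hk'' : k' = i0 + (k' - i0 - 2) + 2 := by omega
          have hmono : ∀ i j, i < j → j < k' → E' i j → dstar i0 i j := by
            intro i j hij hj he
            unfold dstar
            rcases hedge i j hij hj he with ⟨h2, h3⟩ | ⟨h2, h3⟩
            · left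
              refine ⟨G8_refl f1 (by omega) (by omega), ?_⟩
              rw [← h11]
              exact G8_inj f1 hj hi1 (by omega)
            · right
              refine ⟨G8_inj f1 (by omega) hi0 (by omega), ?_⟩
              rw [← h11]
              exact G8_refl f1 hi1 (by omega)
          have h4 := good_dstar i0 (k' - i0 - 2)
          rw [← hk''] at h4
          rw [hn3]
          exact good_mono hmono h4
        · -- `p + 1` is not a value
          have hall : ∀ i j, i < j → j < k' → E' i j → f i = p := by
            intro i j hij hj he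
            rcases hedge i j hij hj he with ⟨h2, h3⟩ | ⟨h2, h3⟩
            · exact absurd ⟨j, hj, h3⟩ hp1
            · exact h2
          obtain ⟨i, j, hij, hj, he, hS⟩ := c' (fun x => x = 0) ⟨0, by omega, rfl⟩
            ⟨1, by omega, by omega⟩
          have hi : i = 0 := by
            by_contra h2
            apply hS
            constructor
            · intro h3
              exact absurd h3 h2
            · intro h3
              omega
          have h0 : f 0 = p := by
            rw [← hi]
            exact hall i j hij hj he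
          refine good_mono (E := starL) ?_ (good_starL (by omega) hk')
          intro a b hab hb he
          exact G8_inj f1 (by omega) (by omega) ((hall a b hab hb he).trans h0.symm)
      · -- `p` is not a value
        have hall : ∀ i j, i < j → j < k' → E' i j → f j = p + 1 := by
          intro i j hij hj he
          rcases hedge i j hij hj he with ⟨h2, h3⟩ | ⟨h2, h3⟩
          · exact h3
          · exact absurd ⟨i, by omega, h2⟩ hp0
        obtain ⟨i, j, hij, hj, he, hS⟩ := c' (fun x => x = k' - 1) ⟨k' - 1, by omega, rfl⟩
          ⟨0, by omega, by omega⟩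
        have hi : j = k' - 1 := by
          by_contra h2
          apply hS
          constructor
          · intro h3
            omega
          · intro h3
            exact absurd h3 h2
        have h0 : f (k' - 1) = p + 1 := by
          rw [← hi]
          exact hall i j hij hj he
        refine good_mono (E := starR k') ?_ (good_starR (by omega) hk')
        intro a b hab hb he
        exact G8_inj f1 hb (by omega) ((hall a b hab hb he).trans h0.symm)
  · -- a cut vertex
    obtain ⟨cc, hc0, hc1, hno⟩ : ∃ cc, 0 < cc ∧ cc + 1 < k ∧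
        ∀ i j, i < cc → cc < j → j < k → ¬ E i j := by
      unfold Indec at hind
      push Not at hind
      obtain ⟨cc, h1, h2, h3⟩ := hind
      exact ⟨cc, h1, h2, h3⟩
    have c1 := G8_connL hc1 hno c
    have c2 := G8_connR hc1 hno c
    have hkc : cc + 1 + (k - cc) - 1 = k := by omega
    have gj : Good n (cc + 1 + (k - cc) - 1) (join (cc + 1) E (G8_sh cc E)) := by
      rw [hkc]
      exact (good_congr (fun i j hij hj => (G8_join hno i j hij hj).symm)).1 g
    have g1 : Good n (cc + 1) E := by
      by_contra hg
      exact not_good_join_left (by omega) (by omega) (by omega) hg c2 gj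
    have g2 : Good n (k - cc) (G8_sh cc E) := by
      by_contra hg
      exact not_good_join_right (by omega) (by omega) (by omega) hg c1 gj
    rcases le_or_gt (f (k' - 1)) cc with ha | ha
    · refine ih (cc + 1) hc1 k' E E' f (by omega) hk' c1 g1 c' ⟨f1, ?_, f3⟩
      intro i hi
      have := G8_le f1 (i := i) (j := k' - 1) (by omega) (by omega)
      omega
    rcases le_or_gt cc (f 0) with hb | hb
    · have hge : ∀ i, i < k' → cc ≤ f i := by
        intro i hi
        have := G8_le f1 (i := 0) (j := i) (by omega) hi
        omega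
      refine ih (k - cc) (by omega) k' (G8_sh cc E) E' (fun i => f i - cc) (by omega) hk' c2 g2 c'
        ⟨?_, ?_, ?_⟩
      · intro i j hij hj
        have h1 := f1 i j hij hj
        have h2 := hge i (by omega)
        show f i - cc < f j - cc
        omega
      · intro i hi
        have h1 := f2 i hi
        have h2 := hge i hi
        show f i - cc < k - cc
        omega
      · intro i j hij hj he
        show E (f i - cc + cc) (f j - cc + cc)
        rw [Nat.sub_add_cancel (hge i (by omega)), Nat.sub_add_cancel (hge j hj)]
        exact f3 i j hij hj he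
    · -- the cut vertex is the value of an inner vertex
      obtain ⟨a, i0, hai, hi0, he, hS⟩ := c' (fun x => f x < cc) ⟨0, by omega, hb⟩
        ⟨k' - 1, by omega, by omega⟩
      have h1 := f1 a i0 hai hi0
      have h2 : f a < cc ∧ cc ≤ f i0 := by
        by_contra h3
        apply hS
        constructor
        · intro h4
          by_contra h5
          exact h3 ⟨h4, not_lt.1 h5⟩
        · intro h4
          exact h1.trans h4
      have h3 : f i0 = cc := by
        by_contra h4
        exact hno (f a) (f i0) h2.1 (by omega) (f2 i0 hi0) (f3 a i0 hai hi0 he)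
      have hi00 : 0 < i0 := by omega
      have hi01 : i0 + 1 < k' := by
        by_contra h4
        have h5 : i0 = k' - 1 := by omega
        rw [h5] at h3
        omega
      have hno' : ∀ i j, i < i0 → i0 < j → j < k' → ¬ E' i j := by
        intro i j hi hj hjk he'
        have h5 := f1 i i0 hi hi0
        have h6 := f1 i0 j hj hjk
        exact hno (f i) (f j) (by omega) (by omega) (f2 j hjk) (f3 i j (by omega) hjk he')
      have c1' := G8_connL hi01 hno' c'
      have c2' := G8_connR hi01 hno' c'
      have gg1 : Good n (i0 + 1) E' := by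
        refine ih (cc + 1) hc1 (i0 + 1) E E' f (by omega) (by omega) c1 g1 c1' ⟨?_, ?_, ?_⟩
        · intro i j hij hj
          exact f1 i j hij (by omega)
        · intro i hi
          have := G8_le f1 (i := i) (j := i0) (by omega) (by omega)
          omega
        · intro i j hij hj he'
          exact f3 i j hij (by omega) he'
      have hge : ∀ i, i + i0 < k' → cc ≤ f (i + i0) := by
        intro i hi
        have := G8_le f1 (i := i0) (j := i + i0) (by omega) hi
        omega
      have gg2 : Good n (k' - i0) (G8_sh i0 E') := by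
        refine ih (k - cc) (by omega) (k' - i0) (G8_sh cc E) (G8_sh i0 E')
          (fun i => f (i + i0) - cc) (by omega) (by omega) c2 g2 c2' ⟨?_, ?_, ?_⟩
        · intro i j hij hj
          have h5 := f1 (i + i0) (j + i0) (by omega) (by omega)
          have h6 := hge i (by omega)
          show f (i + i0) - cc < f (j + i0) - cc
          omega
        · intro i hi
          have h5 := f2 (i + i0) (by omega)
          have h6 := hge i (by omega)
          show f (i + i0) - cc < k - cc
          omega
        · intro i j hij hj he'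
          show E (f (i + i0) - cc + cc) (f (j + i0) - cc + cc)
          rw [Nat.sub_add_cancel (hge i (by omega)), Nat.sub_add_cancel (hge j (by omega))]
          exact f3 (i + i0) (j + i0) (by omega) (by omega) he'
      have gg := good_join (n := n) (by omega) (by omega) (by omega) gg1 gg2
      have hkc' : i0 + 1 + (k' - i0) - 1 = k' := by omega
      rw [hkc'] at gg
      exact (good_congr (fun i j hij hj => G8_join hno' i j hij hj)).1 gg


/-- TARGET: heredity, from the structure theorem for indecomposable 3-good graphs. -/
theorem heredity_of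
    (hN2 : ∀ (k : ℕ) (E : ℕ → ℕ → Prop), 3 ≤ k → Conn k E → Indec k E → Good 3 k E →
      (∀ i j, i < j → j < k → (E i j ↔ starL i j)) ∨ (∀ i j, i < j → j < k → (E i j ↔ starR k i j)) ∨
        ∃ p q, 1 ≤ p ∧ 1 ≤ q ∧ k = p + q + 2 ∧ ∀ i j, i < j → j < k → (E i j ↔ dstar p i j))
    {n k k' : ℕ} {E E' : ℕ → ℕ → Prop} (hn : 1 ≤ n) (hk : 1 ≤ k) (hk' : 1 ≤ k') (c : Conn k E)
    (g : Good n k E) (c' : Conn k' E') (f : ℕ → ℕ) (hf : IsCopy k' E' k E f) : Good n k' E' := by
  rcases Nat.lt_or_ge n 3 with hn3 | hn3
  · rcases (show n = 1 ∨ n = 2 by omega) with h | h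
    · rw [h]
      exact good_one k' E'
    · rw [h]
      exact good_two hk' E'
  · exact G8_main hN2 hn3 k k' E E' f hk hk' c g c' hf


end Pool.Agent.H831G
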