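import Pool.Agent.H831G.Defs3

/-!
Part G9 of the proof for MP_23a060_co (owner helper831).
-/

set_option autoImplicit false

namespace Pool.Agent.H831G

theorem G9_toFun {k N : ℕ} (f : Fin k ↪o Fin N) : ∃ F : ℕ → ℕ, (∀ i (h : i < k), F i = (f ⟨i, h⟩ : ℕ)) := by
  refine ⟨fun i => if h : i < k then (f ⟨i, h⟩ : ℕ) else 0, ?_⟩
  intro i h
  simp [h]

theorem G9_copy_of_emb {k N : ℕ} {E R : ℕ → ℕ → Prop} (f : Fin k ↪o Fin N)
    (hf : ∀ (i j : Fin k), (i : ℕ) < j → E i j → R (f i) (f j)) : HasCopy k E N R := by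
  obtain ⟨F, hF⟩ := G9_toFun f
  refine ⟨F, ?_, ?_, ?_⟩
  · intro i j hij hj
    rw [hF i (hij.trans hj), hF j hj]
    have : f ⟨i, hij.trans hj⟩ < f ⟨j, hj⟩ := f.lt_iff_lt.2 (by simpa [Fin.lt_def] using hij)
    simpa [Fin.lt_def] using this
  · intro i hi
    rw [hF i hi]
    exact (f ⟨i, hi⟩).2
  · intro i j hij hj hE
    rw [hF i (hij.trans hj), hF j hj]
    exact hf ⟨i, hij.trans hj⟩ ⟨j, hj⟩ hij hE

theorem G9_emb_of_copy {k N : ℕ} {E R : ℕ → ℕ → Prop} (h : HasCopy k E N R) :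
    ∃ f : Fin k ↪o Fin N, ∀ (i j : Fin k), (i : ℕ) < j → E i j → R (f i) (f j) := by
  obtain ⟨F, h1, h2, h3⟩ := h
  refine ⟨OrderEmbedding.ofStrictMono (fun i : Fin k => (⟨F i, h2 i i.2⟩ : Fin N)) ?_, ?_⟩
  · intro i j hij
    rw [Fin.lt_def] at hij ⊢
    exact h1 i j hij j.2
  · intro i j hij hE
    exact h3 i j hij j.2 hE

theorem G9_arrow_iff {k : ℕ} (G : SimpleGraph (Fin k)) (n N : ℕ) :
    RamseyArrow G n N ↔ Arrow n k (rel G) N := by
  constructor
  · intro h R
    let c : SimpleGraph (Fin N) :=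
      { Adj := fun u v => ((u : ℕ) < v ∧ R u v) ∨ ((v : ℕ) < u ∧ R v u)
        symm := ⟨by
          intro u v huv
          rcases huv with h | h
          · exact Or.inr h
          · exact Or.inl h⟩
        loopless := ⟨by
          intro u hu
          rcases hu with h | h
          · exact lt_irrefl _ h.1
          · exact lt_irrefl _ h.1⟩ }
    have hc : ∀ u v : Fin N, (u : ℕ) < v → (c.Adj u v ↔ R u v) := by
      intro u v huv
      constructor
      · intro h
        rcases h with h | h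
        · exact h.2
        · exact absurd (huv.trans h.1) (lt_irrefl _)
      · intro h
        exact Or.inl ⟨huv, h⟩
    rcases h c with ⟨f, hf⟩ | ⟨g, hg⟩
    · left
      refine G9_copy_of_emb f ?_
      intro i j hij hE
      obtain ⟨hi, hj, hadj⟩ := hE
      have hlt : f i < f j := f.lt_iff_lt.2 (by rw [Fin.lt_def]; exact hij)
      exact (hc _ _ (by rw [Fin.lt_def] at hlt; exact hlt)).1 (hf i j hadj)
    · right
      refine G9_copy_of_emb g ?_
      intro i j hij _
      have hlt : g i < g j := g.lt_iff_lt.2 (by rw [Fin.lt_def]; exact hij)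
      intro hR
      refine hg i j ?_ ((hc _ _ (by rw [Fin.lt_def] at hlt; exact hlt)).2 hR)
      rintro rfl
      exact lt_irrefl _ hij
  · intro h c
    rcases h (rel c) with h | h
    · left
      obtain ⟨f, hf⟩ := G9_emb_of_copy h
      refine ⟨f, ?_⟩
      have key : ∀ i j : Fin k, (i : ℕ) < j → G.Adj i j → c.Adj (f i) (f j) := by
        intro i j hij hG
        obtain ⟨_, _, hadj⟩ := hf i j hij ⟨i.2, j.2, hG⟩
        exact hadj
      intro i j hG
      rcases lt_trichotomy (i : ℕ) j with hij | hij | hij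
      · exact key i j hij hG
      · exact absurd (Fin.ext hij) hG.ne
      · exact (key j i hij hG.symm).symm
    · right
      obtain ⟨g, hg⟩ := G9_emb_of_copy h
      refine ⟨g, ?_⟩
      have key : ∀ i j : Fin n, (i : ℕ) < j → ¬ c.Adj (g i) (g j) := by
        intro i j hij hG
        exact hg i j hij trivial ⟨(g i).2, (g j).2, hG⟩
      intro i j hne hG
      rcases lt_trichotomy (i : ℕ) j with hij | hij | hij
      · exact key i j hij hG
      · exact hne (Fin.ext hij)
      · exact key j i hij hG.symm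

theorem G9_pos {k : ℕ} {G : SimpleGraph (Fin k)} (h : G.Connected) : 1 ≤ k := by
  obtain ⟨x⟩ := h.nonempty
  exact Nat.one_le_iff_ne_zero.2 (by rintro rfl; exact x.elim0)

theorem G9_conn {k : ℕ} {G : SimpleGraph (Fin k)} (h : G.Connected) : Conn k (rel G) := by
  intro S ⟨a, ha, hSa⟩ ⟨b, hb, hSb⟩
  by_contra hcon
  have hstep : ∀ u v : Fin k, G.Adj u v → (S u ↔ S v) := by
    intro u v huv
    by_contra hne
    apply hcon
    rcases lt_trichotomy (u : ℕ) v with hij | hij | hij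
    · exact ⟨u, v, hij, v.2, ⟨u.2, v.2, huv⟩, hne⟩
    · exact absurd (Fin.ext hij) huv.ne
    · exact ⟨v, u, hij, u.2, ⟨v.2, u.2, huv.symm⟩, fun h => hne h.symm⟩
  have hw : ∀ (u v : Fin k), G.Walk u v → (S u ↔ S v) := by
    intro u v w
    induction w with
    | nil => exact Iff.rfl
    | cons hadj _ ih => exact (hstep _ _ hadj).trans ih
  obtain ⟨w⟩ := h.preconnected ⟨a, ha⟩ ⟨b, hb⟩
  exact hSb ((hw _ _ w).1 hSa)

theorem G9_grow {m : ℕ} (f : ℕ → ℕ) (hf : ∀ i j, i < j → j < m → f i < f j) :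
    ∀ i, i < m → f 0 + i ≤ f i := by
  intro i
  induction i with
  | zero => intro _; simp
  | succ i ih =>
    intro hi
    have h1 := ih (by omega)
    have h2 := hf i (i + 1) (by omega) hi
    omega

theorem G9_lower {n k : ℕ} (hn : 1 ≤ n) (hk : 1 ≤ k) {E : ℕ → ℕ → Prop} (hE : Conn k E) {N : ℕ}
    (h : Arrow n k E N) : (n - 1) * (k - 1) + 1 ≤ N := by
  by_contra hlt
  have hN : N ≤ (n - 1) * (k - 1) := by omega
  rcases Nat.eq_zero_or_pos (k - 1) with hk1 | hk1
  · have hN0 : N = 0 := by rw [hk1] at hN; omega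
    subst hN0
    rcases h (fun _ _ => True) with ⟨f, _, h2, _⟩ | ⟨f, _, h2, _⟩
    · exact absurd (h2 0 (by omega)) (by omega)
    · exact absurd (h2 0 (by omega)) (by omega)
  · rcases h (fun i j => i / (k - 1) = j / (k - 1)) with ⟨f, h1, h2, h3⟩ | ⟨f, h1, h2, h3⟩
    · have hall : ∀ i, i < k → f i / (k - 1) = f 0 / (k - 1) := by
        by_contra hne
        push Not at hne
        obtain ⟨b, hb, hbne⟩ := hne
        obtain ⟨i, j, hij, hj, hEij, hS⟩ :=
          hE (fun i => f i / (k - 1) = f 0 / (k - 1)) ⟨0, by omega, rfl⟩ ⟨b, hb, hbne⟩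
        apply hS
        have hR := h3 i j hij hj hEij
        simp only at hR ⊢
        rw [hR]
      have hg := G9_grow f h1 (k - 1) (by omega)
      have h4 := hall (k - 1) (by omega)
      have h5 : (f 0 + (k - 1)) / (k - 1) ≤ f (k - 1) / (k - 1) := Nat.div_le_div_right hg
      rw [Nat.add_div_right _ hk1] at h5
      omega
    · have hmono : ∀ i j, i < j → j < n → f i / (k - 1) < f j / (k - 1) := by
        intro i j hij hj
        have hle : f i / (k - 1) ≤ f j / (k - 1) := Nat.div_le_div_right (h1 i j hij hj).le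
        exact lt_of_le_of_ne hle (h3 i j hij hj trivial)
      have hg : f 0 / (k - 1) + (n - 1) ≤ f (n - 1) / (k - 1) :=
        G9_grow (fun i => f i / (k - 1)) hmono (n - 1) (by omega)
      have h4 : f (n - 1) < (n - 1) * (k - 1) := lt_of_lt_of_le (h2 (n - 1) (by omega)) hN
      have h5 : f (n - 1) / (k - 1) < n - 1 := Nat.div_lt_of_lt_mul (by rw [mul_comm]; exact h4)
      exact absurd (lt_of_le_of_lt (le_trans (Nat.le_add_left _ _) hg) h5) (lt_irrefl _)

/-- TARGET A -/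
theorem isGood_iff {k n : ℕ} (hn : 1 ≤ n) (G : SimpleGraph (Fin k)) :
    IsGood n G ↔ G.Connected ∧ Good n k (rel G) := by
  constructor
  · rintro ⟨hc, hr⟩
    refine ⟨hc, ?_⟩
    have hne : {N | RamseyArrow G n N}.Nonempty := by
      rw [Set.nonempty_iff_ne_empty]
      intro he
      rw [orderedRamsey, he, Nat.sInf_empty] at hr
      omega
    have hmem := Nat.sInf_mem hne
    rw [← orderedRamsey, hr] at hmem
    exact (G9_arrow_iff G n _).1 hmem
  · rintro ⟨hc, hg⟩
    refine ⟨hc, le_antisymm (Nat.sInf_le ((G9_arrow_iff G n _).2 hg)) ?_⟩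
    have hne : {N | RamseyArrow G n N}.Nonempty := ⟨_, (G9_arrow_iff G n _).2 hg⟩
    have hmem := Nat.sInf_mem hne
    exact G9_lower hn (G9_pos hc) (G9_conn hc) ((G9_arrow_iff G n _).1 hmem)

/-- TARGET B -/
theorem conn_rel {k : ℕ} {G : SimpleGraph (Fin k)} (h : G.Connected) : 1 ≤ k ∧ Conn k (rel G) := by
  exact ⟨G9_pos h, G9_conn h⟩

/-- TARGET C -/
theorem final_of
    (hered : ∀ {n k k' : ℕ} {E E' : ℕ → ℕ → Prop}, 1 ≤ n → 1 ≤ k → 1 ≤ k' → Conn k E →
      Good n k E → Conn k' E' → ∀ f : ℕ → ℕ, IsCopy k' E' k E f → Good n k' E')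
    (n : ℕ) (hn : 1 ≤ n) {k k' : ℕ} (G : SimpleGraph (Fin k)) (H : SimpleGraph (Fin k'))
    (hG : IsGood n G) (hH : H.Connected) (hs : OrderedSubgraph H G) : IsGood n H := by
  rw [isGood_iff hn] at hG ⊢
  refine ⟨hH, ?_⟩
  obtain ⟨φ, hφ⟩ := hs
  have hcopy : HasCopy k' (rel H) k (rel G) := by
    refine G9_copy_of_emb φ ?_
    rintro i j _ ⟨_, _, hadj⟩
    exact ⟨(φ i).2, (φ j).2, hφ _ _ hadj⟩
  obtain ⟨f, hf⟩ := hcopy
  exact hered hn (G9_pos hG.1) (G9_pos hH) (G9_conn hG.1) hG.2 (G9_conn hH) f hf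


end Pool.Agent.H831G
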