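import Pool.Agent.H831G.Defs2

/-!
Part K0 of the proof for MP_23a060_co (owner helper831).
-/

set_option autoImplicit false

namespace Pool.Agent.H831G

theorem K0_thr {l : ℕ} {f : ℕ → ℕ} (hf : ∀ i j, i < j → j < l + 1 → f i < f j) (T : ℕ) :
    ∃ c, c ≤ l + 1 ∧ ∀ i, i ≤ l → (f i < T ↔ i < c) := by
  classical
  by_cases h : ∃ i, i ≤ l ∧ T ≤ f i
  · refine ⟨Nat.find h, ?_, ?_⟩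
    · have := (Nat.find_spec h).1
      omega
    · intro i hi
      have h1 := Nat.find_spec h
      constructor
      · intro h2
        by_contra h3
        push Not at h3
        rcases Nat.lt_or_eq_of_le h3 with h4 | h4
        · have := hf _ _ h4 (by omega)
          omega
        · rw [h4] at h1
          omega
      · intro h2
        by_contra h3
        push Not at h3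
        exact Nat.find_min h h2 ⟨hi, h3⟩
  · push Not at h
    exact ⟨l + 1, le_rfl, fun i hi => ⟨fun _ => by omega, fun _ => h i hi⟩⟩

theorem K0_step {l : ℕ} {f : ℕ → ℕ} (hf : ∀ i j, i < j → j < l + 1 → f i < f j) {T T' c c' : ℕ}
    (hT : T ≤ T') (hc : ∀ i, i ≤ l → (f i < T ↔ i < c)) (hc1 : c ≤ l + 1)
    (hc' : ∀ i, i ≤ l → (f i < T' ↔ i < c')) (hc'1 : c' ≤ l + 1) :
    c ≤ c' ∧ c' ≤ c + (T' - T) := by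
  constructor
  · by_contra h
    push Not at h
    have h1 := (hc c' (by omega)).2 h
    have h2 := (hc' c' (by omega)).1 (by omega)
    omega
  · by_contra h
    push Not at h
    have key : ∀ k, c + k ≤ l → T + k ≤ f (c + k) := by
      intro k
      induction k with
      | zero =>
        intro hk
        have := hc c (by omega)
        simp only [Nat.add_zero]
        omega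
      | succ k ih =>
        intro hk
        have h1 := ih (by omega)
        have h2 := hf (c + k) (c + (k + 1)) (by omega) (by omega)
        omega
    have h1 := key (T' - T) (by omega)
    have h2 := (hc' (c + (T' - T)) (by omega)).2 h
    omega

/-- TARGET 1 -/
theorem word_copy {l : ℕ} {E : ℕ → ℕ → Prop} (g : Good 3 (l + 1) E) (w : ℕ → ℕ)
    (hw : ∀ i, i < 2 * l + 1 → w i < 5) :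
    HasCopy (l + 1) E (2 * l + 1) (fun i j => radj (w i) (w j)) := by
  have hN : (3 - 1) * (l + 1 - 1) + 1 = 2 * l + 1 := by omega
  have h := g (fun i j => radj (w i) (w j))
  rw [hN] at h
  rcases h with h | ⟨f, h1, h2, h3⟩
  · exact h
  · exfalso
    have a1 := h3 0 1 (by omega) (by omega) trivial
    have a2 := h3 0 2 (by omega) (by omega) trivial
    have a3 := h3 1 2 (by omega) (by omega) trivial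
    have b0 := hw _ (h2 0 (by omega))
    have b1 := hw _ (h2 1 (by omega))
    have b2 := hw _ (h2 2 (by omega))
    unfold radj at a1 a2 a3
    omega

/-- TARGET 2 -/
theorem runs5 {l : ℕ} {E : ℕ → ℕ → Prop} (g : Good 3 (l + 1) E) (s₁ s₂ s₃ s₄ s₅ : ℕ) (L₁ L₂ L₃ L₄ L₅ : ℕ)
    (hs : s₁ + s₂ + s₃ + s₄ + s₅ = 2 * l + 1) (h1 : L₁ < 5) (h2 : L₂ < 5) (h3 : L₃ < 5) (h4 : L₄ < 5) (h5 : L₅ < 5) :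
    ∃ c₁ c₂ c₃ c₄ : ℕ, c₁ ≤ s₁ ∧ c₁ ≤ c₂ ∧ c₂ ≤ c₁ + s₂ ∧ c₂ ≤ c₃ ∧ c₃ ≤ c₂ + s₃ ∧ c₃ ≤ c₄ ∧ c₄ ≤ c₃ + s₄ ∧ c₄ ≤ l + 1 ∧ l + 1 ≤ c₄ + s₅ ∧
      ∀ i j, i < j → j ≤ l → E i j → radj (let5 c₁ c₂ c₃ c₄ L₁ L₂ L₃ L₄ L₅ i) (let5 c₁ c₂ c₃ c₄ L₁ L₂ L₃ L₄ L₅ j) := by
  obtain ⟨f, f1, f2, f3⟩ := word_copy g (let5 (s₁) (s₁ + s₂) (s₁ + s₂ + s₃) (s₁ + s₂ + s₃ + s₄) L₁ L₂ L₃ L₄ L₅) (by
    intro i _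
    unfold let5
    split_ifs <;> assumption)
  obtain ⟨c₁, d₁, e₁⟩ := K0_thr f1 (s₁)
  obtain ⟨c₂, d₂, e₂⟩ := K0_thr f1 (s₁ + s₂)
  obtain ⟨c₃, d₃, e₃⟩ := K0_thr f1 (s₁ + s₂ + s₃)
  obtain ⟨c₄, d₄, e₄⟩ := K0_thr f1 (s₁ + s₂ + s₃ + s₄)
  have t₁ := K0_step f1 (T := 0) (c := 0) (Nat.zero_le _) (fun i _ => by omega) (Nat.zero_le _) e₁ d₁
  have t₂ := K0_step f1 (T := s₁) (T' := s₁ + s₂) (by omega) e₁ d₁ e₂ d₂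
  have t₃ := K0_step f1 (T := s₁ + s₂) (T' := s₁ + s₂ + s₃) (by omega) e₂ d₂ e₃ d₃
  have t₄ := K0_step f1 (T := s₁ + s₂ + s₃) (T' := s₁ + s₂ + s₃ + s₄) (by omega) e₃ d₃ e₄ d₄
  have t₅ := K0_step f1 (T := s₁ + s₂ + s₃ + s₄) (T' := 2 * l + 1) (c' := l + 1) (by omega) e₄ d₄
    (fun i hi => ⟨fun _ => by omega, fun _ => f2 i (by omega)⟩) le_rfl
  refine ⟨c₁, c₂, c₃, c₄, by omega, by omega, by omega, by omega, by omega, by omega, by omega, by omega, by omega, ?_⟩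
  intro i j hij hj hE
  have h := f3 i j hij (by omega) hE
  beta_reduce at h
  have key : ∀ i, i ≤ l → let5 (s₁) (s₁ + s₂) (s₁ + s₂ + s₃) (s₁ + s₂ + s₃ + s₄) L₁ L₂ L₃ L₄ L₅ (f i) = let5 c₁ c₂ c₃ c₄ L₁ L₂ L₃ L₄ L₅ i := by
    intro i hi
    unfold let5
    simp only [e₁ i hi, e₂ i hi, e₃ i hi, e₄ i hi]
  rw [key i (by omega), key j hj] at h
  exact h

/-- TARGET 3 -/
theorem runs6 {l : ℕ} {E : ℕ → ℕ → Prop} (g : Good 3 (l + 1) E) (s₁ s₂ s₃ s₄ s₅ s₆ : ℕ) (L₁ L₂ L₃ L₄ L₅ L₆ : ℕ)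
    (hs : s₁ + s₂ + s₃ + s₄ + s₅ + s₆ = 2 * l + 1) (h1 : L₁ < 5) (h2 : L₂ < 5) (h3 : L₃ < 5) (h4 : L₄ < 5) (h5 : L₅ < 5) (h6 : L₆ < 5) :
    ∃ c₁ c₂ c₃ c₄ c₅ : ℕ, c₁ ≤ s₁ ∧ c₁ ≤ c₂ ∧ c₂ ≤ c₁ + s₂ ∧ c₂ ≤ c₃ ∧ c₃ ≤ c₂ + s₃ ∧ c₃ ≤ c₄ ∧ c₄ ≤ c₃ + s₄ ∧ c₄ ≤ c₅ ∧ c₅ ≤ c₄ + s₅ ∧ c₅ ≤ l + 1 ∧ l + 1 ≤ c₅ + s₆ ∧
      ∀ i j, i < j → j ≤ l → E i j → radj (let6 c₁ c₂ c₃ c₄ c₅ L₁ L₂ L₃ L₄ L₅ L₆ i) (let6 c₁ c₂ c₃ c₄ c₅ L₁ L₂ L₃ L₄ L₅ L₆ j) := by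
  obtain ⟨f, f1, f2, f3⟩ := word_copy g (let6 (s₁) (s₁ + s₂) (s₁ + s₂ + s₃) (s₁ + s₂ + s₃ + s₄) (s₁ + s₂ + s₃ + s₄ + s₅) L₁ L₂ L₃ L₄ L₅ L₆) (by
    intro i _
    unfold let6
    split_ifs <;> assumption)
  obtain ⟨c₁, d₁, e₁⟩ := K0_thr f1 (s₁)
  obtain ⟨c₂, d₂, e₂⟩ := K0_thr f1 (s₁ + s₂)
  obtain ⟨c₃, d₃, e₃⟩ := K0_thr f1 (s₁ + s₂ + s₃)
  obtain ⟨c₄, d₄, e₄⟩ := K0_thr f1 (s₁ + s₂ + s₃ + s₄)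
  obtain ⟨c₅, d₅, e₅⟩ := K0_thr f1 (s₁ + s₂ + s₃ + s₄ + s₅)
  have t₁ := K0_step f1 (T := 0) (c := 0) (Nat.zero_le _) (fun i _ => by omega) (Nat.zero_le _) e₁ d₁
  have t₂ := K0_step f1 (T := s₁) (T' := s₁ + s₂) (by omega) e₁ d₁ e₂ d₂
  have t₃ := K0_step f1 (T := s₁ + s₂) (T' := s₁ + s₂ + s₃) (by omega) e₂ d₂ e₃ d₃
  have t₄ := K0_step f1 (T := s₁ + s₂ + s₃) (T' := s₁ + s₂ + s₃ + s₄) (by omega) e₃ d₃ e₄ d₄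
  have t₅ := K0_step f1 (T := s₁ + s₂ + s₃ + s₄) (T' := s₁ + s₂ + s₃ + s₄ + s₅) (by omega) e₄ d₄ e₅ d₅
  have t₆ := K0_step f1 (T := s₁ + s₂ + s₃ + s₄ + s₅) (T' := 2 * l + 1) (c' := l + 1) (by omega) e₅ d₅
    (fun i hi => ⟨fun _ => by omega, fun _ => f2 i (by omega)⟩) le_rfl
  refine ⟨c₁, c₂, c₃, c₄, c₅, by omega, by omega, by omega, by omega, by omega, by omega, by omega, by omega, by omega, by omega, by omega, ?_⟩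
  intro i j hij hj hE
  have h := f3 i j hij (by omega) hE
  beta_reduce at h
  have key : ∀ i, i ≤ l → let6 (s₁) (s₁ + s₂) (s₁ + s₂ + s₃) (s₁ + s₂ + s₃ + s₄) (s₁ + s₂ + s₃ + s₄ + s₅) L₁ L₂ L₃ L₄ L₅ L₆ (f i) = let6 c₁ c₂ c₃ c₄ c₅ L₁ L₂ L₃ L₄ L₅ L₆ i := by
    intro i hi
    unfold let6
    simp only [e₁ i hi, e₂ i hi, e₃ i hi, e₄ i hi, e₅ i hi]
  rw [key i (by omega), key j hj] at h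
  exact h

/-- TARGET 4 -/
theorem runs7 {l : ℕ} {E : ℕ → ℕ → Prop} (g : Good 3 (l + 1) E) (s₁ s₂ s₃ s₄ s₅ s₆ s₇ : ℕ) (L₁ L₂ L₃ L₄ L₅ L₆ L₇ : ℕ)
    (hs : s₁ + s₂ + s₃ + s₄ + s₅ + s₆ + s₇ = 2 * l + 1) (h1 : L₁ < 5) (h2 : L₂ < 5) (h3 : L₃ < 5) (h4 : L₄ < 5) (h5 : L₅ < 5) (h6 : L₆ < 5) (h7 : L₇ < 5) :
    ∃ c₁ c₂ c₃ c₄ c₅ c₆ : ℕ, c₁ ≤ s₁ ∧ c₁ ≤ c₂ ∧ c₂ ≤ c₁ + s₂ ∧ c₂ ≤ c₃ ∧ c₃ ≤ c₂ + s₃ ∧ c₃ ≤ c₄ ∧ c₄ ≤ c₃ + s₄ ∧ c₄ ≤ c₅ ∧ c₅ ≤ c₄ + s₅ ∧ c₅ ≤ c₆ ∧ c₆ ≤ c₅ + s₆ ∧ c₆ ≤ l + 1 ∧ l + 1 ≤ c₆ + s₇ ∧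
      ∀ i j, i < j → j ≤ l → E i j → radj (let7 c₁ c₂ c₃ c₄ c₅ c₆ L₁ L₂ L₃ L₄ L₅ L₆ L₇ i) (let7 c₁ c₂ c₃ c₄ c₅ c₆ L₁ L₂ L₃ L₄ L₅ L₆ L₇ j) := by
  obtain ⟨f, f1, f2, f3⟩ := word_copy g (let7 (s₁) (s₁ + s₂) (s₁ + s₂ + s₃) (s₁ + s₂ + s₃ + s₄) (s₁ + s₂ + s₃ + s₄ + s₅) (s₁ + s₂ + s₃ + s₄ + s₅ + s₆) L₁ L₂ L₃ L₄ L₅ L₆ L₇) (by
    intro i _
    unfold let7
    split_ifs <;> assumption)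
  obtain ⟨c₁, d₁, e₁⟩ := K0_thr f1 (s₁)
  obtain ⟨c₂, d₂, e₂⟩ := K0_thr f1 (s₁ + s₂)
  obtain ⟨c₃, d₃, e₃⟩ := K0_thr f1 (s₁ + s₂ + s₃)
  obtain ⟨c₄, d₄, e₄⟩ := K0_thr f1 (s₁ + s₂ + s₃ + s₄)
  obtain ⟨c₅, d₅, e₅⟩ := K0_thr f1 (s₁ + s₂ + s₃ + s₄ + s₅)
  obtain ⟨c₆, d₆, e₆⟩ := K0_thr f1 (s₁ + s₂ + s₃ + s₄ + s₅ + s₆)
  have t₁ := K0_step f1 (T := 0) (c := 0) (Nat.zero_le _) (fun i _ => by omega) (Nat.zero_le _) e₁ d₁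
  have t₂ := K0_step f1 (T := s₁) (T' := s₁ + s₂) (by omega) e₁ d₁ e₂ d₂
  have t₃ := K0_step f1 (T := s₁ + s₂) (T' := s₁ + s₂ + s₃) (by omega) e₂ d₂ e₃ d₃
  have t₄ := K0_step f1 (T := s₁ + s₂ + s₃) (T' := s₁ + s₂ + s₃ + s₄) (by omega) e₃ d₃ e₄ d₄
  have t₅ := K0_step f1 (T := s₁ + s₂ + s₃ + s₄) (T' := s₁ + s₂ + s₃ + s₄ + s₅) (by omega) e₄ d₄ e₅ d₅
  have t₆ := K0_step f1 (T := s₁ + s₂ + s₃ + s₄ + s₅) (T' := s₁ + s₂ + s₃ + s₄ + s₅ + s₆) (by omega) e₅ d₅ e₆ d₆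
  have t₇ := K0_step f1 (T := s₁ + s₂ + s₃ + s₄ + s₅ + s₆) (T' := 2 * l + 1) (c' := l + 1) (by omega) e₆ d₆
    (fun i hi => ⟨fun _ => by omega, fun _ => f2 i (by omega)⟩) le_rfl
  refine ⟨c₁, c₂, c₃, c₄, c₅, c₆, by omega, by omega, by omega, by omega, by omega, by omega, by omega, by omega, by omega, by omega, by omega, by omega, by omega, ?_⟩
  intro i j hij hj hE
  have h := f3 i j hij (by omega) hE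
  beta_reduce at h
  have key : ∀ i, i ≤ l → let7 (s₁) (s₁ + s₂) (s₁ + s₂ + s₃) (s₁ + s₂ + s₃ + s₄) (s₁ + s₂ + s₃ + s₄ + s₅) (s₁ + s₂ + s₃ + s₄ + s₅ + s₆) L₁ L₂ L₃ L₄ L₅ L₆ L₇ (f i) = let7 c₁ c₂ c₃ c₄ c₅ c₆ L₁ L₂ L₃ L₄ L₅ L₆ L₇ i := by
    intro i hi
    unfold let7
    simp only [e₁ i hi, e₂ i hi, e₃ i hi, e₄ i hi, e₅ i hi, e₆ i hi]
  rw [key i (by omega), key j hj] at h
  exact h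

/-- TARGET 5 -/
theorem runs8 {l : ℕ} {E : ℕ → ℕ → Prop} (g : Good 3 (l + 1) E) (s₁ s₂ s₃ s₄ s₅ s₆ s₇ s₈ : ℕ) (L₁ L₂ L₃ L₄ L₅ L₆ L₇ L₈ : ℕ)
    (hs : s₁ + s₂ + s₃ + s₄ + s₅ + s₆ + s₇ + s₈ = 2 * l + 1) (h1 : L₁ < 5) (h2 : L₂ < 5) (h3 : L₃ < 5) (h4 : L₄ < 5) (h5 : L₅ < 5) (h6 : L₆ < 5) (h7 : L₇ < 5) (h8 : L₈ < 5) :
    ∃ c₁ c₂ c₃ c₄ c₅ c₆ c₇ : ℕ, c₁ ≤ s₁ ∧ c₁ ≤ c₂ ∧ c₂ ≤ c₁ + s₂ ∧ c₂ ≤ c₃ ∧ c₃ ≤ c₂ + s₃ ∧ c₃ ≤ c₄ ∧ c₄ ≤ c₃ + s₄ ∧ c₄ ≤ c₅ ∧ c₅ ≤ c₄ + s₅ ∧ c₅ ≤ c₆ ∧ c₆ ≤ c₅ + s₆ ∧ c₆ ≤ c₇ ∧ c₇ ≤ c₆ + s₇ ∧ c₇ ≤ l + 1 ∧ l + 1 ≤ c₇ + s₈ ∧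
      ∀ i j, i < j → j ≤ l → E i j → radj (let8 c₁ c₂ c₃ c₄ c₅ c₆ c₇ L₁ L₂ L₃ L₄ L₅ L₆ L₇ L₈ i) (let8 c₁ c₂ c₃ c₄ c₅ c₆ c₇ L₁ L₂ L₃ L₄ L₅ L₆ L₇ L₈ j) := by
  obtain ⟨f, f1, f2, f3⟩ := word_copy g (let8 (s₁) (s₁ + s₂) (s₁ + s₂ + s₃) (s₁ + s₂ + s₃ + s₄) (s₁ + s₂ + s₃ + s₄ + s₅) (s₁ + s₂ + s₃ + s₄ + s₅ + s₆) (s₁ + s₂ + s₃ + s₄ + s₅ + s₆ + s₇) L₁ L₂ L₃ L₄ L₅ L₆ L₇ L₈) (by
    intro i _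
    unfold let8
    split_ifs <;> assumption)
  obtain ⟨c₁, d₁, e₁⟩ := K0_thr f1 (s₁)
  obtain ⟨c₂, d₂, e₂⟩ := K0_thr f1 (s₁ + s₂)
  obtain ⟨c₃, d₃, e₃⟩ := K0_thr f1 (s₁ + s₂ + s₃)
  obtain ⟨c₄, d₄, e₄⟩ := K0_thr f1 (s₁ + s₂ + s₃ + s₄)
  obtain ⟨c₅, d₅, e₅⟩ := K0_thr f1 (s₁ + s₂ + s₃ + s₄ + s₅)
  obtain ⟨c₆, d₆, e₆⟩ := K0_thr f1 (s₁ + s₂ + s₃ + s₄ + s₅ + s₆)
  obtain ⟨c₇, d₇, e₇⟩ := K0_thr f1 (s₁ + s₂ + s₃ + s₄ + s₅ + s₆ + s₇)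
  have t₁ := K0_step f1 (T := 0) (c := 0) (Nat.zero_le _) (fun i _ => by omega) (Nat.zero_le _) e₁ d₁
  have t₂ := K0_step f1 (T := s₁) (T' := s₁ + s₂) (by omega) e₁ d₁ e₂ d₂
  have t₃ := K0_step f1 (T := s₁ + s₂) (T' := s₁ + s₂ + s₃) (by omega) e₂ d₂ e₃ d₃
  have t₄ := K0_step f1 (T := s₁ + s₂ + s₃) (T' := s₁ + s₂ + s₃ + s₄) (by omega) e₃ d₃ e₄ d₄
  have t₅ := K0_step f1 (T := s₁ + s₂ + s₃ + s₄) (T' := s₁ + s₂ + s₃ + s₄ + s₅) (by omega) e₄ d₄ e₅ d₅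
  have t₆ := K0_step f1 (T := s₁ + s₂ + s₃ + s₄ + s₅) (T' := s₁ + s₂ + s₃ + s₄ + s₅ + s₆) (by omega) e₅ d₅ e₆ d₆
  have t₇ := K0_step f1 (T := s₁ + s₂ + s₃ + s₄ + s₅ + s₆) (T' := s₁ + s₂ + s₃ + s₄ + s₅ + s₆ + s₇) (by omega) e₆ d₆ e₇ d₇
  have t₈ := K0_step f1 (T := s₁ + s₂ + s₃ + s₄ + s₅ + s₆ + s₇) (T' := 2 * l + 1) (c' := l + 1) (by omega) e₇ d₇
    (fun i hi => ⟨fun _ => by omega, fun _ => f2 i (by omega)⟩) le_rfl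
  refine ⟨c₁, c₂, c₃, c₄, c₅, c₆, c₇, by omega, by omega, by omega, by omega, by omega, by omega, by omega, by omega, by omega, by omega, by omega, by omega, by omega, by omega, by omega, ?_⟩
  intro i j hij hj hE
  have h := f3 i j hij (by omega) hE
  beta_reduce at h
  have key : ∀ i, i ≤ l → let8 (s₁) (s₁ + s₂) (s₁ + s₂ + s₃) (s₁ + s₂ + s₃ + s₄) (s₁ + s₂ + s₃ + s₄ + s₅) (s₁ + s₂ + s₃ + s₄ + s₅ + s₆) (s₁ + s₂ + s₃ + s₄ + s₅ + s₆ + s₇) L₁ L₂ L₃ L₄ L₅ L₆ L₇ L₈ (f i) = let8 c₁ c₂ c₃ c₄ c₅ c₆ c₇ L₁ L₂ L₃ L₄ L₅ L₆ L₇ L₈ i := by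
    intro i hi
    unfold let8
    simp only [e₁ i hi, e₂ i hi, e₃ i hi, e₄ i hi, e₅ i hi, e₆ i hi, e₇ i hi]
  rw [key i (by omega), key j hj] at h
  exact h

end Pool.Agent.H831G
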