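import Pool.Agent.H831G.Defs2
import Pool.Agent.H831G.K0

/-!
Part K1 of the proof for MP_23a060_co (owner helper831).
-/

set_option autoImplicit false

namespace Pool.Agent.H831G


/-- the class of a vertex -/
theorem K1_let (c₁ c₂ c₃ c₄ i : ℕ) (h12 : c₁ ≤ c₂) (h23 : c₂ ≤ c₃) (h34 : c₃ ≤ c₄) :
    (i < c₁ ∧ let5 c₁ c₂ c₃ c₄ 0 3 2 1 4 i = 0) ∨
    (c₁ ≤ i ∧ i < c₂ ∧ let5 c₁ c₂ c₃ c₄ 0 3 2 1 4 i = 3) ∨
    (c₂ ≤ i ∧ i < c₃ ∧ let5 c₁ c₂ c₃ c₄ 0 3 2 1 4 i = 2) ∨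
    (c₃ ≤ i ∧ i < c₄ ∧ let5 c₁ c₂ c₃ c₄ 0 3 2 1 4 i = 1) ∨
    (c₄ ≤ i ∧ let5 c₁ c₂ c₃ c₄ 0 3 2 1 4 i = 4) := by
  unfold let5
  split_ifs <;> omega

/-- TARGET -/
theorem kill_C3 {l b x : ℕ} {E : ℕ → ℕ → Prop} (hb : 1 ≤ b) (hbx : b ≤ x) (hx : x < l)
    (hc : Conn (l + 1) E) (hi : Indec (l + 1) E) (h0 : E 0 b) (h1 : E x l) : ¬ Good 3 (l + 1) E := by
  intro g
  obtain ⟨c₁, c₂, c₃, c₄, k1, k2, k3, k4, k5, k6, k7, k8, k9, hr⟩ :=
    runs5 g b x 1 (l - b) (l - x) 0 3 2 1 4 (by omega) (by omega) (by omega) (by omega) (by omega)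
      (by omega)
  have r0 := hr 0 b (by omega) (by omega) h0
  have r1 := hr x l hx le_rfl h1
  have m0 := K1_let c₁ c₂ c₃ c₄ 0 k2 k4 k6
  have mb := K1_let c₁ c₂ c₃ c₄ b k2 k4 k6
  have mx := K1_let c₁ c₂ c₃ c₄ x k2 k4 k6
  have ml := K1_let c₁ c₂ c₃ c₄ l k2 k4 k6
  unfold radj at r0 r1
  generalize let5 c₁ c₂ c₃ c₄ 0 3 2 1 4 0 = v0 at *
  generalize let5 c₁ c₂ c₃ c₄ 0 3 2 1 4 b = vb at *
  generalize let5 c₁ c₂ c₃ c₄ 0 3 2 1 4 x = vx at *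
  generalize let5 c₁ c₂ c₃ c₄ 0 3 2 1 4 l = vl at *
  have hc4 : c₄ = l + 1 := by
    by_contra hne
    have hl4 : c₄ ≤ l := by omega
    have e1 : vl = 4 := by omega
    have e2 : x < c₄ := by omega
    have e3 : x < c₂ := by omega
    omega
  have hc1 : c₁ = 0 := by
    by_contra hne
    have e1 : v0 = 0 := by omega
    have e2 : c₃ ≤ b := by omega
    omega
  by_cases h23 : c₂ = c₃
  · obtain ⟨i, j, hij, hj, hE, hS⟩ := hc (fun i => i < c₂) ⟨0, by omega, by omega⟩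
      ⟨l, by omega, by omega⟩
    have r2 := hr i j hij (by omega) hE
    have h3 : i < c₂ ∧ c₂ ≤ j := by
      by_contra hcon
      apply hS
      constructor
      · intro h4
        show j < c₂
        have h5 : i < c₂ := h4
        omega
      · intro h4
        show i < c₂
        have h5 : j < c₂ := h4
        omega
    have mi := K1_let c₁ c₂ c₃ c₄ i k2 k4 k6
    have mj := K1_let c₁ c₂ c₃ c₄ j k2 k4 k6
    unfold radj at r2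
    omega
  · obtain ⟨i, j, hi1, hj1, hj2, hE⟩ := hi c₂ (by omega) (by omega)
    have r2 := hr i j (by omega) (by omega) hE
    have mi := K1_let c₁ c₂ c₃ c₄ i k2 k4 k6
    have mj := K1_let c₁ c₂ c₃ c₄ j k2 k4 k6
    unfold radj at r2
    omega

end Pool.Agent.H831G
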