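import Pool.Agent.H831G.Defs2
import Pool.Agent.H831G.K0

/-!
Part K10 of the proof for MP_23a060_co (owner helper831).
-/

set_option autoImplicit false

namespace Pool.Agent.H831G




theorem K10_P {e t x c₄ m y c₇ i : ℕ} (h4 : c₄ ≤ x + 1) (hei : e ≤ i)
    (hti : t ≤ i) (him : i < m) :
    let8 e t x c₄ m y c₇ 0 4 1 2 1 4 3 4 i = 1 ∨
      (let8 e t x c₄ m y c₇ 0 4 1 2 1 4 3 4 i = 2 ∧ (i = x ∧ x < c₄)) := by
  unfold let8
  split_ifs <;> omega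

theorem K10_Q {e t x c₄ m y c₇ i : ℕ} (h2 : x ≤ c₄) (h3 : c₄ ≤ m) (h1 : t ≤ x)
    (h7 : c₇ ≤ y + 1) (hei : e ≤ i) (hti : ¬ (t ≤ i ∧ i < m)) :
    let8 e t x c₄ m y c₇ 0 4 1 2 1 4 3 4 i = 4 ∨
      (let8 e t x c₄ m y c₇ 0 4 1 2 1 4 3 4 i = 3 ∧ (i = y ∧ y < c₇)) := by
  have h5 : t ≤ c₄ := h1.trans h2
  unfold let8
  split_ifs <;> omega

theorem K10_Z {e t x c₄ m y c₇ i : ℕ} (hei : i < e) :
    let8 e t x c₄ m y c₇ 0 4 1 2 1 4 3 4 i = 0 := by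
  unfold let8
  rw [if_pos hei]

theorem K10_red {p q : ℕ} {A B : Prop} (hp : p = 1 ∨ (p = 2 ∧ A)) (hq : q = 4 ∨ (q = 3 ∧ B))
    (h : radj p q ∨ radj q p) : A ∧ B := by
  unfold radj at h
  rcases hp with hp | ⟨hp, hA⟩ <;> rcases hq with hq | ⟨hq, hB⟩
  · omega
  · omega
  · omega
  · exact ⟨hA, hB⟩

/-- the crossing edges -/
theorem K10_cross {l : ℕ} {E : ℕ → ℕ → Prop} {e t x c₄ m y c₇ : ℕ}
    (e4 : t ≤ x) (e6 : x ≤ c₄) (e7 : c₄ ≤ x + 1) (e8 : c₄ ≤ m) (e10 : m ≤ y) (e13 : c₇ ≤ y + 1)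
    (hred : ∀ i j, i < j → j ≤ l → E i j →
      radj (let8 e t x c₄ m y c₇ 0 4 1 2 1 4 3 4 i) (let8 e t x c₄ m y c₇ 0 4 1 2 1 4 3 4 j))
    {i j : ℕ} (hei : e ≤ i) (hij : i < j) (hjl : j ≤ l) (hE : E i j)
    (hc : ¬ ((t ≤ i ∧ i < m) ↔ (t ≤ j ∧ j < m))) : i = x ∧ j = y ∧ x < c₄ ∧ y < c₇ := by
  have hr := hred i j hij hjl hE
  by_cases hi : t ≤ i ∧ i < m
  · have hj : ¬ (t ≤ j ∧ j < m) := by tauto
    have h1 := K10_P (e := e) (y := y) (c₇ := c₇) e7 hei hi.1 hi.2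
    have h2 := K10_Q (e := e) e6 e8 e4 e13 (hei.trans hij.le) hj
    obtain ⟨⟨h3, h4⟩, h5, h6⟩ := K10_red h1 h2 (Or.inl hr)
    exact ⟨h3, h5, h4, h6⟩
  · have hj : t ≤ j ∧ j < m := by tauto
    have h1 := K10_P (e := e) (y := y) (c₇ := c₇) e7 (hei.trans hij.le) hj.1 hj.2
    have h2 := K10_Q (e := e) e6 e8 e4 e13 hei hi
    obtain ⟨⟨h3, h4⟩, h5, h6⟩ := K10_red h1 h2 (Or.inr hr)
    exfalso
    clear hred hr h1 h2
    omega

/-- the letter of `b` if `0` has the letter `A` -/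
theorem K10_zb {e t x c₄ m y c₇ b : ℕ} (he : 0 < e) (hbe : e ≤ b) (e4 : t ≤ x) (e6 : x ≤ c₄)
    (e8 : c₄ ≤ m) (e10 : m ≤ y) (e12 : y ≤ c₇)
    (h0 : radj (let8 e t x c₄ m y c₇ 0 4 1 2 1 4 3 4 0)
      (let8 e t x c₄ m y c₇ 0 4 1 2 1 4 3 4 b)) : ¬ (b = x ∧ x < c₄) ∧ ¬ (b = y ∧ y < c₇) := by
  rw [K10_Z he] at h0
  constructor
  · rintro ⟨h1, h2⟩
    have h3 : let8 e t x c₄ m y c₇ 0 4 1 2 1 4 3 4 b = 2 := by
      unfold let8
      split_ifs <;> omega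
    rw [h3] at h0
    unfold radj at h0
    clear h3
    omega
  · rintro ⟨h1, h2⟩
    have h3 : let8 e t x c₄ m y c₇ 0 4 1 2 1 4 3 4 b = 3 := by
      unfold let8
      split_ifs <;> omega
    rw [h3] at h0
    unfold radj at h0
    clear h3
    omega

theorem B3surv {l a b s : ℕ} {E : ℕ → ℕ → Prop} (h : Leaf l E a b) (hab : a + 2 ≤ b)
    (g : Good 3 (l + 1) E) (h1 : a ≤ s) (h2 : s + 1 ≤ b) :
    ∃ (S : ℕ → Prop) (t m x y : ℕ), Split l E S x y ∧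
      (∀ i, 1 ≤ i → i ≤ l → (S i ↔ t ≤ i ∧ i < m)) ∧ (S 0 ↔ S b) ∧
      a < t ∧ t ≤ x ∧ x < m ∧ t ≤ s + 1 ∧ s + 1 ≤ m ∧ m ≤ y ∧ b ≤ y ∧ y < l ∧ y + s + 1 ≤ m + b ∧
      (S b → x ≠ b) := by
  obtain ⟨e, t, x, c₄, m, y, c₇, e1, e2, e3, e4, e5, e6, e7, e8, e9, e10, e11, e12, e13, e14, e15,
    hred⟩ := runs8 g 1 s (b - 1) 1 (l - b) (b - 1 - s) 1 (l - b) 0 4 1 2 1 4 3 4
      (by have := h.hb; omega) (by norm_num) (by norm_num) (by norm_num) (by norm_num)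
      (by norm_num) (by norm_num) (by norm_num) (by norm_num)
  have ha := h.ha
  have hb := h.hb
  have hzb : e = 1 → ¬ (b = x ∧ x < c₄) ∧ ¬ (b = y ∧ y < c₇) := by
    intro he
    exact K10_zb (by omega) (by omega) e4 e6 e8 e10 e12 (hred 0 b (by omega) (by omega) h.zb)
  have hcr0 : ∀ i j, e ≤ i → i < j → j ≤ l → E i j → ¬ ((t ≤ i ∧ i < m) ↔ (t ≤ j ∧ j < m)) →
      i = x ∧ j = y ∧ x < c₄ ∧ y < c₇ := fun i j a1 a2 a3 a4 a5 =>
    K10_cross e4 e6 e7 e8 e10 e13 hred a1 a2 a3 a4 a5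
  clear hred
  let S : ℕ → Prop := fun i => (e ≤ i ∧ t ≤ i ∧ i < m) ∨ (i < e ∧ t ≤ b ∧ b < m)
  have hS1 : ∀ i, e ≤ i → (S i ↔ t ≤ i ∧ i < m) := by
    intro i hi
    show (e ≤ i ∧ t ≤ i ∧ i < m) ∨ (i < e ∧ t ≤ b ∧ b < m) ↔ t ≤ i ∧ i < m
    constructor
    · rintro (h1 | h1)
      · exact h1.2
      · exact absurd h1.1 (not_lt.2 hi)
    · intro h1
      exact Or.inl ⟨hi, h1⟩
  have hS1' : ∀ i, 1 ≤ i → (S i ↔ t ≤ i ∧ i < m) := fun i hi => hS1 i (e1.trans hi)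
  have hS0 : e = 1 → (S 0 ↔ S b) := by
    intro he
    rw [hS1' b (by omega)]
    show (e ≤ 0 ∧ t ≤ 0 ∧ 0 < m) ∨ (0 < e ∧ t ≤ b ∧ b < m) ↔ t ≤ b ∧ b < m
    constructor
    · rintro (h1 | h1)
      · omega
      · exact h1.2
    · intro h1
      exact Or.inr ⟨by omega, h1⟩
  clear_value S
  -- the crossing edges
  have hcr : ∀ i j, i < j → j ≤ l → E i j → ¬ (S i ↔ S j) →
      i = x ∧ j = y ∧ x < c₄ ∧ y < c₇ := by
    intro i j hij hjl hE hc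
    by_cases hei : e ≤ i
    · rw [hS1 i hei, hS1 j (by omega)] at hc
      exact hcr0 i j hei hij hjl hE hc
    · exfalso
      have hi0 : i = 0 := by omega
      have he : e = 1 := by omega
      subst hi0
      have hjb := h.z_only j hij hjl hE
      rw [hjb] at hc
      exact hc (hS0 he)
  -- both sides are nonempty
  have hne1 : ∃ i, i < l + 1 ∧ S i := by
    by_cases htm : t < m
    · exact ⟨t, by omega, (hS1 t e2).2 ⟨le_refl t, htm⟩⟩
    · exfalso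
      have := hzb (by omega)
      omega
  have hne2 : ∃ i, i < l + 1 ∧ ¬ S i := by
    by_cases het : e < t
    · exact ⟨e, by omega, fun h' => by have := (hS1 e le_rfl).1 h'; omega⟩
    · by_cases hml : m ≤ l
      · exact ⟨l, by omega, fun h' => by have := (hS1' l (by omega)).1 h'; omega⟩
      · exfalso
        have := hzb (by omega)
        omega
  obtain ⟨i₀, j₀, hij, hjl, hE, hc⟩ := h.conn S hne1 hne2
  obtain ⟨hi, hj, hx4, hy7⟩ := hcr i₀ j₀ hij (by omega) hE hc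
  rw [hi, hj] at hE hc
  rw [hj] at hjl
  clear hij hi hj hne1 hne2 hcr0
  have hxm : x < m := by omega
  have hxy : x < y := by omega
  have hmy : m ≤ y := e10
  have hby : b ≤ y := by omega
  have hyl : y ≤ l := by omega
  -- `S 0 ↔ S b`
  have hSl : ¬ S l := fun h' => by have := (hS1' l (by omega)).1 h'; omega
  have hS0b : S 0 ↔ S b := by
    by_cases he : e = 1
    · exact hS0 he
    · by_contra hcc
      obtain ⟨p1, p2, -, -⟩ := hcr 0 b (by omega) hb.le h.zb hcc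
      have hSa : S a := (hS1' a ha).2 ⟨by omega, by omega⟩
      obtain ⟨-, p3, -, -⟩ := hcr a l (by omega) le_rfl h.al
        (fun hh => hSl (hh.1 hSa))
      omega
  have hSa : ¬ S a := by
    intro hSa
    obtain ⟨p1, p2, -, -⟩ := hcr a l (by omega) le_rfl h.al (fun hh => hSl (hh.1 hSa))
    have hW : ∀ i, i ≤ l → S i ∨ i = l := by
      by_contra hcon
      push Not at hcon
      obtain ⟨w, hwl, hw1, hw2⟩ := hcon
      obtain ⟨i, j, hij, hjl', hE', hc'⟩ := h.conn (fun i => ¬ S i ∧ i ≠ l)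
        ⟨w, by omega, hw1, hw2⟩ ⟨l, by omega, fun hh => hh.2 rfl⟩
      have hil : i ≠ l := by omega
      by_cases hjl2 : j = l
      · rw [hjl2] at hE' hc'
        have hia := h.l_only i (by omega) hE'
        apply hc'
        rw [hia]
        exact ⟨fun hh => absurd hSa hh.1, fun hh => absurd rfl hh.2⟩
      · have hc2 : ¬ (S i ↔ S j) := fun hh => hc' (by rw [hh]; simp [hil, hjl2])
        obtain ⟨-, q2, -, -⟩ := hcr i j hij (by omega) hE' hc2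
        omega
    have hw1 := hW 1 (by omega)
    have hw2 := hW (l - 1) (by omega)
    rcases hw1 with hw1 | hw1
    · rcases hw2 with hw2 | hw2
      · have r1 := (hS1' 1 le_rfl).1 hw1
        have r2 := (hS1' (l - 1) (by omega)).1 hw2
        omega
      · omega
    · omega
  have hat : a < t := by
    by_contra hh
    exact hSa ((hS1' a ha).2 ⟨by omega, by omega⟩)
  have hSx : S x := (hS1 x (by omega)).2 ⟨e4, hxm⟩
  have hSy : ¬ S y := fun h' => by have := (hS1' y (by omega)).1 h'; omega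
  have hyl' : y < l := by
    rcases eq_or_lt_of_le hyl with h1 | h1
    · exfalso
      rw [h1] at hE
      have := h.l_only x (by omega) hE
      rw [this] at hSx
      exact hSa hSx
    · exact h1
  refine ⟨S, t, m, x, y, ⟨by omega, hyl, hSx, hSy, Or.inl ⟨hxy, hE⟩, ?_⟩, fun i hi _ => hS1' i hi,
    hS0b, hat, e4, hxm, by omega, by omega, hmy, hby, hyl', by omega, ?_⟩
  · intro i j hij' hjl' hE' hc'
    obtain ⟨q1, q2, -, -⟩ := hcr i j hij' hjl' hE' hc'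
    exact Or.inl ⟨q1, q2⟩
  · intro hSb hxb
    have hS0' := hS0b.2 hSb
    by_cases he : e = 1
    · exact (hzb he).1 ⟨hxb.symm, hx4⟩
    · have := (hS1 0 (by omega)).1 hS0'
      omega

end Pool.Agent.H831G
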