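import Pool.Agent.H831G.Defs2
import Pool.Agent.H831G.K0

/-!
Part K11 of the proof for MP_23a060_co (owner helper831).
-/

set_option autoImplicit false

namespace Pool.Agent.H831G


/-! ## Auxiliary lemmas (job K11) -/

theorem K11_l8 {c₁ c₂ c₃ c₄ c₅ c₆ c₇ : ℕ} (L₁ L₂ L₃ L₄ L₅ L₆ L₇ L₈ i : ℕ) :
    (i < c₁ ∧ let8 c₁ c₂ c₃ c₄ c₅ c₆ c₇ L₁ L₂ L₃ L₄ L₅ L₆ L₇ L₈ i = L₁) ∨
    (c₁ ≤ i ∧ i < c₂ ∧ let8 c₁ c₂ c₃ c₄ c₅ c₆ c₇ L₁ L₂ L₃ L₄ L₅ L₆ L₇ L₈ i = L₂) ∨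
    (c₂ ≤ i ∧ i < c₃ ∧ let8 c₁ c₂ c₃ c₄ c₅ c₆ c₇ L₁ L₂ L₃ L₄ L₅ L₆ L₇ L₈ i = L₃) ∨
    (c₃ ≤ i ∧ i < c₄ ∧ let8 c₁ c₂ c₃ c₄ c₅ c₆ c₇ L₁ L₂ L₃ L₄ L₅ L₆ L₇ L₈ i = L₄) ∨
    (c₄ ≤ i ∧ i < c₅ ∧ let8 c₁ c₂ c₃ c₄ c₅ c₆ c₇ L₁ L₂ L₃ L₄ L₅ L₆ L₇ L₈ i = L₅) ∨
    (c₅ ≤ i ∧ i < c₆ ∧ let8 c₁ c₂ c₃ c₄ c₅ c₆ c₇ L₁ L₂ L₃ L₄ L₅ L₆ L₇ L₈ i = L₆) ∨
    (c₆ ≤ i ∧ i < c₇ ∧ let8 c₁ c₂ c₃ c₄ c₅ c₆ c₇ L₁ L₂ L₃ L₄ L₅ L₆ L₇ L₈ i = L₇) ∨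
    (c₇ ≤ i ∧ let8 c₁ c₂ c₃ c₄ c₅ c₆ c₇ L₁ L₂ L₃ L₄ L₅ L₆ L₇ L₈ i = L₈) := by
  unfold let8
  by_cases h1 : i < c₁
  · exact Or.inl ⟨h1, by rw [if_pos h1]⟩
  rw [if_neg h1]
  by_cases h2 : i < c₂
  · exact Or.inr (Or.inl ⟨by omega, h2, by rw [if_pos h2]⟩)
  rw [if_neg h2]
  by_cases h3 : i < c₃
  · exact Or.inr (Or.inr (Or.inl ⟨by omega, h3, by rw [if_pos h3]⟩))
  rw [if_neg h3]
  by_cases h4 : i < c₄
  · exact Or.inr (Or.inr (Or.inr (Or.inl ⟨by omega, h4, by rw [if_pos h4]⟩)))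
  rw [if_neg h4]
  by_cases h5 : i < c₅
  · exact Or.inr (Or.inr (Or.inr (Or.inr (Or.inl ⟨by omega, h5, by rw [if_pos h5]⟩))))
  rw [if_neg h5]
  by_cases h6 : i < c₆
  · exact Or.inr (Or.inr (Or.inr (Or.inr (Or.inr (Or.inl ⟨by omega, h6, by rw [if_pos h6]⟩)))))
  rw [if_neg h6]
  by_cases h7 : i < c₇
  · exact Or.inr (Or.inr (Or.inr (Or.inr (Or.inr (Or.inr (Or.inl ⟨by omega, h7, by rw [if_pos h7]⟩))))))
  rw [if_neg h7]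
  exact Or.inr (Or.inr (Or.inr (Or.inr (Or.inr (Or.inr (Or.inr ⟨by omega, rfl⟩))))))

theorem K11_keyA {c₁ c₂ c₃ c₄ c₅ c₆ c₇ i j : ℕ} (h12 : c₁ ≤ c₂) (h23 : c₂ ≤ c₃) (h34 : c₃ ≤ c₄)
    (h34' : c₄ ≤ c₃ + 1) (h45 : c₄ ≤ c₅) (h56 : c₅ ≤ c₆) (h56' : c₆ ≤ c₅ + 1) (h67 : c₆ ≤ c₇)
    (hi : c₁ ≤ i) (hij : i < j)
    (hr : radj (let8 c₁ c₂ c₃ c₄ c₅ c₆ c₇ 0 1 4 2 4 3 4 1 i) (let8 c₁ c₂ c₃ c₄ c₅ c₆ c₇ 0 1 4 2 4 3 4 1 j))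
    (hP : ¬ ((i < c₂ ∨ (c₃ ≤ i ∧ i < c₄) ∨ c₇ ≤ i) ↔ (j < c₂ ∨ (c₃ ≤ j ∧ j < c₄) ∨ c₇ ≤ j))) :
    i = c₃ ∧ c₄ = c₃ + 1 ∧ j = c₅ ∧ c₆ = c₅ + 1 := by
  rcases K11_l8 (c₁ := c₁) (c₂ := c₂) (c₃ := c₃) (c₄ := c₄) (c₅ := c₅) (c₆ := c₆) (c₇ := c₇) 0 1 4 2 4 3 4 1 i
    with h | h | h | h | h | h | h | h <;>
  rcases K11_l8 (c₁ := c₁) (c₂ := c₂) (c₃ := c₃) (c₄ := c₄) (c₅ := c₅) (c₆ := c₆) (c₇ := c₇) 0 1 4 2 4 3 4 1 j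
    with h' | h' | h' | h' | h' | h' | h' | h' <;>
  unfold radj at hr <;> omega

theorem K11_keyB {c₁ c₂ c₃ c₄ c₅ c₆ c₇ i j : ℕ} (h12 : c₁ ≤ c₂) (h23 : c₂ ≤ c₃) (h34 : c₃ ≤ c₄)
    (h34' : c₄ ≤ c₃ + 1) (h45 : c₄ ≤ c₅) (h56 : c₅ ≤ c₆) (h56' : c₆ ≤ c₅ + 1) (h67 : c₆ ≤ c₇)
    (hi : c₁ ≤ i) (hij : i < j)
    (hr : radj (let8 c₁ c₂ c₃ c₄ c₅ c₆ c₇ 0 1 4 3 4 2 4 1 i) (let8 c₁ c₂ c₃ c₄ c₅ c₆ c₇ 0 1 4 3 4 2 4 1 j))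
    (hP : ¬ ((i < c₂ ∨ (c₅ ≤ i ∧ i < c₆) ∨ c₇ ≤ i) ↔ (j < c₂ ∨ (c₅ ≤ j ∧ j < c₆) ∨ c₇ ≤ j))) :
    i = c₃ ∧ c₄ = c₃ + 1 ∧ j = c₅ ∧ c₆ = c₅ + 1 := by
  rcases K11_l8 (c₁ := c₁) (c₂ := c₂) (c₃ := c₃) (c₄ := c₄) (c₅ := c₅) (c₆ := c₆) (c₇ := c₇) 0 1 4 3 4 2 4 1 i
    with h | h | h | h | h | h | h | h <;>
  rcases K11_l8 (c₁ := c₁) (c₂ := c₂) (c₃ := c₃) (c₄ := c₄) (c₅ := c₅) (c₆ := c₆) (c₇ := c₇) 0 1 4 3 4 2 4 1 j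
    with h' | h' | h' | h' | h' | h' | h' | h' <;>
  unfold radj at hr <;> omega

/-- a vertex `b ≥ c₁` adjacent to letter `A` is neither `C` nor `D` -/
theorem K11_zeroA {c₁ c₂ c₃ c₄ c₅ c₆ c₇ b : ℕ} (h1 : c₁ = 1) (h12 : c₁ ≤ c₂) (h23 : c₂ ≤ c₃) (h34 : c₃ ≤ c₄)
    (h45 : c₄ ≤ c₅) (h56 : c₅ ≤ c₆) (h67 : c₆ ≤ c₇) (hb : 1 ≤ b)
    (hr : radj (let8 c₁ c₂ c₃ c₄ c₅ c₆ c₇ 0 1 4 2 4 3 4 1 0) (let8 c₁ c₂ c₃ c₄ c₅ c₆ c₇ 0 1 4 2 4 3 4 1 b)) :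
    ¬ (c₃ ≤ b ∧ b < c₄) ∧ ¬ (c₅ ≤ b ∧ b < c₆) := by
  have h0 : let8 c₁ c₂ c₃ c₄ c₅ c₆ c₇ 0 1 4 2 4 3 4 1 0 = 0 := by
    unfold let8
    rw [if_pos (by omega)]
  rcases K11_l8 (c₁ := c₁) (c₂ := c₂) (c₃ := c₃) (c₄ := c₄) (c₅ := c₅) (c₆ := c₆) (c₇ := c₇) 0 1 4 2 4 3 4 1 b
    with h' | h' | h' | h' | h' | h' | h' | h' <;>
  unfold radj at hr <;> omega

theorem K11_zeroB {c₁ c₂ c₃ c₄ c₅ c₆ c₇ b : ℕ} (h1 : c₁ = 1) (h12 : c₁ ≤ c₂) (h23 : c₂ ≤ c₃) (h34 : c₃ ≤ c₄)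
    (h45 : c₄ ≤ c₅) (h56 : c₅ ≤ c₆) (h67 : c₆ ≤ c₇) (hb : 1 ≤ b)
    (hr : radj (let8 c₁ c₂ c₃ c₄ c₅ c₆ c₇ 0 1 4 3 4 2 4 1 0) (let8 c₁ c₂ c₃ c₄ c₅ c₆ c₇ 0 1 4 3 4 2 4 1 b)) :
    ¬ (c₃ ≤ b ∧ b < c₄) ∧ ¬ (c₅ ≤ b ∧ b < c₆) := by
  have h0 : let8 c₁ c₂ c₃ c₄ c₅ c₆ c₇ 0 1 4 3 4 2 4 1 0 = 0 := by
    unfold let8
    rw [if_pos (by omega)]
  rcases K11_l8 (c₁ := c₁) (c₂ := c₂) (c₃ := c₃) (c₄ := c₄) (c₅ := c₅) (c₆ := c₆) (c₇ := c₇) 0 1 4 3 4 2 4 1 b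
    with h' | h' | h' | h' | h' | h' | h' | h' <;>
  unfold radj at hr <;> omega


theorem Tsurv_lt {l a b s : ℕ} {E : ℕ → ℕ → Prop} (h : Leaf l E a b) (g : Good 3 (l + 1) E)
    (hs : s < b) :
    ∃ (S : ℕ → Prop) (e t u x y : ℕ), e ≤ 1 ∧ e ≤ t ∧ t ≤ e + (b - 1) ∧ t ≤ x ∧ x ≤ t + s ∧ x < y ∧
      y + s ≤ x + b ∧ y < u ∧ u ≤ y + 1 + (l - b) ∧ b + 1 ≤ u ∧ u ≤ l + 1 ∧ Split l E S x y ∧
      (∀ i, e ≤ i → i ≤ l → (S i ↔ i < t ∨ i = x ∨ u ≤ i)) ∧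
      (e = 1 → x ≠ b ∧ y ≠ b ∧ (S 0 ↔ S b)) := by
  obtain ⟨c₁, c₂, c₃, c₄, c₅, c₆, c₇, q1, q12, q2, q23, q3, q34, q4, q45, q5, q56, q6, q67, q7, qt, qt', hred⟩ :=
    runs8 g 1 (b - 1) s 1 (b - 1 - s) 1 (l - b) (l - b) 0 1 4 2 4 3 4 1
      (by have := h.ha; have := h.hab; have := h.hb; omega)
      (by norm_num) (by norm_num) (by norm_num) (by norm_num) (by norm_num) (by norm_num)
      (by norm_num) (by norm_num)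
  have ha := h.ha
  have hab := h.hab
  have hb := h.hb
  -- the P side
  obtain ⟨P, hP⟩ : ∃ P : ℕ → Prop, ∀ i, P i ↔ (i < c₂ ∨ (c₃ ≤ i ∧ i < c₄) ∨ c₇ ≤ i) :=
    ⟨_, fun _ => Iff.rfl⟩
  obtain ⟨S, hS⟩ : ∃ S : ℕ → Prop, ∀ i, S i ↔ ((i < c₁ ∧ P b) ∨ (c₁ ≤ i ∧ P i)) :=
    ⟨_, fun _ => Iff.rfl⟩
  have hSb : S b ↔ P b := by
    rw [hS]
    constructor
    · rintro (h' | h')
      · exact h'.2
      · exact h'.2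
    · intro h'
      exact Or.inr ⟨by omega, h'⟩
  have hS0 : c₁ = 1 → (S 0 ↔ S b) := by
    intro h1
    rw [hSb, hS]
    constructor
    · rintro (h' | h')
      · exact h'.2
      · omega
    · intro h'
      exact Or.inl ⟨by omega, h'⟩
  have hSi : ∀ i, c₁ ≤ i → (S i ↔ P i) := by
    intro i hi
    rw [hS]
    constructor
    · rintro (h' | h')
      · omega
      · exact h'.2
    · intro h'
      exact Or.inr ⟨hi, h'⟩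
  have hz : c₁ = 1 → ¬ (c₃ ≤ b ∧ b < c₄) ∧ ¬ (c₅ ≤ b ∧ b < c₆) := by
    intro h1
    exact K11_zeroA h1 q12 q23 q34 q45 q56 q67 (by omega) (hred 0 b (by omega) (by omega) h.zb)
  have hcross : ∀ i j, i < j → j ≤ l → E i j → ¬ (S i ↔ S j) →
      i = c₃ ∧ c₄ = c₃ + 1 ∧ j = c₅ ∧ c₆ = c₅ + 1 := by
    intro i j hij hj hE hne
    by_cases hi : c₁ ≤ i
    · refine K11_keyA q12 q23 q34 (by omega) q45 q56 (by omega) q67 hi hij (hred i j hij hj hE) ?_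
      rw [← hP, ← hP, ← hSi i hi, ← hSi j (by omega)]
      exact hne
    · exfalso
      have h1 : c₁ = 1 := by omega
      have hi0 : i = 0 := by omega
      subst hi0
      have hjb : j = b := h.z_only j (by omega) hj hE
      subst hjb
      exact hne (hS0 h1)
  have hne1 : ∃ i, i < l + 1 ∧ S i := by
    by_contra hcon
    push Not at hcon
    have hall : ∀ i, c₁ ≤ i → i ≤ l → ¬ (i < c₂ ∨ (c₃ ≤ i ∧ i < c₄) ∨ c₇ ≤ i) := by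
      intro i hi hil hPi
      exact hcon i (by omega) ((hSi i hi).2 ((hP i).2 hPi))
    have e2 : c₂ = c₁ := by
      by_contra hc
      exact hall c₁ le_rfl (by omega) (Or.inl (by omega))
    have e7 : c₇ = l + 1 := by
      by_contra hc
      exact hall c₇ (by omega) (by omega) (Or.inr (Or.inr le_rfl))
    have e4 : c₄ = c₃ := by
      by_contra hc
      exact hall c₃ (by omega) (by omega) (Or.inr (Or.inl ⟨le_rfl, by omega⟩))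
    have h1 : c₁ = 1 := by omega
    have := hz h1
    omega
  have hne2 : ∃ i, i < l + 1 ∧ ¬ S i := by
    by_contra hcon
    push Not at hcon
    have hall : ∀ i, c₁ ≤ i → i ≤ l → (i < c₂ ∨ (c₃ ≤ i ∧ i < c₄) ∨ c₇ ≤ i) := by
      intro i hi hil
      exact (hP i).1 ((hSi i hi).1 (hcon i (by omega)))
    have e3 : c₃ = c₂ := by
      by_contra hc
      have := hall c₂ (by omega) (by omega)
      omega
    have e5 : c₇ = c₄ := by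
      by_contra hc
      have := hall c₄ (by omega) (by omega)
      omega
    have h1 : c₁ = 1 := by omega
    have := hz h1
    omega
  obtain ⟨i, j, hij, hj, hE, hne⟩ := h.conn S hne1 hne2
  obtain ⟨ei, e4, ej, e6⟩ := hcross i j hij (by omega) hE hne
  subst ei
  subst ej
  have hPx : P i := (hP i).2 (Or.inr (Or.inl ⟨le_rfl, by omega⟩))
  have hSx : S i := (hSi i (by omega)).2 hPx
  have hSy : ¬ S j := by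
    intro hh
    exact hne ⟨fun _ => hh, fun _ => hSx⟩
  refine ⟨S, c₁, c₂, c₇, i, j, by omega, q12, by omega, q23, q3, by omega, by omega, by omega,
    by omega, by omega, by omega, ?_, ?_, ?_⟩
  · refine ⟨by omega, by omega, hSx, hSy, Or.inl ⟨hij, hE⟩, ?_⟩
    intro i' j' hij' hj' hE' hne'
    obtain ⟨a1, _, a2, _⟩ := hcross i' j' hij' hj' hE' hne'
    exact Or.inl ⟨a1, a2⟩
  · intro i' hi' hil'
    rw [hSi i' hi', hP i']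
    constructor
    · rintro (h' | h' | h')
      · exact Or.inl h'
      · exact Or.inr (Or.inl (by omega))
      · exact Or.inr (Or.inr h')
    · rintro (h' | h' | h')
      · exact Or.inl h'
      · exact Or.inr (Or.inl (by omega))
      · exact Or.inr (Or.inr h')
  · intro h1
    have := hz h1
    exact ⟨by omega, by omega, hS0 h1⟩

theorem Tsurv_ge {l a b s : ℕ} {E : ℕ → ℕ → Prop} (h : Leaf l E a b) (g : Good 3 (l + 1) E)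
    (hs : b ≤ s) (hsl : s ≤ l) :
    ∃ (S : ℕ → Prop) (e t u x y : ℕ), e ≤ 1 ∧ e ≤ t ∧ t ≤ e + (b - 1) ∧ t ≤ y ∧ y ≤ t + (b - 1) ∧
      y < x ∧ x + b ≤ y + 1 + s ∧ x < u ∧ u + s ≤ x + 1 + l ∧ b + 1 ≤ u ∧ u ≤ l + 1 ∧
      Split l E S x y ∧
      (∀ i, e ≤ i → i ≤ l → (S i ↔ i < t ∨ i = x ∨ u ≤ i)) ∧
      (e = 1 → x ≠ b ∧ y ≠ b ∧ (S 0 ↔ S b)) := by
  obtain ⟨c₁, c₂, c₃, c₄, c₅, c₆, c₇, q1, q12, q2, q23, q3, q34, q4, q45, q5, q56, q6, q67, q7, qt, qt', hred⟩ :=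
    runs8 g 1 (b - 1) (b - 1) 1 (s - b) 1 (l - s) (l - b) 0 1 4 3 4 2 4 1
      (by have := h.ha; have := h.hab; have := h.hb; omega)
      (by norm_num) (by norm_num) (by norm_num) (by norm_num) (by norm_num) (by norm_num)
      (by norm_num) (by norm_num)
  have ha := h.ha
  have hab := h.hab
  have hb := h.hb
  -- the P side
  obtain ⟨P, hP⟩ : ∃ P : ℕ → Prop, ∀ i, P i ↔ (i < c₂ ∨ (c₅ ≤ i ∧ i < c₆) ∨ c₇ ≤ i) :=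
    ⟨_, fun _ => Iff.rfl⟩
  obtain ⟨S, hS⟩ : ∃ S : ℕ → Prop, ∀ i, S i ↔ ((i < c₁ ∧ P b) ∨ (c₁ ≤ i ∧ P i)) :=
    ⟨_, fun _ => Iff.rfl⟩
  have hSb : S b ↔ P b := by
    rw [hS]
    constructor
    · rintro (h' | h')
      · exact h'.2
      · exact h'.2
    · intro h'
      exact Or.inr ⟨by omega, h'⟩
  have hS0 : c₁ = 1 → (S 0 ↔ S b) := by
    intro h1
    rw [hSb, hS]
    constructor
    · rintro (h' | h')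
      · exact h'.2
      · omega
    · intro h'
      exact Or.inl ⟨by omega, h'⟩
  have hSi : ∀ i, c₁ ≤ i → (S i ↔ P i) := by
    intro i hi
    rw [hS]
    constructor
    · rintro (h' | h')
      · omega
      · exact h'.2
    · intro h'
      exact Or.inr ⟨hi, h'⟩
  have hz : c₁ = 1 → ¬ (c₃ ≤ b ∧ b < c₄) ∧ ¬ (c₅ ≤ b ∧ b < c₆) := by
    intro h1
    exact K11_zeroB h1 q12 q23 q34 q45 q56 q67 (by omega) (hred 0 b (by omega) (by omega) h.zb)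
  have hcross : ∀ i j, i < j → j ≤ l → E i j → ¬ (S i ↔ S j) →
      i = c₃ ∧ c₄ = c₃ + 1 ∧ j = c₅ ∧ c₆ = c₅ + 1 := by
    intro i j hij hj hE hne
    by_cases hi : c₁ ≤ i
    · refine K11_keyB q12 q23 q34 (by omega) q45 q56 (by omega) q67 hi hij (hred i j hij hj hE) ?_
      rw [← hP, ← hP, ← hSi i hi, ← hSi j (by omega)]
      exact hne
    · exfalso
      have h1 : c₁ = 1 := by omega
      have hi0 : i = 0 := by omega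
      subst hi0
      have hjb : j = b := h.z_only j (by omega) hj hE
      subst hjb
      exact hne (hS0 h1)
  have hne1 : ∃ i, i < l + 1 ∧ S i := by
    by_contra hcon
    push Not at hcon
    have hall : ∀ i, c₁ ≤ i → i ≤ l → ¬ (i < c₂ ∨ (c₅ ≤ i ∧ i < c₆) ∨ c₇ ≤ i) := by
      intro i hi hil hPi
      exact hcon i (by omega) ((hSi i hi).2 ((hP i).2 hPi))
    have e2 : c₂ = c₁ := by
      by_contra hc
      exact hall c₁ le_rfl (by omega) (Or.inl (by omega))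
    have e7 : c₇ = l + 1 := by
      by_contra hc
      exact hall c₇ (by omega) (by omega) (Or.inr (Or.inr le_rfl))
    have e6 : c₆ = c₅ := by
      by_contra hc
      exact hall c₅ (by omega) (by omega) (Or.inr (Or.inl ⟨le_rfl, by omega⟩))
    have h1 : c₁ = 1 := by omega
    have := hz h1
    omega
  have hne2 : ∃ i, i < l + 1 ∧ ¬ S i := by
    by_contra hcon
    push Not at hcon
    have hall : ∀ i, c₁ ≤ i → i ≤ l → (i < c₂ ∨ (c₅ ≤ i ∧ i < c₆) ∨ c₇ ≤ i) := by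
      intro i hi hil
      exact (hP i).1 ((hSi i hi).1 (hcon i (by omega)))
    have e5 : c₅ = c₂ := by
      by_contra hc
      have := hall c₂ (by omega) (by omega)
      omega
    have e7 : c₇ = c₆ := by
      by_contra hc
      have := hall c₆ (by omega) (by omega)
      omega
    have h1 : c₁ = 1 := by omega
    have := hz h1
    omega
  obtain ⟨i, j, hij, hj, hE, hne⟩ := h.conn S hne1 hne2
  obtain ⟨ei, e4, ej, e6⟩ := hcross i j hij (by omega) hE hne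
  subst ei
  subst ej
  have hPx : P j := (hP j).2 (Or.inr (Or.inl ⟨le_rfl, by omega⟩))
  have hSx : S j := (hSi j (by omega)).2 hPx
  have hSy : ¬ S i := by
    intro hh
    exact hne ⟨fun _ => hSx, fun _ => hh⟩
  refine ⟨S, c₁, c₂, c₇, j, i, by omega, q12, by omega, q23, q3, by omega, by omega, by omega,
    by omega, by omega, by omega, ?_, ?_, ?_⟩
  · refine ⟨by omega, by omega, hSx, hSy, Or.inr ⟨hij, hE⟩, ?_⟩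
    intro i' j' hij' hj' hE' hne'
    obtain ⟨a1, _, a2, _⟩ := hcross i' j' hij' hj' hE' hne'
    exact Or.inr ⟨a1, a2⟩
  · intro i' hi' hil'
    rw [hSi i' hi', hP i']
    constructor
    · rintro (h' | h' | h')
      · exact Or.inl h'
      · exact Or.inr (Or.inl (by omega))
      · exact Or.inr (Or.inr h')
    · rintro (h' | h' | h')
      · exact Or.inl h'
      · exact Or.inr (Or.inl (by omega))
      · exact Or.inr (Or.inr h')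
  · intro h1
    have := hz h1
    exact ⟨by omega, by omega, hS0 h1⟩

end Pool.Agent.H831G

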