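import Pool.Agent.H831G.Defs2

/-!
Part K12 of the proof for MP_23a060_co (owner helper831).
-/

set_option autoImplicit false

namespace Pool.Agent.H831G

theorem K12_key {l : ℕ} {E : ℕ → ℕ → Prop} {S T : ℕ → Prop} {x y x' y' p : ℕ}
    (hc : Conn (l + 1) E) (hS : Split l E S x y) (hT : Split l E T x' y')
    (W : ℕ → Prop) (h1 : ∀ i, W i → (S i ↔ S p))
    (h2 : ∀ i j, (S i ↔ S p) → ¬ W i → W j → ¬ (T i ↔ T j)) (hx : ¬ W x) (hy : ¬ W y)
    (h3 : ∃ i, i < l + 1 ∧ W i) (h4 : ∃ i, i < l + 1 ∧ ¬ W i) :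
    (S x' ↔ S p) ∧ (S y' ↔ S p) := by
  obtain ⟨-, -, -, -, -, hu⟩ := hS
  obtain ⟨-, -, -, -, -, hu'⟩ := hT
  obtain ⟨i, j, hij, hj, hE, hne⟩ := hc W h3 h4
  by_cases hs : S i ↔ S j
  · have hT : ¬ (T i ↔ T j) := by
      by_cases hi : W i
      · have hj' : ¬ W j := fun h => hne ⟨fun _ => h, fun _ => hi⟩
        have := h2 j i (hs.symm.trans (h1 i hi)) hj' hi
        exact fun h => this h.symm
      · have hj' : W j := by
          by_contra h
          exact hne ⟨fun h' => absurd h' hi, fun h' => absurd h' h⟩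
        exact h2 i j (hs.trans (h1 j hj')) hi hj'
    have hp : (S i ↔ S p) ∧ (S j ↔ S p) := by
      by_cases hi : W i
      · exact ⟨h1 i hi, hs.symm.trans (h1 i hi)⟩
      · have hj' : W j := by
          by_contra h
          exact hne ⟨fun h' => absurd h' hi, fun h' => absurd h' h⟩
        exact ⟨hs.trans (h1 j hj'), h1 j hj'⟩
    rcases hu' i j hij (Nat.lt_succ_iff.1 hj) hE hT with ⟨rfl, rfl⟩ | ⟨rfl, rfl⟩
    · exact hp
    · exact ⟨hp.2, hp.1⟩
  · exfalso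
    rcases hu i j hij (Nat.lt_succ_iff.1 hj) hE hs with ⟨rfl, rfl⟩ | ⟨rfl, rfl⟩
    · exact hne ⟨fun h => absurd h hx, fun h => absurd h hy⟩
    · exact hne ⟨fun h => absurd h hy, fun h => absurd h hx⟩

theorem two_split {l : ℕ} {E : ℕ → ℕ → Prop} {S T : ℕ → Prop} {x y x' y' p q : ℕ}
    (hc : Conn (l + 1) E) (hS : Split l E S x y) (hT : Split l E T x' y') (hp : p ≤ l) (hq : q ≤ l)
    (h : S p ↔ S q) (h1 : T p) (h2 : ¬ T q) : (S x' ↔ S p) ∧ (S y' ↔ S p) := by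
  have hSx : S x := hS.2.2.1
  have hSy : ¬ S y := hS.2.2.2.1
  -- the endpoint `Z` of the `S`-edge in the part of `p`
  by_cases hZ : (S p → T x) ∧ (¬ S p → T y)
  · -- `T Z`: take the part of `q` outside `T`
    refine K12_key hc hS hT (fun i => (S i ↔ S p) ∧ ¬ T i) (fun i hi => hi.1) ?_ ?_ ?_
      ⟨q, by omega, h.symm, h2⟩ ⟨p, by omega, fun hh => hh.2 h1⟩
    · intro i j hi hni hj hTij
      by_cases hTi : T i
      · exact hj.2 (hTij.1 hTi)
      · exact hni ⟨hi, hTi⟩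
    · rintro ⟨ha, hb⟩
      exact hb (hZ.1 (ha.1 hSx))
    · rintro ⟨ha, hb⟩
      exact hb (hZ.2 fun hpp => hSy (ha.2 hpp))
  · refine K12_key hc hS hT (fun i => (S i ↔ S p) ∧ T i) (fun i hi => hi.1) ?_ ?_ ?_
      ⟨p, by omega, Iff.rfl, h1⟩ ⟨q, by omega, fun hh => h2 hh.2⟩
    · intro i j hi hni hj hTij
      exact hni ⟨hi, hTij.2 hj.2⟩
    · rintro ⟨ha, hb⟩
      exact hZ ⟨fun _ => hb, fun hnp => absurd (ha.1 hSx) hnp⟩
    · rintro ⟨ha, hb⟩
      exact hZ ⟨fun hpp => absurd (ha.2 hpp) hSy, fun _ => hb⟩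

theorem K12_conn_mir {l : ℕ} {E : ℕ → ℕ → Prop} (h : Conn (l + 1) E) :
    Conn (l + 1) (mir (l + 1) E) := by
  rintro S ⟨i, hi, hSi⟩ ⟨j, hj, hSj⟩
  obtain ⟨a, b, hab, hb, hE, hne⟩ := h (fun t => S (l - t))
    ⟨l - i, by omega, by rwa [show l - (l - i) = i by omega]⟩
    ⟨l - j, by omega, by rwa [show l - (l - j) = j by omega]⟩
  refine ⟨l - b, l - a, by omega, by omega, ?_, fun hh => hne hh.symm⟩
  unfold mir
  rwa [show l + 1 - 1 - (l - a) = a by omega, show l + 1 - 1 - (l - b) = b by omega]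

theorem Leaf_mir {l a b : ℕ} {E : ℕ → ℕ → Prop} (h : Leaf l E a b) :
    Leaf l (mir (l + 1) E) (l - b) (l - a) := by
  obtain ⟨hc, ha, hab, hb, hzb, hal, hz, hl⟩ := h
  refine ⟨K12_conn_mir hc, by omega, by omega, by omega, ?_, ?_, ?_, ?_⟩
  · unfold mir
    rwa [show l + 1 - 1 - (l - a) = a by omega, show l + 1 - 1 - 0 = l by omega]
  · unfold mir
    rwa [show l + 1 - 1 - l = 0 by omega, show l + 1 - 1 - (l - b) = b by omega]
  · intro j hj hjl hE
    unfold mir at hE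
    rw [show l + 1 - 1 - 0 = l by omega] at hE
    have := hl _ (by omega) hE
    omega
  · intro i hi hE
    unfold mir at hE
    rw [show l + 1 - 1 - l = 0 by omega] at hE
    have := hz _ (by omega) (by omega) hE
    omega

theorem split_mir' {l x y : ℕ} {E : ℕ → ℕ → Prop} {S : ℕ → Prop}
    (h : Split l E S x y) : Split l (mir (l + 1) E) (fun i => S (l - i)) (l - x) (l - y) := by
  obtain ⟨hx, hy, hSx, hSy, hE, hu⟩ := h
  have ex : l - (l - x) = x := by omega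
  have ey : l - (l - y) = y := by omega
  refine ⟨by omega, by omega, ?_, ?_, ?_, ?_⟩
  · simpa only [ex] using hSx
  · simpa only [ey] using hSy
  · rcases hE with ⟨h1, h2⟩ | ⟨h1, h2⟩
    · right
      refine ⟨by omega, ?_⟩
      unfold mir
      rwa [show l + 1 - 1 - (l - x) = x by omega, show l + 1 - 1 - (l - y) = y by omega]
    · left
      refine ⟨by omega, ?_⟩
      unfold mir
      rwa [show l + 1 - 1 - (l - x) = x by omega, show l + 1 - 1 - (l - y) = y by omega]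
  · intro i j hij hj hE' hne
    unfold mir at hE'
    rw [show l + 1 - 1 - j = l - j by omega, show l + 1 - 1 - i = l - i by omega] at hE'
    rcases hu _ _ (by omega) (by omega) hE' (fun hh => hne hh.symm) with ⟨h1, h2⟩ | ⟨h1, h2⟩
    · right
      omega
    · left
      omega

theorem K12_mir_mir {l i j : ℕ} {E : ℕ → ℕ → Prop} (hi : i ≤ l) (hj : j ≤ l) :
    mir (l + 1) (mir (l + 1) E) i j ↔ E i j := by
  unfold mir
  rw [show l + 1 - 1 - (l + 1 - 1 - i) = i by omega, show l + 1 - 1 - (l + 1 - 1 - j) = j by omega]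

theorem split_mir {l x y : ℕ} {E : ℕ → ℕ → Prop} {S : ℕ → Prop}
    (h : Split l (mir (l + 1) E) S x y) : Split l E (fun i => S (l - i)) (l - x) (l - y) := by
  obtain ⟨hx, hy, hSx, hSy, hE, hu⟩ := split_mir' h
  refine ⟨hx, hy, hSx, hSy, ?_, ?_⟩
  · rcases hE with ⟨h1, h2⟩ | ⟨h1, h2⟩
    · exact Or.inl ⟨h1, (K12_mir_mir hx hy).1 h2⟩
    · exact Or.inr ⟨h1, (K12_mir_mir hy hx).1 h2⟩
  · intro i j hij hj hE' hne
    exact hu i j hij hj ((K12_mir_mir (by omega) hj).2 hE') hne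

theorem split_congr {l x y : ℕ} {E : ℕ → ℕ → Prop} {S S' : ℕ → Prop}
    (hs : ∀ i, i ≤ l → (S i ↔ S' i)) (h : Split l E S x y) : Split l E S' x y := by
  obtain ⟨hx, hy, hSx, hSy, hE, hu⟩ := h
  refine ⟨hx, hy, (hs x hx).1 hSx, fun h' => hSy ((hs y hy).2 h'), hE, ?_⟩
  intro i j hij hj hE' hne
  refine hu i j hij hj hE' fun hh => hne ?_
  rw [← hs i (by omega), ← hs j hj]
  exact hh

theorem split_compl {l x y : ℕ} {E : ℕ → ℕ → Prop} {S S' : ℕ → Prop}
    (hs : ∀ i, i ≤ l → (S' i ↔ ¬ S i)) (h : Split l E S x y) : Split l E S' y x := by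
  obtain ⟨hx, hy, hSx, hSy, hE, hu⟩ := h
  refine ⟨hy, hx, (hs y hy).2 hSy, fun h' => (hs x hx).1 h' hSx, hE.symm, ?_⟩
  intro i j hij hj hE' hne
  refine (hu i j hij hj hE' fun hh => hne ?_).symm
  rw [hs i (by omega), hs j hj, hh]

end Pool.Agent.H831G
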