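import Pool.Agent.H831G.Defs2
import Pool.Agent.H831G.K10
import Pool.Agent.H831G.K12
import Pool.Agent.H831G.G6

/-!
Part K13 of the proof for MP_23a060_co (owner helper831).
-/

set_option autoImplicit false

namespace Pool.Agent.H831G


/-! ## auxiliary -/

/-- the crossing edge of `S'` is crossed by `S`, so the two exit edges agree -/
theorem K13_edge {l x y x' y' : ℕ} {E : ℕ → ℕ → Prop} {S S' : ℕ → Prop}
    (hS : Split l E S x y) (hS' : Split l E S' x' y') (h1 : S x') (h2 : ¬ S y') :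
    x' = x ∧ y' = y := by
  obtain ⟨_, _, _, hSy, _, hu⟩ := hS
  obtain ⟨hx'l, hy'l, _, _, he', _⟩ := hS'
  rcases he' with ⟨hlt, he⟩ | ⟨hlt, he⟩
  · rcases hu x' y' hlt hy'l he (fun h => h2 (h.1 h1)) with ⟨e1, e2⟩ | ⟨e1, e2⟩
    · exact ⟨e1, e2⟩
    · exact absurd (e1 ▸ h1) hSy
  · rcases hu y' x' hlt hx'l he (fun h => h2 (h.2 h1)) with ⟨e1, e2⟩ | ⟨e1, e2⟩
    · exact absurd (e2 ▸ h1) hSy
    · exact ⟨e2, e1⟩

/-- the mirrored statement: the survivor on the other side -/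
theorem K13_mirror {l a b : ℕ} {E : ℕ → ℕ → Prop} (h : Leaf l E a b) (hab : a + 2 ≤ b)
    (g : Good 3 (l + 1) E) :
    ∃ (X : ℕ → Prop) (α x' y' : ℕ), Split l E X x' y' ∧
      (∀ i, i < l → (X i ↔ α + 1 ≤ i ∧ i + 1 ≤ b)) ∧ 1 ≤ y' ∧ y' ≤ a ∧ α + 1 ≤ x' ∧ x' + 1 ≤ b := by
  have hb := h.hb
  have ha := h.ha
  obtain ⟨S, t, m, x, y, hS, hi, _, h1, h2, h3, h4, h5, h6, h7, h8, h9, _⟩ :=
    B3surv (s := l - b) (Leaf_mir h) (by omega) (good_mir g) (le_refl _) (by omega)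
  refine ⟨fun i => S (l - i), l - m, l - x, l - y, split_mir hS, ?_, by omega, by omega, by omega,
    by omega⟩
  intro i hil
  have := hi (l - i) (by omega) (by omega)
  show S (l - i) ↔ _
  rw [this]
  constructor
  · rintro ⟨k1, k2⟩
    constructor <;> omega
  · rintro ⟨k1, k2⟩
    constructor <;> omega

/-- claim (*) -/
theorem K13_disj {l a b α x' y' : ℕ} {E : ℕ → ℕ → Prop} {X : ℕ → Prop} (h : Leaf l E a b)
    (hX : Split l E X x' y') (hXi : ∀ i, i < l → (X i ↔ α + 1 ≤ i ∧ i + 1 ≤ b))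
    (hy1 : 1 ≤ y') (hya : y' ≤ a)
    {S : ℕ → Prop} {t m x y : ℕ} (hS : Split l E S x y)
    (hi : ∀ i, 1 ≤ i → i ≤ l → (S i ↔ t ≤ i ∧ i < m)) (hat : a < t) (hby : b ≤ y) (hyl : y < l)
    {p : ℕ} (hp1 : p < l) (hpS : S p) (hpX : X p) : False := by
  have hall : ∀ q, q ≤ l → X q → S q := by
    intro q hq hXq
    by_contra hSq
    have := two_split h.conn hX hS hp1.le hq ⟨fun _ => hXq, fun _ => hpX⟩ hpS hSq
    have hy := this.2.2 hpX
    have := (hXi y hyl).1 hy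
    omega
  have hx'S : S x' := hall x' hX.1 hX.2.2.1
  have hb := h.hb
  have hab := h.hab
  have hy'S : ¬ S y' := by
    intro hc
    have := (hi y' hy1 (by omega)).1 hc
    omega
  have := K13_edge hS hX hx'S hy'S
  omega


theorem kill_far {l a b : ℕ} {E : ℕ → ℕ → Prop} (h : Leaf l E a b) (hab : a + 2 ≤ b) :
    ¬ Good 3 (l + 1) E := by
  intro g
  have hb := h.hb
  have ha := h.ha
  obtain ⟨X, α, x', y', hX, hXi, hy1, hya, hx1, hx2⟩ := K13_mirror h hab g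
  -- s = a
  have hα : a + 1 ≤ α := by
    obtain ⟨S, t, m, x, y, hS, hi, _, h1, h2, h3, h4, h5, h6, h7, h8, h9, _⟩ :=
      B3surv (s := a) h hab g (le_refl _) (by omega)
    by_contra hc
    refine K13_disj h hX hXi hy1 hya hS hi h1 h7 h8 (p := a + 1) (by omega) ?_ ?_
    · exact (hi (a + 1) (by omega) (by omega)).2 ⟨by omega, by omega⟩
    · exact (hXi (a + 1) (by omega)).2 ⟨by omega, by omega⟩
  -- s = b - 1
  obtain ⟨S₁, t₁, m₁, x₁, y₁, hS₁, hi₁, _, a1, a2, a3, a4, a5, a6, a7, a8, a9, a10⟩ :=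
    B3surv (s := b - 1) h hab g (by omega) (by omega)
  have ht₁ : t₁ = b := by
    by_contra hc
    refine K13_disj h hX hXi hy1 hya hS₁ hi₁ a1 a7 a8 (p := b - 1) (by omega) ?_ ?_
    · exact (hi₁ (b - 1) (by omega) (by omega)).2 ⟨by omega, by omega⟩
    · exact (hXi (b - 1) (by omega)).2 ⟨by omega, by omega⟩
  have hbS₁ : S₁ b := (hi₁ b (by omega) (by omega)).2 ⟨by omega, by omega⟩
  have hx₁ := a10 hbS₁
  -- s = α
  obtain ⟨S, t, m, x, y, hS, hi, _, h1, h2, h3, h4, h5, h6, h7, h8, h9, _⟩ :=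
    B3surv (s := α) h hab g (by omega) (by omega)
  have hm : m = α + 1 := by
    by_contra hc
    refine K13_disj h hX hXi hy1 hya hS hi h1 h7 h8 (p := α + 1) (by omega) ?_ ?_
    · exact (hi (α + 1) (by omega) (by omega)).2 ⟨by omega, by omega⟩
    · exact (hXi (α + 1) (by omega)).2 ⟨by omega, by omega⟩
  have hyb : y = b := by omega
  have hxS₁ : ¬ S₁ x := by
    intro hc
    have := (hi₁ x (by omega) (by omega)).1 hc
    omega
  -- the edge `(x, b)` crosses `S₁`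
  obtain ⟨_, _, _, _, he, _⟩ := hS
  subst hyb
  have hu := hS₁.2.2.2.2.2
  rcases he with ⟨hlt, he⟩ | ⟨hlt, he⟩
  · rcases hu x y hlt (by omega) he (fun hh => hxS₁ (hh.2 hbS₁)) with ⟨e1, e2⟩ | ⟨e1, e2⟩
    · exact hxS₁ (e1 ▸ hS₁.2.2.1)
    · exact hx₁ e2.symm
  · omega

end Pool.Agent.H831G
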