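import Pool.Agent.H831G.Defs2
import Pool.Agent.H831G.K11
import Pool.Agent.H831G.K12

/-!
Part K14 of the proof for MP_23a060_co (owner helper831).
-/

set_option autoImplicit false

namespace Pool.Agent.H831G



theorem T1ref {l a : ℕ} {E : ℕ → ℕ → Prop} (h : Leaf l E a (a + 1)) (g : Good 3 (l + 1) E) :
    (∃ t, 1 ≤ t ∧ t ≤ a ∧ Split l E (fun i => i < t ∨ i = a + 1) (a + 1) (a + 2)) ∨
    (∃ u, a + 1 < u ∧ u ≤ l ∧ Split l E (fun i => i = a ∨ u ≤ i) a (a + 1)) ∨
    (∃ x u, a + 2 ≤ x ∧ x + 1 < u ∧ u ≤ l ∧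
      Split l E (fun i => (1 ≤ i ∧ i ≤ a) ∨ i = x ∨ u ≤ i) x (x + 1)) ∨
    (∃ t x, 2 ≤ t ∧ t ≤ a ∧ a + 2 ≤ x ∧ x ≤ t + a ∧ x + 1 ≤ l ∧
      Split l E (fun i => (1 ≤ i ∧ i < t) ∨ i = x) x (x + 1)) := by
  obtain ⟨S, e, t, u, x, y, he, het, hte, htx, hxt, hxy, hyx, hyu, hu, hbu, hul, hsp, hS, he1⟩ :=
    Tsurv_lt h g (Nat.lt_succ_self a)
  have ha := h.ha
  have hb := h.hb
  have hy : y = x + 1 := by omega
  subst hy
  have hxl : x ≤ l := hsp.1
  have hyl : x + 1 ≤ l := hsp.2.1
  have huniq := hsp.2.2.2.2.2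
  have h0b : S 0 ↔ S (a + 1) := by
    by_contra hne
    rcases huniq 0 (a + 1) (by omega) (by omega) h.zb hne with ⟨h1, h2⟩ | ⟨h1, h2⟩ <;> omega
  have hal : S a ↔ S l := by
    by_contra hne
    rcases huniq a l (by omega) (le_refl l) h.al hne with ⟨h1, h2⟩ | ⟨h1, h2⟩ <;> omega
  have hSa := hS a (by omega) (by omega)
  have hSb := hS (a + 1) (by omega) (by omega)
  have hSl := hS l (by omega) (by omega)
  have key : ∀ S' : ℕ → Prop, (∀ i, i ≤ l → (S i ↔ S' i)) → Split l E S' x (x + 1) :=
    fun S' hS' => split_congr hS' hsp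
  rcases (show e = 0 ∨ e = 1 by omega) with h0 | h1
  · -- e = 0
    subst h0
    have hS0 := hS 0 (by omega) (by omega)
    by_cases hl : S l
    · have h1 : u ≤ l := by
        have := hSl.1 hl
        omega
      have h2 : x = a := by
        have := hSa.1 (hal.2 hl)
        omega
      have h3 : t = 0 := by
        by_contra ht
        have h4 : S 0 := hS0.2 (by omega)
        have := hSb.1 (h0b.1 h4)
        omega
      refine Or.inr (Or.inl ⟨u, by omega, h1, ?_⟩)
      have h5 := key (fun i => i = a ∨ u ≤ i) (fun i hi => by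
        have := hS i (by omega) hi
        simp only [this]
        omega)
      rw [h2] at h5
      exact h5
    · have h1 : ¬ u ≤ l := fun h => hl (hSl.2 (Or.inr (Or.inr h)))
      have h2 : x ≠ a := fun h => hl (hal.1 (hSa.2 (Or.inr (Or.inl h.symm))))
      by_cases hxb : x = a + 1
      · have h3 : S 0 := h0b.2 (hSb.2 (Or.inr (Or.inl hxb.symm)))
        have h4 := hS0.1 h3
        refine Or.inl ⟨t, by omega, by omega, ?_⟩
        have h5 := key (fun i => i < t ∨ i = a + 1) (fun i hi => by
          have := hS i (by omega) hi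
          simp only [this]
          omega)
        rw [hxb] at h5
        exact h5
      · exfalso
        have h3 : ¬ S (a + 1) := fun h => by
          have := hSb.1 h
          omega
        have h4 : ¬ S 0 := fun h => h3 (h0b.1 h)
        have h5 : ¬ 0 < t := fun h => h4 (hS0.2 (Or.inl h))
        omega
  · -- e = 1
    subst h1
    obtain ⟨hxb, hyb, -⟩ := he1 rfl
    have h3 : ¬ S (a + 1) := fun h => by
      have := hSb.1 h
      omega
    have h4 : ¬ S 0 := fun h => h3 (h0b.1 h)
    by_cases hl : S l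
    · have h1 : u ≤ l := by
        have := hSl.1 hl
        omega
      have h2 : t = a + 1 := by
        have := hSa.1 (hal.2 hl)
        omega
      refine Or.inr (Or.inr (Or.inl ⟨x, u, by omega, by omega, h1, ?_⟩))
      refine key (fun i => (1 ≤ i ∧ i ≤ a) ∨ i = x ∨ u ≤ i) (fun i hi => ?_)
      rcases Nat.eq_zero_or_pos i with h0 | h0
      · subst h0
        refine ⟨fun h => absurd h h4, fun h => ?_⟩
        exfalso
        omega
      · have := hS i (by omega) hi
        simp only [this]
        omega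
    · have h1 : ¬ u ≤ l := fun h => hl (hSl.2 (Or.inr (Or.inr h)))
      have h2 : ¬ a < t := fun h => hl (hal.1 (hSa.2 (Or.inl h)))
      refine Or.inr (Or.inr (Or.inr ⟨t, x, by omega, by omega, by omega, by omega, by omega, ?_⟩))
      refine key (fun i => (1 ≤ i ∧ i < t) ∨ i = x) (fun i hi => ?_)
      rcases Nat.eq_zero_or_pos i with h0 | h0
      · subst h0
        refine ⟨fun h => absurd h h4, fun h => ?_⟩
        exfalso
        omega
      · have := hS i (by omega) hi
        simp only [this]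
        omega

end Pool.Agent.H831G
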