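import Pool.Agent.H831G.Defs2
import Pool.Agent.H831G.K11
import Pool.Agent.H831G.K12

/-!
Part K15 of the proof for MP_23a060_co (owner helper831).
-/

set_option autoImplicit false

namespace Pool.Agent.H831G



theorem T2ref {l a : ℕ} {E : ℕ → ℕ → Prop} (h : Leaf l E a (a + 1)) (g : Good 3 (l + 1) E) :
    (∃ t, 1 ≤ t ∧ t ≤ a ∧ Split l E (fun i => i < t ∨ i = a + 1) (a + 1) a) ∨
    (∃ u, a + 1 < u ∧ u ≤ l ∧ Split l E (fun i => i = a ∨ u ≤ i) a (a - 1)) ∨
    (∃ x u, a + 3 ≤ x ∧ x < u ∧ u ≤ l ∧
      Split l E (fun i => (1 ≤ i ∧ i ≤ a) ∨ i = x ∨ u ≤ i) x (x - 1)) ∨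
    (∃ t u, 1 ≤ t ∧ t + 1 ≤ a ∧ a + 1 < u ∧ u ≤ l ∧
      Split l E (fun i => (1 ≤ i ∧ i < t) ∨ i = a ∨ u ≤ i) a (a - 1)) ∨
    (∃ t x, 2 ≤ t ∧ t ≤ a ∧ a + 3 ≤ x ∧ x ≤ t + a + 1 ∧ x ≤ l ∧
      Split l E (fun i => (1 ≤ i ∧ i < t) ∨ i = x) x (x - 1)) := by
  obtain ⟨S, e, t, u, x, y, he, h1, h2, h3, h4, h5, h6, h7, h8, h9, h10, hSp, hS, he1⟩ :=
    Tsurv_ge h g (le_refl (a + 1)) h.hb.le
  have ha := h.ha
  have hb := h.hb
  have hx : x = y + 1 := by omega
  subst hx
  obtain ⟨hxl, hyl, hSx, hSy, hE, huniq⟩ := hSp
  have hSp : Split l E S (y + 1) y := ⟨hxl, hyl, hSx, hSy, hE, huniq⟩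
  have h0b : S 0 ↔ S (a + 1) := by
    by_contra hcon
    rcases huniq 0 (a + 1) (by omega) (by omega) h.zb hcon with ⟨h11, h12⟩ | ⟨h11, h12⟩ <;> omega
  have hal : S a ↔ S l := by
    by_contra hcon
    rcases huniq a l (by omega) (by omega) h.al hcon with ⟨h11, h12⟩ | ⟨h11, h12⟩ <;> omega
  have hxne : y + 1 ≠ l := by
    intro h11
    rcases hE with ⟨h12, _⟩ | ⟨h12, h13⟩
    · omega
    · rw [h11] at h13
      have h14 := h.l_only y (by omega) h13
      omega
  have hSl : S l ↔ u ≤ l := by
    rw [hS l (by omega) (le_refl l)]
    constructor
    · rintro (h11 | h11 | h11)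
      · omega
      · exact absurd h11.symm hxne
      · exact h11
    · intro h11
      exact Or.inr (Or.inr h11)
  have hSa : S a ↔ (a < t ∨ a = y + 1) := by
    rw [hS a (by omega) (by omega)]
    constructor
    · rintro (h11 | h11 | h11)
      · exact Or.inl h11
      · exact Or.inr h11
      · omega
    · rintro (h11 | h11)
      · exact Or.inl h11
      · exact Or.inr (Or.inl h11)
  have hSb : S (a + 1) ↔ a + 1 = y + 1 := by
    rw [hS (a + 1) (by omega) (by omega)]
    constructor
    · rintro (h11 | h11 | h11)
      · omega
      · exact h11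
      · omega
    · intro h11
      exact Or.inr (Or.inl h11)
  have hcases : e = 0 ∨ e = 1 := by omega
  rcases hcases with he0 | he0
  · -- e = 0
    subst he0
    by_cases hul : u ≤ l
    · have hSa' : S a := hal.2 (hSl.2 hul)
      have hxa : a = y + 1 := by
        rcases hSa.1 hSa' with h11 | h11
        · omega
        · exact h11
      have hnb : ¬ S (a + 1) := by
        rw [hSb]
        omega
      have hn0 : ¬ S 0 := fun h11 => hnb (h0b.1 h11)
      have ht : t = 0 := by
        by_contra h11
        exact hn0 ((hS 0 (le_refl 0) (by omega)).2 (Or.inl (by omega)))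
      right; left
      refine ⟨u, by omega, hul, ?_⟩
      have hy : a - 1 = y := by omega
      rw [hy]
      subst hxa
      refine split_congr ?_ hSp
      intro i hi
      rw [hS i (by omega) hi]
      constructor
      · rintro (h11 | h11 | h11)
        · omega
        · exact Or.inl h11
        · exact Or.inr h11
      · rintro (h11 | h11)
        · exact Or.inr (Or.inl h11)
        · exact Or.inr (Or.inr h11)
    · have hu : u = l + 1 := by omega
      have hxb : a + 1 ≤ y + 1 := by omega
      rcases Nat.eq_or_lt_of_le hxb with h11 | h11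
      · left
        have hS0 : S 0 := h0b.2 (hSb.2 h11)
        have ht : 1 ≤ t := by
          rcases (hS 0 (le_refl 0) (by omega)).1 hS0 with h12 | h12 | h12 <;> omega
        refine ⟨t, ht, by omega, ?_⟩
        have hya : y = a := by omega
        subst hya
        refine split_congr ?_ hSp
        intro i hi
        rw [hS i (by omega) hi]
        constructor
        · rintro (h12 | h12 | h12)
          · exact Or.inl h12
          · exact Or.inr h12
          · omega
        · rintro (h12 | h12)
          · exact Or.inl h12
          · exact Or.inr (Or.inl h12)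
      · exfalso
        have hnb : ¬ S (a + 1) := by
          rw [hSb]
          omega
        have hn0 : ¬ S 0 := fun h12 => hnb (h0b.1 h12)
        have ht : t = 0 := by
          by_contra h12
          exact hn0 ((hS 0 (le_refl 0) (by omega)).2 (Or.inl (by omega)))
        omega
  · -- e = 1
    subst he0
    obtain ⟨hxb, hyb, -⟩ := he1 rfl
    have hnb : ¬ S (a + 1) := by
      rw [hSb]
      omega
    have hn0 : ¬ S 0 := fun h11 => hnb (h0b.1 h11)
    by_cases hul : u ≤ l
    · have hSa' : S a := hal.2 (hSl.2 hul)
      rcases hSa.1 hSa' with h11 | h11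
      · right; right; left
        refine ⟨y + 1, u, by omega, h7, hul, ?_⟩
        have hy : y + 1 - 1 = y := by omega
        rw [hy]
        refine split_congr ?_ hSp
        intro i hi
        rcases Nat.eq_zero_or_pos i with h12 | h12
        · subst h12
          constructor
          · intro h13
            exact absurd h13 hn0
          · rintro (h13 | h13 | h13) <;> omega
        · rw [hS i h12 hi]
          constructor
          · rintro (h13 | h13 | h13)
            · exact Or.inl ⟨h12, by omega⟩
            · exact Or.inr (Or.inl h13)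
            · exact Or.inr (Or.inr h13)
          · rintro (h13 | h13 | h13)
            · exact Or.inl (by omega)
            · exact Or.inr (Or.inl h13)
            · exact Or.inr (Or.inr h13)
      · right; right; right; left
        refine ⟨t, u, h1, by omega, by omega, hul, ?_⟩
        have hy : a - 1 = y := by omega
        rw [hy]
        subst h11
        refine split_congr ?_ hSp
        intro i hi
        rcases Nat.eq_zero_or_pos i with h12 | h12
        · subst h12
          constructor
          · intro h13
            exact absurd h13 hn0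
          · rintro (h13 | h13 | h13) <;> omega
        · rw [hS i h12 hi]
          constructor
          · rintro (h13 | h13 | h13)
            · exact Or.inl ⟨h12, h13⟩
            · exact Or.inr (Or.inl h13)
            · exact Or.inr (Or.inr h13)
          · rintro (h13 | h13 | h13)
            · exact Or.inl h13.2
            · exact Or.inr (Or.inl h13)
            · exact Or.inr (Or.inr h13)
    · have hu : u = l + 1 := by omega
      have hna : ¬ S a := fun h11 => hul (hSl.1 (hal.1 h11))
      have hta : t ≤ a := by
        by_contra h11
        exact hna (hSa.2 (Or.inl (by omega)))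
      right; right; right; right
      refine ⟨t, y + 1, by omega, hta, by omega, by omega, hxl, ?_⟩
      have hy : y + 1 - 1 = y := by omega
      rw [hy]
      refine split_congr ?_ hSp
      intro i hi
      rcases Nat.eq_zero_or_pos i with h12 | h12
      · subst h12
        constructor
        · intro h13
          exact absurd h13 hn0
        · rintro (h13 | h13) <;> omega
      · rw [hS i h12 hi]
        constructor
        · rintro (h13 | h13 | h13)
          · exact Or.inl ⟨h12, h13⟩
          · exact Or.inr h13
          · omega
        · rintro (h13 | h13)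
          · exact Or.inl h13.2
          · exact Or.inr (Or.inl h13)

end Pool.Agent.H831G
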