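import Pool.Agent.H831G.Defs2
import Pool.Agent.H831G.K0

/-!
Part K16 of the proof for MP_23a060_co (owner helper831).
-/

set_option autoImplicit false

namespace Pool.Agent.H831G


/-! ## auxiliary -/

theorem K16_let {c₁ c₂ c₃ c₄ c₅ : ℕ} (i : ℕ) (h1 : c₁ ≤ c₂) (h2 : c₂ ≤ c₃) (h3 : c₃ ≤ c₄)
    (h4 : c₄ ≤ c₅) :
    (i < c₁ ∧ let6 c₁ c₂ c₃ c₄ c₅ 0 1 3 2 1 4 i = 0) ∨
    (c₁ ≤ i ∧ i < c₂ ∧ let6 c₁ c₂ c₃ c₄ c₅ 0 1 3 2 1 4 i = 1) ∨
    (c₂ ≤ i ∧ i < c₃ ∧ let6 c₁ c₂ c₃ c₄ c₅ 0 1 3 2 1 4 i = 3) ∨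
    (c₃ ≤ i ∧ i < c₄ ∧ let6 c₁ c₂ c₃ c₄ c₅ 0 1 3 2 1 4 i = 2) ∨
    (c₄ ≤ i ∧ i < c₅ ∧ let6 c₁ c₂ c₃ c₄ c₅ 0 1 3 2 1 4 i = 1) ∨
    (c₅ ≤ i ∧ let6 c₁ c₂ c₃ c₄ c₅ 0 1 3 2 1 4 i = 4) := by
  unfold let6
  split_ifs <;> omega


theorem W2surv {l a : ℕ} {E : ℕ → ℕ → Prop} (h : Leaf l E a (a + 1)) (g : Good 3 (l + 1) E) :
    ∃ c e, c ≤ a ∧ a + 2 ≤ e ∧ e ≤ l ∧
      (∀ i j, i < j → j ≤ l → E i j →
        ¬ ((i < c ∨ (a + 2 ≤ i ∧ i < e)) ∧ ((c ≤ j ∧ j ≤ a) ∨ e ≤ j)) ∧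
        ¬ (((c ≤ i ∧ i ≤ a) ∨ e ≤ i) ∧ (j < c ∨ (a + 2 ≤ j ∧ j < e)))) ∧
      ∀ j, e ≤ j → j ≤ l → ¬ E (a + 1) j := by
  have ha := h.ha
  have hb := h.hb
  obtain ⟨c₁, c₂, c₃, c₄, c₅, k1, k2, k3, k4, k5, k6, k7, k8, k9, k10, k11, hE⟩ :=
    runs6 g 1 a (a + 1) 1 (l - a - 1) (l - a - 1) 0 1 3 2 1 4 (by omega) (by norm_num)
      (by norm_num) (by norm_num) (by norm_num) (by norm_num) (by norm_num)
  have hlet := fun i => K16_let (c₁ := c₁) (c₂ := c₂) (c₃ := c₃) (c₄ := c₄) (c₅ := c₅) i k2 k4 k6 k8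
  generalize hL : let6 c₁ c₂ c₃ c₄ c₅ 0 1 3 2 1 4 = L at hE hlet
  unfold radj at hE
  have e0 := hE 0 (a + 1) (by omega) (by omega) h.zb
  have e1 := hE a l (by omega) (by omega) h.al
  have l0 := hlet 0
  have lb := hlet (a + 1)
  have la := hlet a
  have ll := hlet l
  -- the final step
  have fin : c₁ = 0 → c₂ ≤ a → c₃ = a + 1 → c₄ = a + 2 → c₅ ≤ l →
      ∃ c e, c ≤ a ∧ a + 2 ≤ e ∧ e ≤ l ∧
      (∀ i j, i < j → j ≤ l → E i j →
        ¬ ((i < c ∨ (a + 2 ≤ i ∧ i < e)) ∧ ((c ≤ j ∧ j ≤ a) ∨ e ≤ j)) ∧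
        ¬ (((c ≤ i ∧ i ≤ a) ∨ e ≤ i) ∧ (j < c ∨ (a + 2 ≤ j ∧ j < e)))) ∧
      ∀ j, e ≤ j → j ≤ l → ¬ E (a + 1) j := by
    intro f1 f2 f3 f4 f5
    refine ⟨c₂, c₅, f2, by omega, f5, ?_, ?_⟩
    · intro i j hij hjl hEij
      have r := hE i j hij hjl hEij
      have li := hlet i
      have lj := hlet j
      constructor
      · rintro ⟨u1, u2⟩
        omega
      · rintro ⟨u1, u2⟩
        omega
    · intro j hj hjl hEj
      have r := hE (a + 1) j (by omega) hjl hEj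
      have lj := hlet j
      omega
  by_cases hc1 : c₁ = 0
  · by_cases hC : c₃ = c₄
    · -- no red between the two parts
      exfalso
      by_cases hS : ∃ i, i < l + 1 ∧ (i < c₂ ∨ (c₄ ≤ i ∧ i < c₅))
      · by_cases hS' : ∃ i, i < l + 1 ∧ ¬ (i < c₂ ∨ (c₄ ≤ i ∧ i < c₅))
        · obtain ⟨i, j, hij, hj, hEij, hx⟩ := h.conn (fun i => i < c₂ ∨ (c₄ ≤ i ∧ i < c₅)) hS hS'
          have r := hE i j hij (by omega) hEij
          have li := hlet i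
          have lj := hlet j
          by_cases u : (i < c₂ ∨ (c₄ ≤ i ∧ i < c₅))
          · have v : ¬ (j < c₂ ∨ (c₄ ≤ j ∧ j < c₅)) := fun v => hx ⟨fun _ => v, fun _ => u⟩
            omega
          · have v : (j < c₂ ∨ (c₄ ≤ j ∧ j < c₅)) := by
              by_contra v
              exact hx ⟨fun u' => absurd u' u, fun v' => absurd v' v⟩
            omega
        · clear hS fin
          apply hS'
          clear hS'
          by_cases w : c₂ < c₃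
          · exact ⟨c₂, by omega, by omega⟩
          · exact ⟨l, by omega, by omega⟩
      · apply hS
        clear hS fin
        by_cases w : 0 < c₂
        · exact ⟨0, by omega, by omega⟩
        · exact ⟨c₄, by omega, by omega⟩
    · have hc4 : c₄ = c₃ + 1 := by omega
      have q : c₂ ≤ a ∧ c₃ = a + 1 ∧ c₄ = a + 2 ∧ c₅ ≤ l := by
        clear fin
        refine ⟨?_, ?_, ?_, ?_⟩ <;> omega
      exact fin hc1 q.1 q.2.1 q.2.2.1 q.2.2.2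
  · exfalso
    clear fin
    have hc1' : c₁ = 1 := by omega
    have hb2 : c₄ ≤ a + 1 ∧ a + 1 < c₅ := by omega
    have hla : c₅ ≤ l := by omega
    have haD : c₂ ≤ a ∧ a < c₃ := by omega
    obtain ⟨i, j, hij, hj, hEij, hx⟩ := h.conn (fun i => i < c₂ ∨ (c₄ ≤ i ∧ i < c₅))
      ⟨0, by omega, by omega⟩ ⟨a, by omega, by omega⟩
    have r := hE i j hij (by omega) hEij
    have li := hlet i
    have lj := hlet j
    by_cases hi0 : i = 0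
    · subst hi0
      have hjb := h.z_only j hij (by omega) hEij
      apply hx
      constructor
      · intro _
        right
        omega
      · intro _
        left
        omega
    · by_cases u : (i < c₂ ∨ (c₄ ≤ i ∧ i < c₅))
      · have v : ¬ (j < c₂ ∨ (c₄ ≤ j ∧ j < c₅)) := fun v => hx ⟨fun _ => v, fun _ => u⟩
        omega
      · have v : (j < c₂ ∨ (c₄ ≤ j ∧ j < c₅)) := by
          by_contra v
          exact hx ⟨fun u' => absurd u' u, fun v' => absurd v' v⟩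
        omega

end Pool.Agent.H831G
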