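import Pool.Agent.H831G.Defs2
import Pool.Agent.H831G.K12

/-!
Part K17a of the proof for MP_23a060_co (owner helper831).
-/

set_option autoImplicit false

namespace Pool.Agent.H831G



theorem eps_contra {l a t x t' x' : ℕ} {E : ℕ → ℕ → Prop} (hc : Conn (l + 1) E) (hl : 2 ≤ l)
    (ht : 2 ≤ t) (hta : t ≤ a) (hx : a + 2 ≤ x)
    (h1 : Split l E (fun i => (1 ≤ i ∧ i < t) ∨ i = x) x (x + 1))
    (ht' : 2 ≤ t') (hta' : t' ≤ a) (hx' : a + 3 ≤ x')
    (h2 : Split l E (fun i => (1 ≤ i ∧ i < t') ∨ i = x') x' (x' - 1)) : False := by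
  by_cases hA : ∃ q, q ≤ l ∧ ((1 ≤ q ∧ q < t) ∨ q = x) ∧ ¬ ((1 ≤ q ∧ q < t') ∨ q = x')
  · obtain ⟨q, hq, hq1, hq2⟩ := hA
    have h := two_split (p := 1) (q := q) hc h1 h2 (by omega) hq
      (by constructor <;> intro _ <;> first | exact hq1 | exact Or.inl ⟨le_rfl, by omega⟩)
      (Or.inl ⟨le_rfl, by omega⟩) hq2
    omega
  · by_cases hB : ∃ q, q ≤ l ∧ ((1 ≤ q ∧ q < t') ∨ q = x') ∧ ¬ ((1 ≤ q ∧ q < t) ∨ q = x)
    · obtain ⟨q, hq, hq1, hq2⟩ := hB
      have h := two_split (p := 1) (q := q) hc h2 h1 (by omega) hq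
        (by constructor <;> intro _ <;> first | exact hq1 | exact Or.inl ⟨le_rfl, by omega⟩)
        (Or.inl ⟨le_rfl, by omega⟩) hq2
      omega
    · obtain ⟨a1, a2, a3, a4, a5, a6⟩ := h1
      obtain ⟨b1, b2, b3, b4, b5, b6⟩ := h2
      have hxx : x = x' := by
        by_contra hne
        apply hA
        refine ⟨x, a1, Or.inr rfl, ?_⟩
        omega
      subst hxx
      rcases b5 with ⟨b7, -⟩ | ⟨b7, b8⟩
      · omega
      · have := a6 (x - 1) x (by omega) a1 b8 (by omega)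
        omega

end Pool.Agent.H831G
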