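import Pool.Agent.H831G.Defs2
import Pool.Agent.H831G.K16
import Pool.Agent.H831G.K14
import Pool.Agent.H831G.K15
import Pool.Agent.H831G.K17a
import Pool.Agent.H831G.K12
import Pool.Agent.H831G.G6

/-!
Part K17 of the proof for MP_23a060_co (owner helper831).
-/

set_option autoImplicit false

namespace Pool.Agent.H831G



theorem K17_closed {l : ℕ} {E : ℕ → ℕ → Prop} (hc : Conn (l + 1) E) (S : ℕ → Prop)
    (i₀ j₀ : ℕ) (hi : i₀ ≤ l) (hSi : S i₀) (hj : j₀ ≤ l) (hSj : ¬ S j₀)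
    (h : ∀ i j, i < j → j ≤ l → E i j → (S i ↔ S j)) : False := by
  obtain ⟨i, j, hij, hjl, hE, hn⟩ := hc S ⟨i₀, by omega, hSi⟩ ⟨j₀, by omega, hSj⟩
  exact hn (h i j hij (by omega) hE)

theorem class_nab {l a : ℕ} {E : ℕ → ℕ → Prop} (h : Leaf l E a (a + 1)) (g : Good 3 (l + 1) E)
    (hab : ¬ E a (a + 1)) : False := by
  obtain ⟨c, e, hca, hae, hel, hLR, hbe⟩ := W2surv h g
  have hbl := h.hb
  have ha1 := h.ha
  have h' : Leaf l (mir (l + 1) E) (l - (a + 1)) (l - (a + 1) + 1) := by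
    have h1 := Leaf_mir h
    have e1 : l - a = l - (a + 1) + 1 := by omega
    rw [e1] at h1
    exact h1
  obtain ⟨c', e', hc', he', hel', hLR', hbe'⟩ := W2surv h' (good_mir g)
  obtain ⟨p, hp⟩ : ∃ p, p = l - e' + 1 := ⟨_, rfl⟩
  obtain ⟨q, hq⟩ : ∃ q, q = l - c' + 1 := ⟨_, rfl⟩
  have hp1 : 1 ≤ p := by omega
  have hpa : p ≤ a := by omega
  have hqa : a + 2 ≤ q := by omega
  have hql : q ≤ l + 1 := by omega
  -- the facts on edges
  have F1 : ∀ i j, i < j → j ≤ l → E i j →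
      ¬ ((i < c ∨ (a + 2 ≤ i ∧ i < e)) ∧ ((c ≤ j ∧ j ≤ a) ∨ e ≤ j)) ∧
      ¬ (((c ≤ i ∧ i ≤ a) ∨ e ≤ i) ∧ (j < c ∨ (a + 2 ≤ j ∧ j < e))) := hLR
  have F2 : ∀ i j, i < j → j ≤ l → E i j →
      ¬ (((p ≤ i ∧ i < a) ∨ q ≤ i) ∧ (j < p ∨ (a + 1 ≤ j ∧ j < q))) ∧
      ¬ ((i < p ∨ (a + 1 ≤ i ∧ i < q)) ∧ ((p ≤ j ∧ j < a) ∨ q ≤ j)) := by
    intro i j hij hjl hE
    have h1 := hLR' (l - j) (l - i) (by omega) (by omega) (by
      unfold mir
      have e1 : l + 1 - 1 - (l - i) = i := by omega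
      have e2 : l + 1 - 1 - (l - j) = j := by omega
      rw [e1, e2]
      exact hE)
    constructor
    · intro h2
      apply h1.2
      omega
    · intro h2
      apply h1.1
      omega
  have F3 : ∀ j, e ≤ j → j ≤ l → E (a + 1) j → False := fun j h1 h2 h3 => hbe j h1 h2 h3
  have F4 : ∀ i, i < p → E i a → False := by
    intro i hi hE
    refine hbe' (l - i) (by omega) (by omega) ?_
    unfold mir
    have e1 : l + 1 - 1 - (l - i) = i := by omega
    have e2 : l + 1 - 1 - (l - (a + 1) + 1) = a := by omega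
    rw [e1, e2]
    exact hE
  -- combined
  have F : ∀ i j, i < j → j ≤ l → E i j →
      (¬ ((i < c ∨ (a + 2 ≤ i ∧ i < e)) ∧ ((c ≤ j ∧ j ≤ a) ∨ e ≤ j)) ∧
      ¬ (((c ≤ i ∧ i ≤ a) ∨ e ≤ i) ∧ (j < c ∨ (a + 2 ≤ j ∧ j < e)))) ∧
      (¬ (((p ≤ i ∧ i < a) ∨ q ≤ i) ∧ (j < p ∨ (a + 1 ≤ j ∧ j < q))) ∧
      ¬ ((i < p ∨ (a + 1 ≤ i ∧ i < q)) ∧ ((p ≤ j ∧ j < a) ∨ q ≤ j))) ∧
      ¬ (i = a + 1 ∧ e ≤ j) ∧ ¬ (i < p ∧ j = a) ∧ ¬ (i = a ∧ j = a + 1) ∧
      (i = 0 → j = a + 1) ∧ (j = l → i = a) := by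
    intro i j hij hjl hE
    refine ⟨F1 i j hij hjl hE, F2 i j hij hjl hE, ?_, ?_, ?_, ?_, ?_⟩
    · rintro ⟨rfl, h1⟩
      exact F3 j h1 hjl hE
    · rintro ⟨h1, rfl⟩
      exact F4 i h1 hE
    · rintro ⟨rfl, rfl⟩
      exact hab hE
    · rintro rfl
      exact h.z_only j hij hjl hE
    · rintro rfl
      exact h.l_only i hij hE
  -- (2) the two sets are disjoint
  have hdisj : ∀ x, x ≤ l → (x < c ∨ (a + 2 ≤ x ∧ x < e)) → ((p ≤ x ∧ x < a) ∨ q ≤ x) → False := by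
    intro x hx hx1 hx2
    refine K17_closed h.conn
      (fun i => (i < c ∨ (a + 2 ≤ i ∧ i < e)) ∧ ((p ≤ i ∧ i < a) ∨ q ≤ i)) x a hx ⟨hx1, hx2⟩
      (by omega) (by omega) ?_
    intro i j hij hjl hE
    have h1 := F i j hij hjl hE
    constructor
    · intro h2
      omega
    · intro h2
      omega
  have hcp : c ≤ p := by
    by_contra hcon
    exact hdisj p (by omega) (by omega) (by omega)
  have heq : e ≤ q := by
    by_contra hcon
    exact hdisj q (by omega) (by omega) (by omega)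
  -- (3)
  have hw : ∃ w, 1 ≤ w ∧ c ≤ w ∧ w < p ∧ E w (a + 1) := by
    by_contra hcon
    push Not at hcon
    refine K17_closed h.conn
      (fun i => i = a + 1 ∨ (i < c ∨ (a + 2 ≤ i ∧ i < e)) ∨ i = 0) 0 a (by omega)
      (by simp) (by omega) (by omega) ?_
    intro i j hij hjl hE
    have h1 := F i j hij hjl hE
    have h2 : ¬ (1 ≤ i ∧ c ≤ i ∧ i < p ∧ j = a + 1) := by
      rintro ⟨h3, h4, h5, rfl⟩
      exact hcon i h3 h4 h5 hE
    constructor
    · intro h3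
      omega
    · intro h3
      omega
  -- (4)
  obtain ⟨w, hw1, hwc, hwp, hwE⟩ := hw
  have h4 : ∃ t x, 2 ≤ t ∧ t ≤ a ∧ a + 2 ≤ x ∧ x ≤ t + a ∧ x + 1 ≤ l ∧
      Split l E (fun i => (1 ≤ i ∧ i < t) ∨ i = x) x (x + 1) := by
    rcases T1ref h g with ⟨t, ht1, hta, hS⟩ | ⟨u, hu1, hul, hS⟩ | ⟨x, u, hx, hxu, hul, hS⟩ | h4
    · exfalso
      obtain ⟨_, _, _, _, hadj, honly⟩ := hS
      have hE : E (a + 1) (a + 2) := by
        rcases hadj with h1 | h1
        · exact h1.2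
        · exfalso; omega
      have hae' : a + 2 < e := by
        by_contra hcon
        exact F3 (a + 2) (by omega) (by omega) hE
      refine K17_closed h.conn
        (fun i => (i < t ∨ i = a + 1) ∨ (i < c ∨ (a + 2 ≤ i ∧ i < e))) (a + 1) a (by omega)
        (by simp) (by omega) (by omega) ?_
      intro i j hij hjl hE
      have h1 := F i j hij hjl hE
      have h2 := honly i j hij hjl hE
      simp only at h2 ⊢
      by_cases h3 : ((i < t ∨ i = a + 1) ↔ (j < t ∨ j = a + 1))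
      · omega
      · have h4 := h2 h3
        omega
    · exfalso
      obtain ⟨_, _, _, _, hadj, _⟩ := hS
      rcases hadj with h1 | h1
      · exact hab h1.2
      · exfalso; omega
    · exfalso
      obtain ⟨_, _, _, _, _, honly⟩ := hS
      have h2 := honly w (a + 1) (by omega) (by omega) hwE
      simp only at h2
      omega
    · exact h4
  -- (5)
  have h5 : ∃ t x, 2 ≤ t ∧ t ≤ a ∧ a + 3 ≤ x ∧ x ≤ t + a + 1 ∧ x ≤ l ∧
      Split l E (fun i => (1 ≤ i ∧ i < t) ∨ i = x) x (x - 1) := by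
    rcases T2ref h g with ⟨t, ht1, hta, hS⟩ | ⟨u, hu1, hul, hS⟩ | ⟨x, u, hx, hxu, hul, hS⟩ |
      ⟨t, u, ht1, hta, hau, hul, hS⟩ | h5
    · exfalso
      obtain ⟨_, _, _, _, hadj, _⟩ := hS
      rcases hadj with h1 | h1
      · exfalso; omega
      · exact hab h1.2
    · exfalso
      obtain ⟨_, _, _, _, hadj, honly⟩ := hS
      have hE : E (a - 1) a := by
        rcases hadj with h1 | h1
        · exfalso; omega
        · exact h1.2
      have hpa' : p ≤ a - 1 := by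
        by_contra hcon
        exact F4 (a - 1) (by omega) hE
      refine K17_closed h.conn
        (fun i => (i = a ∨ u ≤ i) ∨ ((p ≤ i ∧ i < a) ∨ q ≤ i)) a (a + 1) (by omega)
        (by simp) (by omega) (by omega) ?_
      intro i j hij hjl hE
      have h1 := F i j hij hjl hE
      have h2 := honly i j hij hjl hE
      simp only at h2 ⊢
      by_cases h3 : ((i = a ∨ u ≤ i) ↔ (j = a ∨ u ≤ j))
      · omega
      · have h4 := h2 h3
        omega
    · exfalso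
      obtain ⟨_, _, _, _, _, honly⟩ := hS
      have h2 := honly w (a + 1) (by omega) (by omega) hwE
      simp only at h2
      omega
    · exfalso
      obtain ⟨_, _, _, _, hadj, honly⟩ := hS
      have hE : E (a - 1) a := by
        rcases hadj with h1 | h1
        · exfalso; omega
        · exact h1.2
      have hpa' : p ≤ a - 1 := by
        by_contra hcon
        exact F4 (a - 1) (by omega) hE
      refine K17_closed h.conn
        (fun i => ((1 ≤ i ∧ i < t) ∨ i = a ∨ u ≤ i) ∨ ((p ≤ i ∧ i < a) ∨ q ≤ i)) a (a + 1)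
        (by omega) (by simp) (by omega) (by omega) ?_
      intro i j hij hjl hE
      have h1 := F i j hij hjl hE
      have h2 := honly i j hij hjl hE
      simp only at h2 ⊢
      by_cases h3 : (((1 ≤ i ∧ i < t) ∨ i = a ∨ u ≤ i) ↔ ((1 ≤ j ∧ j < t) ∨ j = a ∨ u ≤ j))
      · omega
      · have h4 := h2 h3
        omega
    · exact h5
  -- (6)
  obtain ⟨t, x, ht, hta, hx, _, _, hS1⟩ := h4
  obtain ⟨t', x', ht', hta', hx', _, _, hS2⟩ := h5
  exact eps_contra h.conn (by omega) ht hta hx hS1 ht' hta' hx' hS2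

end Pool.Agent.H831G
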