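import Pool.Agent.H831G.Defs2
import Pool.Agent.H831G.K0

/-!
Part K18 of the proof for MP_23a060_co (owner helper831).
-/

set_option autoImplicit false

namespace Pool.Agent.H831G


theorem K18_let (c₁ c₂ c₃ c₄ c₅ c₆ v : ℕ) (h12 : c₁ ≤ c₂) (h23 : c₂ ≤ c₃) (h34 : c₃ ≤ c₄) (h45 : c₄ ≤ c₅) (h56 : c₅ ≤ c₆) :
    (v < c₁ ∧ let7 c₁ c₂ c₃ c₄ c₅ c₆ 0 1 2 4 3 1 4 v = 0) ∨ (c₁ ≤ v ∧ v < c₂ ∧ let7 c₁ c₂ c₃ c₄ c₅ c₆ 0 1 2 4 3 1 4 v = 1) ∨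
      (c₂ ≤ v ∧ v < c₃ ∧ let7 c₁ c₂ c₃ c₄ c₅ c₆ 0 1 2 4 3 1 4 v = 2) ∨ (c₃ ≤ v ∧ v < c₄ ∧ let7 c₁ c₂ c₃ c₄ c₅ c₆ 0 1 2 4 3 1 4 v = 4) ∨
      (c₄ ≤ v ∧ v < c₅ ∧ let7 c₁ c₂ c₃ c₄ c₅ c₆ 0 1 2 4 3 1 4 v = 3) ∨ (c₅ ≤ v ∧ v < c₆ ∧ let7 c₁ c₂ c₃ c₄ c₅ c₆ 0 1 2 4 3 1 4 v = 1) ∨
      (c₆ ≤ v ∧ let7 c₁ c₂ c₃ c₄ c₅ c₆ 0 1 2 4 3 1 4 v = 4) := by
  unfold let7
  split_ifs <;> omega


theorem kill_B1 {l a : ℕ} {E : ℕ → ℕ → Prop} (h : Leaf l E a (a + 1)) (ha : 2 ≤ a)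
    (hab : E a (a + 1)) (h1 : ∀ i, i < a + 1 → E i (a + 1) → i = 0 ∨ i = a)
    (h2 : ∀ j, a + 1 < j → j ≤ l → ¬ E (a + 1) j) : ¬ Good 3 (l + 1) E := by
  intro g
  obtain ⟨hc, _, _, hb, zb, al, zo, lo⟩ := h
  obtain ⟨c₁, c₂, c₃, c₄, c₅, c₆, k1, k2, k3, k4, k5, k6, k7, k8, k9, k10, k11, k12, k13, hR⟩ :=
    runs7 g a 1 a 1 1 (l - a - 1) (l - a - 1) 0 1 2 4 3 1 4 (by omega) (by norm_num) (by norm_num) (by norm_num)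
      (by norm_num) (by norm_num) (by norm_num) (by norm_num)
  have hL := fun v => K18_let c₁ c₂ c₃ c₄ c₅ c₆ v k2 k4 k6 k8 k10
  have r1 := hR 0 (a + 1) (by omega) (by omega) zb
  have r2 := hR a l (by omega) le_rfl al
  have r3 := hR a (a + 1) (by omega) (by omega) hab
  have Ll := hL l
  have La := hL a
  have L0 := hL 0
  have Lb := hL (a + 1)
  generalize let7 c₁ c₂ c₃ c₄ c₅ c₆ 0 1 2 4 3 1 4 l = ll at r2 Ll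
  generalize let7 c₁ c₂ c₃ c₄ c₅ c₆ 0 1 2 4 3 1 4 a = la at r2 r3 La
  generalize let7 c₁ c₂ c₃ c₄ c₅ c₆ 0 1 2 4 3 1 4 0 = l0 at r1 L0
  generalize let7 c₁ c₂ c₃ c₄ c₅ c₆ 0 1 2 4 3 1 4 (a + 1) = lb at r1 r3 Lb
  unfold radj at r1 r2 r3
  have hc2 : c₂ = 0 := by omega
  have hc3 : 1 ≤ c₃ := by omega
  have hc3a : c₃ = a := by omega
  have hc4 : c₄ = a + 1 := by omega
  have hc5 : c₅ = a + 2 := by omega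
  have hl6 : c₆ ≤ l := by omega
  obtain ⟨p, q, hpq, hq, hE, hS⟩ := hc (fun v => (1 ≤ v ∧ v < a) ∨ (a + 2 ≤ v ∧ v < c₆)) ⟨1, by omega, by omega⟩ ⟨0, by omega, by omega⟩
  by_cases hp0 : p = 0
  · subst hp0
    have := zo q hpq (by omega) hE
    omega
  · by_cases hqb : q = a + 1
    · subst hqb
      have := h1 p hpq hE
      omega
    · by_cases hpb : p = a + 1
      · subst hpb
        exact h2 q hpq (by omega) hE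
      · have r := hR p q hpq (by omega) hE
        have Lp := hL p
        have Lq := hL q
        generalize let7 c₁ c₂ c₃ c₄ c₅ c₆ 0 1 2 4 3 1 4 p = lp at r Lp
        generalize let7 c₁ c₂ c₃ c₄ c₅ c₆ 0 1 2 4 3 1 4 q = lq at r Lq
        unfold radj at r
        omega

end Pool.Agent.H831G

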