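import Pool.Agent.H831G.Defs2
import Pool.Agent.H831G.K11
import Pool.Agent.H831G.K12

/-!
Part K19 of the proof for MP_23a060_co (owner helper831).
-/

set_option autoImplicit false

namespace Pool.Agent.H831G



theorem Dlike {l a s : ℕ} {E : ℕ → ℕ → Prop} (h : Leaf l E a (a + 1)) (g : Good 3 (l + 1) E)
    (hD : Split l E (fun i => i = a ∨ a + 2 ≤ i) a (a + 1)) (h1 : 1 ≤ s) (h2 : s + 1 ≤ a) :
    Split l E (fun i => i = s) s (a + 1) := by
  obtain ⟨S, e, t, u, x, y, he, het, hte, htx, hxt, hxy, hyx, hyu, huy, hbu, hul, hS, hSi, he1⟩ :=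
    Tsurv_lt h g (s := s) (by omega)
  obtain ⟨hxl, hyl, hSx, hSy, hxyE, hcr⟩ := id hS
  have hl : a + 1 < l := h.hb
  have ha : 1 ≤ a := h.ha
  have hE0 : E 0 (a + 1) := h.zb
  have hEl : E a l := h.al
  -- step 1
  have s1 : S 0 ↔ S (a + 1) := by
    by_cases hee : e = 1
    · exact (he1 hee).2.2
    · by_contra hne
      rcases hcr 0 (a + 1) (by omega) (by omega) hE0 hne with h' | h' <;> omega
  have s2 : S (a + 1) ↔ x = a + 1 := by
    rw [hSi (a + 1) (by omega) (by omega)]
    constructor
    · rintro (h' | h' | h') <;> omega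
    · intro h'; right; left; omega
  have s3 : S a ↔ a < t ∨ a = x := by
    rw [hSi a (by omega) (by omega)]
    constructor
    · rintro (h' | h' | h') <;> omega
    · rintro (h' | h') <;> omega
  have s4 : S l ↔ u ≤ l := by
    rw [hSi l (by omega) (by omega)]
    constructor
    · rintro (h' | h' | h') <;> omega
    · intro h'; right; right; exact h'
  have s5 : S a ↔ S l := by
    by_contra hne
    have hc1 := hcr a l (by omega) (by omega) hEl hne
    have hxa : x = a ∧ y = l := by
      rcases hc1 with h' | h' <;> omega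
    obtain ⟨hxa, hyl'⟩ := hxa
    have hb' : S (a + 1) := by
      by_contra hnb
      obtain ⟨i, j, hij, hjl, hEij, hW⟩ := h.conn (fun i => ¬ S i ∧ i ≠ l)
        ⟨a + 1, by omega, hnb, by omega⟩ ⟨l, by omega, fun hh => hh.2 rfl⟩
      by_cases hWi : ¬ S i ∧ i ≠ l
      · by_cases hWj : ¬ S j ∧ j ≠ l
        · exact hW ⟨fun _ => hWj, fun _ => hWi⟩
        · by_cases hj : j = l
          · rw [hj] at hEij
            have := h.l_only i (by omega) hEij
            rw [this] at hWi
            exact hWi.1 (by rw [← hxa]; exact hSx)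
          · have hSj : S j := by
              by_contra hh
              exact hWj ⟨hh, hj⟩
            rcases hcr i j hij (by omega) hEij (fun hh => hWi.1 (hh.2 hSj)) with h' | h'
            · exact hWi.1 (by rw [h'.1]; exact hSx)
            · exact hWi.2 (by omega)
      · by_cases hWj : ¬ S j ∧ j ≠ l
        · have hSi' : S i := by
            by_contra hh
            exact hWi ⟨hh, by omega⟩
          rcases hcr i j hij (by omega) hEij (fun hh => hWj.1 (hh.1 hSi')) with h' | h'
          · exact hWj.2 (by omega)
          · exact hWj.1 (by rw [h'.2]; exact hSx)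
        · exact hW ⟨fun hh => absurd hh hWi, fun hh => absurd hh hWj⟩
    have := s2.1 hb'
    omega
  have s0 : e = 0 → (S 0 ↔ 0 < t ∨ 0 = x) := by
    intro he0
    rw [hSi 0 (by omega) (by omega)]
    constructor
    · rintro (h' | h' | h') <;> omega
    · rintro (h' | h') <;> omega
  have s6 : ¬ (x = a ∧ y = a + 1) := by
    rintro ⟨hxa, hyb⟩
    have he0 : e = 0 := by
      by_contra hne
      exact (he1 (by omega)).2.1 hyb
    have hn0 : ¬ S 0 := by
      rw [s1, s2]; omega
    rw [s0 he0] at hn0
    omega
  have s7 : S a ↔ S (a + 1) := by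
    by_contra hne
    have hEab : E a (a + 1) := by
      rcases hD.2.2.2.2.1 with h' | h'
      · exact h'.2
      · omega
    rcases hcr a (a + 1) (by omega) (by omega) hEab hne with h' | h'
    · exact s6 ⟨h'.1.symm, h'.2.symm⟩
    · omega
  have s8 : ¬ S (a + 1) := by
    intro hb'
    have hxb := s2.1 hb'
    have he0 : e = 0 := by
      by_contra hne
      exact (he1 (by omega)).1 hxb
    have := s3.1 (s7.2 hb')
    omega
  have n0 : ¬ S 0 := by rw [s1]; exact s8
  have na : ¬ S a := by rw [s7]; exact s8
  have nl : ¬ S l := by rw [← s5]; exact na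
  have hu : u = l + 1 := by rw [s4] at nl; omega
  have hyb : a + 1 ≤ y := by omega
  have hta : t ≤ a := by rw [s3] at na; omega
  have hxa : x ≠ a := by rw [s3] at na; omega
  have hxb : x ≠ a + 1 := by rw [s2] at s8; exact s8
  have hxlt : x < a := by
    by_contra hge
    have hDx : x = a ∨ a + 2 ≤ x := by right; omega
    have hte' : t ≤ e := by
      by_contra hlt
      have hSe : S e := (hSi e le_rfl (by omega)).2 (Or.inl (by omega))
      have := two_split h.conn hS hD hxl (show e ≤ l by omega) (iff_of_true hSx hSe) hDx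
        (show ¬ (e = a ∨ a + 2 ≤ e) by omega)
      exact na (this.1.2 hSx)
    omega
  have hy : y = a + 1 := by
    by_contra hne
    have hDy : y = a ∨ a + 2 ≤ y := by right; omega
    have hE : E x y := by
      rcases hxyE with h' | h'
      · exact h'.2
      · omega
    have hnx : ¬ (x = a ∨ a + 2 ≤ x) := by omega
    rcases hD.2.2.2.2.2 x y hxy hyl hE (fun hh => hnx (hh.2 hDy)) with h' | h' <;> omega
  have he0 : e = 0 := by
    by_contra hne
    exact (he1 (by omega)).2.1 hy
  have ht0 : t = 0 := by
    rw [s0 he0] at n0; omega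
  have hxs : x = s := by omega
  have hfin : Split l E (fun i => i = s) x y := by
    refine split_congr (fun i hi => ?_) hS
    rw [hSi i (by omega) hi]
    omega
  rw [hxs, hy] at hfin
  exact hfin

end Pool.Agent.H831G
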