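import Pool.Agent.H831G.Defs2
import Pool.Agent.H831G.K0

/-!
Part K2 of the proof for MP_23a060_co (owner helper831).
-/

set_option autoImplicit false

namespace Pool.Agent.H831G


theorem K2_spec (c₁ c₂ c₃ c₄ L₁ L₂ L₃ L₄ L₅ i : ℕ) :
    (i < c₁ ∧ let5 c₁ c₂ c₃ c₄ L₁ L₂ L₃ L₄ L₅ i = L₁) ∨
    (c₁ ≤ i ∧ i < c₂ ∧ let5 c₁ c₂ c₃ c₄ L₁ L₂ L₃ L₄ L₅ i = L₂) ∨
    (c₁ ≤ i ∧ c₂ ≤ i ∧ i < c₃ ∧ let5 c₁ c₂ c₃ c₄ L₁ L₂ L₃ L₄ L₅ i = L₃) ∨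
    (c₁ ≤ i ∧ c₂ ≤ i ∧ c₃ ≤ i ∧ i < c₄ ∧ let5 c₁ c₂ c₃ c₄ L₁ L₂ L₃ L₄ L₅ i = L₄) ∨
    (c₁ ≤ i ∧ c₂ ≤ i ∧ c₃ ≤ i ∧ c₄ ≤ i ∧ let5 c₁ c₂ c₃ c₄ L₁ L₂ L₃ L₄ L₅ i = L₅) := by
  unfold let5
  split_ifs <;> simp <;> omega

/-- TARGET 1 -/
theorem kill_A2a {l u w : ℕ} {E : ℕ → ℕ → Prop} (hu : 1 ≤ u) (huw : u ≤ w) (hw : w < l)
    (hc : Conn (l + 1) E) (h0 : E 0 l) (h1 : E 0 w) (h2 : E u l) : ¬ Good 3 (l + 1) E := by
  intro g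
  obtain ⟨c₁, c₂, c₃, c₄, a1, a2, a3, a4, a5, a6, a7, a8, a9, H⟩ :=
    runs5 g 1 w (l - w) w (l - w) 0 1 2 3 4 (by omega) (by omega) (by omega) (by omega) (by omega) (by omega)
  have e0 := H 0 l (by omega) le_rfl h0
  have e1 := H 0 w (by omega) (by omega) h1
  have e2 := H u l (by omega) le_rfl h2
  clear H h0 h1 h2 hc
  have s0 := K2_spec c₁ c₂ c₃ c₄ 0 1 2 3 4 0
  have sl := K2_spec c₁ c₂ c₃ c₄ 0 1 2 3 4 l
  have sw := K2_spec c₁ c₂ c₃ c₄ 0 1 2 3 4 w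
  have su := K2_spec c₁ c₂ c₃ c₄ 0 1 2 3 4 u
  unfold radj at e0 e1 e2
  generalize let5 c₁ c₂ c₃ c₄ 0 1 2 3 4 0 = x0 at *
  generalize let5 c₁ c₂ c₃ c₄ 0 1 2 3 4 l = xl at *
  generalize let5 c₁ c₂ c₃ c₄ 0 1 2 3 4 w = xw at *
  generalize let5 c₁ c₂ c₃ c₄ 0 1 2 3 4 u = xu at *
  rcases s0 with s0 | s0 | s0 | s0 | s0 <;> rcases sl with sl | sl | sl | sl | sl <;> first | (exfalso; omega) | skip
  all_goals (rcases sw with sw | sw | sw | sw | sw <;> first | (exfalso; omega) | skip)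
  all_goals (rcases su with su | su | su | su | su <;> (exfalso; omega))

/-- TARGET 2 -/
theorem kill_P3 {l x y : ℕ} {E : ℕ → ℕ → Prop} (hx : 1 ≤ x) (hxy : x < y) (hy : y < l)
    (hc : Conn (l + 1) E) (h0 : E 0 l) (h1 : E 0 x) (h2 : E x y)
    (hl : ∀ i, i < l → E i l → i = 0) : ¬ Good 3 (l + 1) E := by
  intro g
  obtain ⟨c₁, c₂, c₃, c₄, a1, a2, a3, a4, a5, a6, a7, a8, a9, H⟩ :=
    runs5 g 1 x (l - x) x (l - x) 0 1 4 3 2 (by omega) (by omega) (by omega) (by omega) (by omega) (by omega)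
  have e0 := H 0 l (by omega) le_rfl h0
  have e1 := H 0 x (by omega) (by omega) h1
  have e2 := H x y (by omega) (by omega) h2
  clear H h0 h1 h2 hc hl
  have s0 := K2_spec c₁ c₂ c₃ c₄ 0 1 4 3 2 0
  have sl := K2_spec c₁ c₂ c₃ c₄ 0 1 4 3 2 l
  have sx := K2_spec c₁ c₂ c₃ c₄ 0 1 4 3 2 x
  have sy := K2_spec c₁ c₂ c₃ c₄ 0 1 4 3 2 y
  unfold radj at e0 e1 e2
  generalize let5 c₁ c₂ c₃ c₄ 0 1 4 3 2 0 = x0 at *
  generalize let5 c₁ c₂ c₃ c₄ 0 1 4 3 2 l = xl at *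
  generalize let5 c₁ c₂ c₃ c₄ 0 1 4 3 2 x = xx at *
  generalize let5 c₁ c₂ c₃ c₄ 0 1 4 3 2 y = xy at *
  rcases s0 with s0 | s0 | s0 | s0 | s0 <;> rcases sl with sl | sl | sl | sl | sl <;> first | (exfalso; omega) | skip
  all_goals (rcases sx with sx | sx | sx | sx | sx <;> first | (exfalso; omega) | skip)
  all_goals (rcases sy with sy | sy | sy | sy | sy <;> (exfalso; omega))

/-- TARGET 3 -/
theorem kill_P2 {l x y : ℕ} {E : ℕ → ℕ → Prop} (hy : 1 ≤ y) (hyx : y < x) (hx : x < l)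
    (hc : Conn (l + 1) E) (h0 : E 0 l) (h1 : E 0 x) (h2 : E y x)
    (hl : ∀ i, i < l → E i l → i = 0) : ¬ Good 3 (l + 1) E := by
  intro g
  obtain ⟨c₁, c₂, c₃, c₄, a1, a2, a3, a4, a5, a6, a7, a8, a9, H⟩ :=
    runs5 g y 1 (l - 1) (l - y) 1 0 1 2 4 3 (by omega) (by omega) (by omega) (by omega) (by omega) (by omega)
  have e0 := H 0 l (by omega) le_rfl h0
  have e1 := H 0 x (by omega) (by omega) h1
  have e2 := H y x (by omega) (by omega) h2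
  clear h0 h1 h2
  have s0 := K2_spec c₁ c₂ c₃ c₄ 0 1 2 4 3 0
  have sl := K2_spec c₁ c₂ c₃ c₄ 0 1 2 4 3 l
  have sx := K2_spec c₁ c₂ c₃ c₄ 0 1 2 4 3 x
  have sy := K2_spec c₁ c₂ c₃ c₄ 0 1 2 4 3 y
  unfold radj at e0 e1 e2
  generalize let5 c₁ c₂ c₃ c₄ 0 1 2 4 3 0 = x0 at e0 e1 e2 s0 sl sx sy
  generalize let5 c₁ c₂ c₃ c₄ 0 1 2 4 3 l = xl at e0 e1 e2 s0 sl sx sy
  generalize let5 c₁ c₂ c₃ c₄ 0 1 2 4 3 x = xx at e0 e1 e2 s0 sl sx sy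
  generalize let5 c₁ c₂ c₃ c₄ 0 1 2 4 3 y = xy at e0 e1 e2 s0 sl sx sy
  rcases s0 with s0 | s0 | s0 | s0 | s0 <;> rcases sl with sl | sl | sl | sl | sl <;> first | (exfalso; omega) | skip
  all_goals (rcases sx with sx | sx | sx | sx | sx <;> first | (exfalso; omega) | skip)
  all_goals (rcases sy with sy | sy | sy | sy | sy <;> first | (exfalso; omega) | skip)
  obtain ⟨i, j, hij, hj, he, hne⟩ := hc (fun i => c₃ ≤ i ∧ i < l) ⟨l - 1, by omega, by omega, by omega⟩ ⟨0, by omega, by omega⟩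
  rcases Nat.lt_or_ge j l with hjl | hjl
  · have h3 := H i j hij (by omega) he
    have hi3 : i < c₃ := by
      by_contra hcon
      exact hne ⟨fun _ => ⟨by omega, hjl⟩, fun _ => ⟨by omega, by omega⟩⟩
    have hj3 : c₃ ≤ j := by
      by_contra hcon
      exact hne ⟨fun h => absurd h.1 (by omega), fun h => absurd h.1 hcon⟩
    have si := K2_spec c₁ c₂ c₃ c₄ 0 1 2 4 3 i
    have sj := K2_spec c₁ c₂ c₃ c₄ 0 1 2 4 3 j
    unfold radj at h3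
    omega
  · have hjl' : j = l := by omega
    subst hjl'
    have := hl i hij he
    subst this
    exact hne ⟨fun h => absurd h.1 (by omega), fun h => absurd h.2 (by omega)⟩

end Pool.Agent.H831G
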