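import Pool.Agent.H831G.Defs2
import Pool.Agent.H831G.K19
import Pool.Agent.H831G.K12
import Pool.Agent.H831G.G6

/-!
Part K20a of the proof for MP_23a060_co (owner helper831).
-/

set_option autoImplicit false

namespace Pool.Agent.H831G



/-- the mirrored leaves -/
theorem K20a_right {l a j : ℕ} {E : ℕ → ℕ → Prop} (h : Leaf l E a (a + 1))
    (g : Good 3 (l + 1) E) (hD : Split l E (fun i => i = a ∨ a + 2 ≤ i) a (a + 1))
    (h1 : a + 2 ≤ j) (h2 : j + 1 ≤ l) : Split l E (fun i => i = j) j a := by
  have hb := h.hb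
  have ha := h.ha
  obtain ⟨a', ha'⟩ : ∃ a', a' = l - (a + 1) := ⟨_, rfl⟩
  have e2 : l - a = a' + 1 := by omega
  have hL : Leaf l (mir (l + 1) E) a' (a' + 1) := by
    have := Leaf_mir h
    rw [← ha', e2] at this
    exact this
  have hG := good_mir g
  have hS := split_mir' hD
  have hS' : Split l (mir (l + 1) E) (fun i => i = a' ∨ a' + 2 ≤ i) (l - (a + 1)) (l - a) := by
    refine split_compl ?_ hS
    intro i hi
    show (i = a' ∨ a' + 2 ≤ i) ↔ ¬ (l - i = a ∨ a + 2 ≤ l - i)
    omega
  rw [← ha', e2] at hS'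
  have hs := Dlike (s := l - j) hL hG hS' (by omega) (by omega)
  have hs2 := split_mir hs
  have e3 : l - (l - j) = j := by omega
  have e4 : l - (a' + 1) = a := by omega
  rw [e3, e4] at hs2
  refine split_congr ?_ hs2
  intro i hi
  show (l - i = l - j) ↔ (i = j)
  omega

theorem dlike_dstar {l a : ℕ} {E : ℕ → ℕ → Prop} (h : Leaf l E a (a + 1))
    (g : Good 3 (l + 1) E) (hD : Split l E (fun i => i = a ∨ a + 2 ≤ i) a (a + 1)) :
    ∀ i j, i < j → j ≤ l → (E i j ↔ dstar a i j) := by
  have hb := h.hb
  have ha := h.ha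
  intro i j hij hjl
  have hEab : E a (a + 1) := by
    obtain ⟨_, _, _, _, he, _⟩ := hD
    rcases he with ⟨_, he⟩ | ⟨h1, _⟩
    · exact he
    · omega
  constructor
  · intro hE
    show (i ≤ a ∧ j = a + 1) ∨ (i = a ∧ a + 1 ≤ j)
    rcases Nat.lt_trichotomy i a with hi | hi | hi
    · -- i < a
      left
      refine ⟨by omega, ?_⟩
      rcases Nat.eq_zero_or_pos i with h0 | h0
      · subst h0
        exact h.z_only j hij hjl hE
      · obtain ⟨_, _, _, _, _, hon⟩ := Dlike h g hD h0 (by omega : i + 1 ≤ a)
        have hne : ¬ ((fun t => t = i) i ↔ (fun t => t = i) j) := by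
          show ¬ (i = i ↔ j = i)
          omega
        rcases hon i j hij hjl hE hne with ⟨_, hj⟩ | ⟨hi', _⟩
        · exact hj
        · omega
    · -- i = a
      right
      omega
    · -- a + 1 ≤ i
      exfalso
      rcases Nat.lt_or_ge j l with hj | hj
      · obtain ⟨_, _, _, _, _, hon⟩ := K20a_right (j := j) h g hD (by omega) (by omega)
        have hne : ¬ ((fun t => t = j) i ↔ (fun t => t = j) j) := by
          show ¬ (i = j ↔ j = j)
          omega
        rcases hon i j hij hjl hE hne with ⟨hi', _⟩ | ⟨hi', _⟩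
        · omega
        · omega
      · have hjl' : j = l := by omega
        subst hjl'
        have := h.l_only i hij hE
        omega
  · intro hd
    have hd' : (i ≤ a ∧ j = a + 1) ∨ (i = a ∧ a + 1 ≤ j) := hd
    rcases hd' with ⟨hi, hj⟩ | ⟨hi, hj⟩
    · subst hj
      rcases Nat.eq_or_lt_of_le hi with hi' | hi'
      · subst hi'
        exact hEab
      · rcases Nat.eq_zero_or_pos i with h0 | h0
        · subst h0
          exact h.zb
        · obtain ⟨_, _, _, _, he, _⟩ := Dlike h g hD h0 (by omega : i + 1 ≤ a)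
          rcases he with ⟨_, he⟩ | ⟨h1, _⟩
          · exact he
          · omega
    · subst hi
      rcases Nat.eq_or_lt_of_le hj with hj' | hj'
      · subst hj'
        exact hEab
      · rcases Nat.lt_or_ge j l with hj2 | hj2
        · obtain ⟨_, _, _, _, he, _⟩ := K20a_right (j := j) h g hD (by omega) (by omega)
          rcases he with ⟨h1, _⟩ | ⟨_, he⟩
          · omega
          · exact he
        · have hjl' : j = l := by omega
          subst hjl'
          exact h.al

end Pool.Agent.H831G

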