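import Pool.Agent.H831G.Defs2
import Pool.Agent.H831G.K14
import Pool.Agent.H831G.K18
import Pool.Agent.H831G.K12
import Pool.Agent.H831G.G6

/-!
Part K20b of the proof for MP_23a060_co (owner helper831).
-/

set_option autoImplicit false

namespace Pool.Agent.H831G



theorem K20b_mir {l : ℕ} {E : ℕ → ℕ → Prop} (i j : ℕ) : mir (l + 1) E i j = E (l - j) (l - i) := by
  simp [mir]

theorem gamma_dlike {l a u : ℕ} {E : ℕ → ℕ → Prop} (h : Leaf l E a (a + 1))
    (g : Good 3 (l + 1) E) (hu : a + 1 < u) (hul : u ≤ l)
    (hG : Split l E (fun i => i = a ∨ u ≤ i) a (a + 1)) :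
    Split l E (fun i => i = a ∨ a + 2 ≤ i) a (a + 1) := by
  have ha1 := h.ha
  have hb := h.hb
  -- the crossing edge
  have hE : E a (a + 1) := by
    rcases hG.2.2.2.2.1 with ⟨_, h1⟩ | ⟨h1, _⟩
    · exact h1
    · omega
  have hcr := hG.2.2.2.2.2
  obtain ⟨a', ha'⟩ : ∃ a', a' = l - (a + 1) := ⟨_, rfl⟩
  have ha'1 : l - a = a' + 1 := by omega
  have hL : Leaf l (mir (l + 1) E) a' (a' + 1) := by
    have := Leaf_mir h
    rwa [← ha', ha'1] at this
  have gM : Good 3 (l + 1) (mir (l + 1) E) := good_mir g
  have hE' : mir (l + 1) E a' (a' + 1) := by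
    rw [K20b_mir]
    have e1 : l - (a' + 1) = a := by omega
    have e2 : l - a' = a + 1 := by omega
    rw [e1, e2]
    exact hE
  have hal := hL.ha
  have hbl := hL.hb
  rcases T1ref hL gM with ⟨t, ht1, ht2, hS⟩ | ⟨u', hu1, hu2, hS⟩ | ⟨x, u', hx, hxu, hu2, hS⟩ |
    ⟨t, x, ht1, ht2, hx1, hx2, hx3, hS⟩
  · exfalso
    have := hS.2.2.2.2.2 a' (a' + 1) (by omega) (by omega) hE' (by omega)
    omega
  · -- second case
    have hT := split_mir hS
    refine split_congr (S := fun i => i = a ∨ u ≤ i) ?_ hG
    intro i hi
    constructor
    · rintro (h1 | h1)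
      · exact Or.inl h1
      · exact Or.inr (by omega)
    · rintro (h1 | h1)
      · exact Or.inl h1
      · by_contra hni
        have key := two_split h.conn hG hT (p := a + 1) (q := i) (by omega) hi
          (by
            constructor
            · intro h2
              omega
            · intro h2
              exact absurd h2 hni)
          (by omega) (by omega)
        have k2 := key.2
        have e2 : l - (a' + 1) = a := by omega
        rw [e2] at k2
        have : a = a ∨ u ≤ a := Or.inl rfl
        have := k2.1 this
        omega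
  · exfalso
    have := hS.2.2.2.2.2 a' (a' + 1) (by omega) (by omega) hE' (by omega)
    omega
  · exfalso
    have hY := split_mir hS
    -- `S (l - 1)` fails
    have hnS : ¬ ((l - 1 = a) ∨ u ≤ l - 1) := by
      intro hS1
      have key := two_split h.conn hG hY (p := l - 1) (q := l) (by omega) (le_refl l)
        (by
          constructor
          · intro _
            exact Or.inr hul
          · intro _
            exact hS1)
        (by omega) (by omega)
      have k1 := key.1
      have := k1.2 hS1
      omega
    have hul' : u = l := by omega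
    subst hul'
    refine kill_B1 hL (by omega) hE' ?_ ?_ gM
    · intro i hi hEi
      rw [K20b_mir] at hEi
      have e1 : u - (a' + 1) = a := by omega
      rw [e1] at hEi
      by_contra hne
      have := hcr a (u - i) (by omega) (by omega) hEi (by omega)
      omega
    · intro j hj hjl hEj
      rw [K20b_mir] at hEj
      have e1 : u - (a' + 1) = a := by omega
      rw [e1] at hEj
      have := hcr (u - j) a (by omega) (by omega) hEj (by omega)
      omega

end Pool.Agent.H831G
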