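import Pool.Agent.H831G.Defs2
import Pool.Agent.H831G.K14
import Pool.Agent.H831G.K15
import Pool.Agent.H831G.K17a
import Pool.Agent.H831G.K20b
import Pool.Agent.H831G.K20a
import Pool.Agent.H831G.K12
import Pool.Agent.H831G.G6

/-!
Part K20c of the proof for MP_23a060_co (owner helper831).
-/

set_option autoImplicit false

namespace Pool.Agent.H831G



/-- auxiliary: only the second alternative of `T1ref` or the first one of `T2ref` survives. -/
theorem K20c_two {l a : ℕ} {E : ℕ → ℕ → Prop} (h : Leaf l E a (a + 1)) (g : Good 3 (l + 1) E)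
    (hab : E a (a + 1)) :
    (∃ u, a + 1 < u ∧ u ≤ l ∧ Split l E (fun i => i = a ∨ u ≤ i) a (a + 1)) ∨
    (∃ t, 1 ≤ t ∧ t ≤ a ∧ Split l E (fun i => i < t ∨ i = a + 1) (a + 1) a) := by
  have ha := h.ha
  have hb := h.hb
  have key : ∀ (S : ℕ → Prop) (x y : ℕ), Split l E S x y → ¬ (S a ↔ S (a + 1)) →
      (a = x ∧ a + 1 = y) ∨ (a = y ∧ a + 1 = x) := fun S x y hS hne =>
    hS.2.2.2.2.2 a (a + 1) (by omega) (by omega) hab hne
  rcases T1ref h g with ⟨t, ht, hta, hS⟩ | hG | ⟨x, u, hx, hxu, hul, hS⟩ |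
    ⟨t, x, ht, hta, hx, _, _, hS⟩
  · exfalso
    have := key _ _ _ hS (by
      show ¬ ((a < t ∨ a = a + 1) ↔ (a + 1 < t ∨ a + 1 = a + 1))
      omega)
    omega
  · exact Or.inl hG
  · exfalso
    have := key _ _ _ hS (by
      show ¬ (((1 ≤ a ∧ a ≤ a) ∨ a = x ∨ u ≤ a) ↔
        ((1 ≤ a + 1 ∧ a + 1 ≤ a) ∨ a + 1 = x ∨ u ≤ a + 1))
      omega)
    omega
  · rcases T2ref h g with hB | ⟨u, hu, _, hS'⟩ | ⟨x', u, hx', hxu, _, hS'⟩ |
      ⟨t', u, ht', hta', hu, _, hS'⟩ | ⟨t', x', ht', hta', hx', _, _, hS'⟩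
    · exact Or.inr hB
    · exfalso
      have := key _ _ _ hS' (by
        show ¬ ((a = a ∨ u ≤ a) ↔ (a + 1 = a ∨ u ≤ a + 1))
        omega)
      omega
    · exfalso
      have := key _ _ _ hS' (by
        show ¬ (((1 ≤ a ∧ a ≤ a) ∨ a = x' ∨ u ≤ a) ↔
          ((1 ≤ a + 1 ∧ a + 1 ≤ a) ∨ a + 1 = x' ∨ u ≤ a + 1))
        omega)
      omega
    · exfalso
      have := key _ _ _ hS' (by
        show ¬ (((1 ≤ a ∧ a < t') ∨ a = a ∨ u ≤ a) ↔
          ((1 ≤ a + 1 ∧ a + 1 < t') ∨ a + 1 = a ∨ u ≤ a + 1))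
        omega)
      omega
    · exact (eps_contra h.conn (by omega) ht hta hx hS ht' hta' hx' hS').elim


theorem class_ab {l a : ℕ} {E : ℕ → ℕ → Prop} (h : Leaf l E a (a + 1)) (g : Good 3 (l + 1) E)
    (hab : E a (a + 1)) : ∀ i j, i < j → j ≤ l → (E i j ↔ dstar a i j) := by
  have ha := h.ha
  have hb := h.hb
  rcases K20c_two h g hab with ⟨u, hu, hul, hG⟩ | ⟨t, ht, hta, hB⟩
  · exact dlike_dstar h g (gamma_dlike h g hu hul hG)
  · have h' : Leaf l (mir (l + 1) E) (l - (a + 1)) (l - (a + 1) + 1) := by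
      have h1 := Leaf_mir h
      have h2 : l - a = l - (a + 1) + 1 := by omega
      rwa [h2] at h1
    have g' : Good 3 (l + 1) (mir (l + 1) E) := good_mir g
    have hG : Split l (mir (l + 1) E) (fun i => i = l - (a + 1) ∨ l - t + 1 ≤ i)
        (l - (a + 1)) (l - (a + 1) + 1) := by
      have h1 := split_mir' hB
      have h2 : l - a = l - (a + 1) + 1 := by omega
      rw [h2] at h1
      refine split_congr (fun i hi => ?_) h1
      show (l - i < t ∨ l - i = a + 1) ↔ (i = l - (a + 1) ∨ l - t + 1 ≤ i)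
      omega
    have h1 := dlike_dstar h' g' (gamma_dlike h' g' (by omega) (by omega) hG)
    intro i j hij hjl
    have h2 := h1 (l - j) (l - i) (by omega) (by omega)
    have h3 : mir (l + 1) E (l - j) (l - i) = E i j := by
      have e1 : l + 1 - 1 - (l - i) = i := by omega
      have e2 : l + 1 - 1 - (l - j) = j := by omega
      show E (l + 1 - 1 - (l - i)) (l + 1 - 1 - (l - j)) = E i j
      rw [e1, e2]
    rw [h3] at h2
    rw [h2]
    unfold dstar
    omega

end Pool.Agent.H831G
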