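import Pool.Agent.H831G.Defs2
import Pool.Agent.H831G.K2

/-!
Part K21a of the proof for MP_23a060_co (owner helper831).
-/

set_option autoImplicit false

namespace Pool.Agent.H831G



theorem starL_case {l : ℕ} {E : ℕ → ℕ → Prop} (hl : 2 ≤ l) (hc : Conn (l + 1) E)
    (g : Good 3 (l + 1) E) (h0 : E 0 l) (hN : ∀ i, i < l → E i l → i = 0) :
    ∀ i j, i < j → j ≤ l → (E i j ↔ i = 0) := by
  have hall : ∀ y, y ≤ l → (y = 0 ∨ (0 < y ∧ E 0 y)) := by
    by_contra hcon
    push Not at hcon
    obtain ⟨y, hy, hy1⟩ := hcon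
    obtain ⟨i, j, hij, hj, hE, hS⟩ := hc (fun i => i = 0 ∨ (0 < i ∧ E 0 i)) ⟨0, by omega, Or.inl rfl⟩
      ⟨y, by omega, by
        rintro (h | h)
        · exact hy1.1 h
        · exact hy1.2 h.1 h.2⟩
    have hi0 : i ≠ 0 := by
      rintro rfl
      exact hS ⟨fun _ => Or.inr ⟨hij, hE⟩, fun _ => Or.inl rfl⟩
    have hjl : j ≠ l := by
      rintro rfl
      exact hi0 (hN i hij hE)
    by_cases hSi : 0 < i ∧ E 0 i
    · exact kill_P3 (x := i) (y := j) (by omega) hij (by omega) hc h0 hSi.2 hE hN g
    · have hSj : E 0 j := by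
        by_contra hj2
        apply hS
        constructor
        · rintro (h | h)
          · exact absurd h hi0
          · exact absurd h hSi
        · rintro (h | h)
          · omega
          · exact absurd h.2 hj2
      exact kill_P2 (x := j) (y := i) (by omega) hij (by omega) hc h0 hSj hE hN g
  intro i j hij hj
  constructor
  · intro hE
    by_contra hi0
    have hjl : j ≠ l := by
      rintro rfl
      exact hi0 (hN i hij hE)
    rcases hall i (by omega) with h | h
    · exact hi0 h
    · exact kill_P3 (x := i) (y := j) (by omega) hij (by omega) hc h0 h.2 hE hN g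
  · rintro rfl
    rcases hall j hj with h | h
    · omega
    · exact h.2

end Pool.Agent.H831G
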