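import Pool.Agent.H831G.Defs2
import Pool.Agent.H831G.K0

/-!
Part K5 of the proof for MP_23a060_co (owner helper831).
-/

set_option autoImplicit false

namespace Pool.Agent.H831G


theorem K5_cross {c₁ c₂ c₃ c₄ c₅ c₆ p q : ℕ} (h12 : c₁ ≤ c₂) (h12' : c₂ ≤ c₁ + 1) (h23 : c₂ ≤ c₃)
    (h34 : c₃ ≤ c₄) (h45 : c₄ ≤ c₅) (h45' : c₅ ≤ c₄ + 1)
    (hp : p < c₃) (hq : c₃ ≤ q) (hq' : q < c₆)
    (h : radj (let7 c₁ c₂ c₃ c₄ c₅ c₆ 1 2 1 4 3 4 0 p) (let7 c₁ c₂ c₃ c₄ c₅ c₆ 1 2 1 4 3 4 0 q)) :
    p = c₁ ∧ c₂ = c₁ + 1 ∧ q = c₄ ∧ c₅ = c₄ + 1 := by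
  unfold let7 radj at h
  have a1 : ¬ q < c₁ := by omega
  have a2 : ¬ q < c₂ := by omega
  have a3 : ¬ q < c₃ := by omega
  rw [if_neg a1, if_neg a2, if_neg a3] at h
  by_cases b1 : p < c₁
  · rw [if_pos b1] at h
    by_cases b2 : q < c₄
    · rw [if_pos b2] at h
      omega
    · rw [if_neg b2] at h
      by_cases b3 : q < c₅
      · rw [if_pos b3] at h
        omega
      · rw [if_neg b3, if_pos hq'] at h
        omega
  · rw [if_neg b1] at h
    by_cases b4 : p < c₂
    · rw [if_pos b4] at h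
      by_cases b2 : q < c₄
      · rw [if_pos b2] at h
        omega
      · rw [if_neg b2] at h
        by_cases b3 : q < c₅
        · omega
        · rw [if_neg b3, if_pos hq'] at h
          omega
    · rw [if_neg b4, if_pos hp] at h
      by_cases b2 : q < c₄
      · rw [if_pos b2] at h
        omega
      · rw [if_neg b2] at h
        by_cases b3 : q < c₅
        · rw [if_pos b3] at h
          omega
        · rw [if_neg b3, if_pos hq'] at h
          omega

/-- TARGET -/
theorem PQ_surv {l u a b : ℕ} {E : ℕ → ℕ → Prop} (hu1 : u < a) (hb : b < l)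
    (hc : Conn (l + 1) E) (h1 : E u l) (h2 : E a l) (h3 : E 0 b)
    (hN : ∀ i, i < l → E i l → u ≤ i ∧ i ≤ a) (h0 : ∀ j, 0 < j → j ≤ l → E 0 j → a < j ∧ j ≤ b)
    (g : Good 3 (l + 1) E) :
    (∃ i, 1 ≤ i ∧ b ≤ u + i ∧ i ≤ b ∧ i + a ≤ l ∧
      ∀ p q, p < i → i ≤ q → q < l → E p q → p = 0 ∧ q = b) ∨
    (∃ i x y, b < i ∧ i ≤ y ∧ y < l ∧ x < a ∧ ¬ E x l ∧ i + a ≤ x + l ∧ y ≤ i + u ∧ E x y ∧
      ∀ p q, p < i → i ≤ q → q < l → E p q → p = x ∧ q = y) := by
  have hb0 : 0 < b := by
    by_contra hb0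
    have hb0' : b = 0 := by omega
    obtain ⟨i, j, hij, hj, he, hs⟩ := hc (fun v => v = 0) ⟨0, by omega, rfl⟩
      ⟨1, by omega, by omega⟩
    have hi : i = 0 := by
      by_contra hi
      exact hs ⟨fun h => absurd h hi, fun h => by
        have h' : j = 0 := h
        omega⟩
    subst hi
    have := h0 j hij (by omega) he
    omega
  have hab : a < b := (h0 b hb0 (by omega) h3).1
  obtain ⟨c₁, c₂, c₃, c₄, c₅, c₆, k1, k2, k3, k4, k5, k6, k7, k8, k9, k10, k11, k12, k13, hr⟩ :=
    runs7 g a 1 (l - 1 - a) u 1 (l - 1 - u) 1 1 2 1 4 3 4 0 (by omega) (by norm_num)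
      (by norm_num) (by norm_num) (by norm_num) (by norm_num) (by norm_num) (by norm_num)
  have hcross : ∀ p q, p < c₃ → c₃ ≤ q → q < c₆ → q ≤ l → E p q →
      p = c₁ ∧ c₂ = c₁ + 1 ∧ q = c₄ ∧ c₅ = c₄ + 1 := fun p q hp hq hq' hql he =>
    K5_cross k2 k3 k4 k6 k8 k9 hp hq hq' (hr p q (by omega) hql he)
  by_cases h6 : c₆ = l
  · -- `l ∈ A`
    have hA : ∀ p, p < l → E p l → ¬ (p = c₁ ∧ c₂ = c₁ + 1) ∧ ¬ (p = c₄ ∧ c₅ = c₄ + 1) := by
      intro p hp he
      have h := hr p l hp le_rfl he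
      have e : let7 c₁ c₂ c₃ c₄ c₅ c₆ 1 2 1 4 3 4 0 l = 0 := by
        unfold let7
        rw [if_neg (by omega), if_neg (by omega), if_neg (by omega), if_neg (by omega),
          if_neg (by omega), if_neg (by omega)]
      rw [e] at h
      constructor
      · rintro ⟨e1, e2⟩
        have e' : let7 c₁ c₂ c₃ c₄ c₅ c₆ 1 2 1 4 3 4 0 p = 2 := by
          unfold let7
          rw [if_neg (by omega), if_pos (by omega)]
        rw [e'] at h
        unfold radj at h
        omega
      · rintro ⟨e1, e2⟩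
        have e' : let7 c₁ c₂ c₃ c₄ c₅ c₆ 1 2 1 4 3 4 0 p = 3 := by
          unfold let7
          rw [if_neg (by omega), if_neg (by omega), if_neg (by omega), if_neg (by omega),
            if_pos (by omega)]
        rw [e'] at h
        unfold radj at h
        omega
    have hil : c₃ ≠ l := by
      intro h
      exact (hA a (by omega) h2).1 ⟨by omega, by omega⟩
    have hi0 : c₃ ≠ 0 := by
      intro h
      exact (hA u (by omega) h1).2 ⟨by omega, by omega⟩
    by_cases hib : c₃ ≤ b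
    · left
      obtain ⟨e1, e2, e3, e4⟩ := hcross 0 b (by omega) hib (by omega) (by omega) h3
      refine ⟨c₃, by omega, by omega, hib, by omega, fun p q hp hq hql he => ?_⟩
      obtain ⟨f1, f2, f3, f4⟩ := hcross p q hp hq (by omega) (by omega) he
      omega
    · right
      obtain ⟨x, y, hxy, hy, he, hs⟩ := hc (fun v => c₃ ≤ v ∧ v < l) ⟨c₃, by omega, by omega⟩
        ⟨0, by omega, by omega⟩
      have hx : x < c₃ := by
        by_contra hx
        by_cases hyl : y < l
        · exact hs ⟨fun _ => ⟨by omega, hyl⟩, fun _ => ⟨by omega, by omega⟩⟩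
        · have hyl' : y = l := by omega
          subst hyl'
          have := hN x hxy he
          omega
      have hy' : c₃ ≤ y ∧ y < l := by
        by_contra hy'
        exact hs ⟨fun h => by
          have h' : c₃ ≤ x ∧ x < l := h
          omega, fun h => absurd h hy'⟩
      obtain ⟨e1, e2, e3, e4⟩ := hcross x y hx hy'.1 (by omega) (by omega) he
      have hnx : ¬ E x l := fun h => (hA x (by omega) h).1 ⟨e1, e2⟩
      have hxa : x ≠ a := by
        intro h
        rw [h] at hnx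
        exact hnx h2
      refine ⟨c₃, x, y, by omega, hy'.1, hy'.2, by omega, hnx, by omega, by omega, he,
        fun p q hp hq hql he' => ?_⟩
      obtain ⟨f1, f2, f3, f4⟩ := hcross p q hp hq (by omega) (by omega) he'
      omega
  · -- `l ∉ A`
    have h6' : c₆ = l + 1 := by omega
    left
    have hca : c₃ ≤ a := by
      by_contra hca
      have f := hcross a l (by omega) (by omega) (by omega) le_rfl h2
      have f' := hcross u l (by omega) (by omega) (by omega) le_rfl h1
      omega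
    have hi0 : 1 ≤ c₃ := by omega
    obtain ⟨e1, e2, e3, e4⟩ := hcross 0 b (by omega) (by omega) (by omega) (by omega) h3
    refine ⟨c₃, hi0, by omega, by omega, by omega, fun p q hp hq hql he => ?_⟩
    obtain ⟨f1, f2, f3, f4⟩ := hcross p q hp hq (by omega) (by omega) he
    omega

end Pool.Agent.H831G
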