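import Pool.Agent.H831G.Defs2
import Pool.Agent.H831G.K0

/-!
Part K6 of the proof for MP_23a060_co (owner helper831).
-/

set_option autoImplicit false

namespace Pool.Agent.H831G


theorem K6_cls (c₁ c₂ c₃ c₄ c₅ x : ℕ) :
    (x < c₁ ∧ let6 c₁ c₂ c₃ c₄ c₅ 0 1 3 2 3 4 x = 0) ∨
    (c₁ ≤ x ∧ x < c₂ ∧ let6 c₁ c₂ c₃ c₄ c₅ 0 1 3 2 3 4 x = 1) ∨
    (c₁ ≤ x ∧ c₂ ≤ x ∧ x < c₃ ∧ let6 c₁ c₂ c₃ c₄ c₅ 0 1 3 2 3 4 x = 3) ∨
    (c₁ ≤ x ∧ c₂ ≤ x ∧ c₃ ≤ x ∧ x < c₄ ∧ let6 c₁ c₂ c₃ c₄ c₅ 0 1 3 2 3 4 x = 2) ∨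
    (c₁ ≤ x ∧ c₂ ≤ x ∧ c₃ ≤ x ∧ c₄ ≤ x ∧ x < c₅ ∧ let6 c₁ c₂ c₃ c₄ c₅ 0 1 3 2 3 4 x = 3) ∨
    (c₁ ≤ x ∧ c₂ ≤ x ∧ c₃ ≤ x ∧ c₄ ≤ x ∧ c₅ ≤ x ∧ let6 c₁ c₂ c₃ c₄ c₅ 0 1 3 2 3 4 x = 4) := by
  unfold let6
  split_ifs <;> omega

/-- TARGET -/
theorem kill_S1 {l u a b i : ℕ} {E : ℕ → ℕ → Prop} (hu1 : u < a) (hb : b < l)
    (hc : Conn (l + 1) E) (h1 : E u l) (h2 : E a l) (h3 : E 0 b)
    (hN : ∀ i, i < l → E i l → u ≤ i ∧ i ≤ a) (h0 : ∀ j, 0 < j → j ≤ l → E 0 j → a < j ∧ j ≤ b)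
    (hi1 : 1 ≤ i) (hi2 : b ≤ u + i) (hi3 : i ≤ b) (hi4 : i + a ≤ l)
    (hcut : ∀ p q, p < i → i ≤ q → q < l → E p q → p = 0 ∧ q = b) : ¬ Good 3 (l + 1) E := by
  intro g
  have hbp : 0 < b := by omega
  have hab : a < b := (h0 b hbp hb.le h3).1
  have hui : u < i := by
    obtain ⟨p, q, hpq, hq, he, hS⟩ := hc (fun x => 1 ≤ x ∧ x < i) ⟨1, by omega, by omega, by omega⟩
      ⟨0, by omega, by omega⟩
    by_contra hcon
    push Not at hcon
    rcases Nat.eq_zero_or_pos p with hp | hp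
    · subst hp
      have h5 := h0 q hpq (by omega) he
      apply hS
      constructor <;> intro h <;> omega
    · by_cases hpi : p < i
      · have hqi : i ≤ q := by
          by_contra hcon2
          apply hS
          constructor <;> intro h <;> omega
        by_cases hql : q < l
        · have h5 := hcut p q hpi hqi hql he
          omega
        · have hq' : q = l := by omega
          subst hq'
          have h5 := hN p hpq he
          omega
      · apply hS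
        constructor <;> intro h <;> omega
  obtain ⟨c₁, c₂, c₃, c₄, c₅, k1, k2, k3, k4, k5, k6, k7, k8, k9, k10, k11, key⟩ :=
    runs6 g a (l - a) u 1 (b - u) (l - b) 0 1 3 2 3 4 (by omega) (by norm_num) (by norm_num)
      (by norm_num) (by norm_num) (by norm_num) (by norm_num)
  have e1 := key u l (by omega) le_rfl h1
  have e2 := key a l (by omega) le_rfl h2
  have e3 := key 0 b (by omega) (by omega) h3
  have dl := K6_cls c₁ c₂ c₃ c₄ c₅ l
  have du := K6_cls c₁ c₂ c₃ c₄ c₅ u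
  have da := K6_cls c₁ c₂ c₃ c₄ c₅ a
  have d0 := K6_cls c₁ c₂ c₃ c₄ c₅ 0
  have db := K6_cls c₁ c₂ c₃ c₄ c₅ b
  unfold radj at e1 e2 e3
  generalize let6 c₁ c₂ c₃ c₄ c₅ 0 1 3 2 3 4 l = xl at *
  generalize let6 c₁ c₂ c₃ c₄ c₅ 0 1 3 2 3 4 u = xu at *
  generalize let6 c₁ c₂ c₃ c₄ c₅ 0 1 3 2 3 4 a = xa at *
  generalize let6 c₁ c₂ c₃ c₄ c₅ 0 1 3 2 3 4 0 = x0 at *
  generalize let6 c₁ c₂ c₃ c₄ c₅ 0 1 3 2 3 4 b = xb at *
  have claim : (c₁ = 0 ∧ 2 ≤ c₂ ∧ c₂ ≤ u ∧ c₃ = b) ∨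
      (c₃ = l ∧ c₄ = l + 1 ∧ b < c₂ ∧ 1 ≤ c₁ ∧ c₁ ≤ u ∧ c₂ < l) := by
    rcases dl with dl | dl | dl | dl | dl | dl
    · omega
    · omega
    · rcases db with db | db | db | db | db | db <;> omega
    · rcases db with db | db | db | db | db | db <;> omega
    · rcases d0 with d0 | d0 | d0 | d0 | d0 | d0 <;> omega
    · rcases d0 with d0 | d0 | d0 | d0 | d0 | d0 <;> omega
  rcases claim with ⟨m1, m2, m3, m4⟩ | ⟨m1, m2, m3, m4, m5, m6⟩
  · obtain ⟨p, q, hpq, hq, he, hS⟩ := hc (fun x => 1 ≤ x ∧ x < c₂)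
      ⟨1, by omega, by omega, by omega⟩ ⟨0, by omega, by omega⟩
    rcases Nat.eq_zero_or_pos p with hp | hp
    · subst hp
      have h5 := h0 q hpq (by omega) he
      apply hS
      constructor <;> intro h <;> omega
    · by_cases hpc : p < c₂
      · have hqc : c₂ ≤ q := by
          by_contra hcon2
          apply hS
          constructor <;> intro h <;> omega
        have h5 := key p q hpq (by omega) he
        have dp := K6_cls c₁ c₂ c₃ c₄ c₅ p
        have dq := K6_cls c₁ c₂ c₃ c₄ c₅ q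
        unfold radj at h5
        have hqb : q = b := by omega
        subst hqb
        have h6 := hcut p q (by omega) (by omega) (by omega) he
        omega
      · apply hS
        constructor <;> intro h <;> omega
  · obtain ⟨p, q, hpq, hq, he, hS⟩ := hc (fun x => c₂ ≤ x ∧ x < l)
      ⟨c₂, by omega, le_rfl, m6⟩ ⟨0, by omega, by omega⟩
    by_cases hql : q < l
    · have hpc : p < c₂ := by
        by_contra hcon2
        apply hS
        constructor <;> intro h <;> omega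
      have hqc : c₂ ≤ q := by
        by_contra hcon2
        apply hS
        constructor <;> intro h <;> omega
      have h5 := key p q hpq (by omega) he
      have dp := K6_cls c₁ c₂ c₃ c₄ c₅ p
      have dq := K6_cls c₁ c₂ c₃ c₄ c₅ q
      unfold radj at h5
      omega
    · have hq' : q = l := by omega
      subst hq'
      have h5 := hN p hpq he
      apply hS
      constructor <;> intro h <;> omega

end Pool.Agent.H831G
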