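import Pool.Agent.H831G.Defs2
import Pool.Agent.H831G.K0

/-!
Part K7 of the proof for MP_23a060_co (owner helper831).
-/


set_option autoImplicit false

namespace Pool.Agent.H831G


theorem K7_forb {c₁ c₂ c₃ c₄ c₅ p q : ℕ} (h12 : c₁ ≤ c₂) (h23 : c₂ ≤ c₃) (h34 : c₃ ≤ c₄)
    (h45 : c₄ ≤ c₅) (hpq : p < q)
    (h : radj (let6 c₁ c₂ c₃ c₄ c₅ 0 1 0 2 3 4 p) (let6 c₁ c₂ c₃ c₄ c₅ 0 1 0 2 3 4 q)) :
    (p < c₃ → c₃ ≤ q → q < c₅ → c₁ ≤ p ∧ p < c₂) ∧
    (c₁ ≤ p → p < c₂ → q < c₄) ∧ (c₃ ≤ p → p < c₄ → q < c₅) := by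
  unfold radj let6 at h
  refine ⟨fun h1 h2 h3 => ?_, fun h1 h2 => ?_, fun h1 h2 => ?_⟩
  · split_ifs at h
    all_goals first
      | omega
      | simp at h
  · split_ifs at h
    all_goals first
      | omega
      | simp at h
  · split_ifs at h
    all_goals first
      | omega
      | simp at h

/-- TARGET -/
theorem kill_S2a {l u a b i x y : ℕ} {E : ℕ → ℕ → Prop} (hu1 : u < a) (hb : b < l)
    (hc : Conn (l + 1) E) (h1 : E u l) (h2 : E a l) (h3 : E 0 b)
    (hN : ∀ i, i < l → E i l → u ≤ i ∧ i ≤ a) (h0 : ∀ j, 0 < j → j ≤ l → E 0 j → a < j ∧ j ≤ b)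
    (hi : b < i) (hiy : i ≤ y) (hy : y < l) (hxa : x < a) (hux : u < x) (hx : ¬ E x l)
    (h5 : i + a ≤ x + l) (h6 : y ≤ i + u) (h7 : E x y)
    (hcut : ∀ p q, p < i → i ≤ q → q < l → E p q → p = x ∧ q = y) : ¬ Good 3 (l + 1) E := by
  intro g
  by_cases hab : a < b
  swap
  · have hb0 : 0 < b ∨ b = 0 := by omega
    rcases hb0 with hb0 | hb0
    · have := h0 b hb0 hb.le h3
      omega
    · obtain ⟨p, q, hpq, hq, hpE, hne⟩ := hc (fun v => v = 0) ⟨0, by omega, rfl⟩
        ⟨l, by omega, by omega⟩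
      by_cases hp0 : p = 0
      · subst hp0
        have := h0 q hpq (by omega) hpE
        omega
      · exact hne ⟨fun h => absurd h hp0, fun h => by omega⟩
  obtain ⟨c₁, c₂, c₃, c₄, c₅, k1, k2, k3, k4, k5, k6, k7, k8, k9, k10, k11, hE⟩ :=
    runs6 g u 1 (l - u - 1) x (l - x) 1 0 1 0 2 3 4 (by omega) (by omega) (by omega) (by omega)
      (by omega) (by omega) (by omega)
  have F : ∀ p q, p < q → q ≤ l → E p q →
      (p < c₃ → c₃ ≤ q → q < c₅ → c₁ ≤ p ∧ p < c₂) ∧
      (c₁ ≤ p → p < c₂ → q < c₄) ∧ (c₃ ≤ p → p < c₄ → q < c₅) :=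
    fun p q h h' h'' => K7_forb k2 k4 k6 k8 h (hE p q h h' h'')
  have e1 := F u l (by omega) le_rfl h1
  have e2 := F a l (by omega) le_rfl h2
  have e3 := F 0 b (by omega) hb.le h3
  have e4 := F x y (by omega) hy.le h7
  by_cases h5l : c₅ = l + 1
  · by_cases h12 : c₁ = c₂
    · obtain ⟨p, q, hpq, hq, hpE, hne⟩ := hc (fun v => v < c₃) ⟨0, by omega, by omega⟩
        ⟨l, by omega, by omega⟩
      have := F p q hpq (by omega) hpE
      by_cases h8 : p < c₃
      · by_cases h9 : q < c₃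
        · exact hne ⟨fun _ => h9, fun _ => h8⟩
        · omega
      · exact hne ⟨fun h => absurd h h8, fun h => by omega⟩
    · -- c₂ = c₁ + 1
      by_cases h13 : c₁ = 0 ∧ 1 < c₃ ∧ c₃ ≤ l
      · obtain ⟨h14, h15, h16⟩ := h13
        obtain ⟨p, q, hpq, hq, hpE, hne⟩ := hc (fun v => 1 ≤ v ∧ v < c₃) ⟨1, by omega, by omega⟩
          ⟨l, by omega, by omega⟩
        have := F p q hpq (by omega) hpE
        have hh : p = 0 → a < q := fun hp => by
          subst hp
          exact (h0 q hpq (by omega) hpE).1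
        by_cases h8 : 1 ≤ p ∧ p < c₃
        · by_cases h9 : 1 ≤ q ∧ q < c₃
          · exact hne ⟨fun _ => h9, fun _ => h8⟩
          · omega
        · by_cases h9 : 1 ≤ q ∧ q < c₃
          · by_cases hp0 : p = 0
            · have := hh hp0
              omega
            · omega
          · exact hne ⟨fun h => absurd h h8, fun h => absurd h h9⟩
      · omega
  · have h5l' : c₅ = l := by omega
    by_cases h12 : c₃ < l ∧ 0 < c₃
    · obtain ⟨p, q, hpq, hq, hpE, hne⟩ := hc (fun v => c₃ ≤ v ∧ v < l) ⟨c₃, by omega, by omega⟩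
        ⟨l, by omega, by omega⟩
      have := F p q hpq (by omega) hpE
      have hNl : q = l → p < l → u ≤ p ∧ p ≤ a := fun hq hp => by
        subst hq
        exact hN p hp hpE
      have h00 : p = 0 → a < q ∧ q ≤ b := fun hp => by
        subst hp
        exact h0 q hpq (by omega) hpE
      have hcc : p < i → i ≤ q → q < l → p = x ∧ q = y := fun h h' h'' => hcut p q h h' h'' hpE
      by_cases h8 : c₃ ≤ p ∧ p < l
      · by_cases h9 : c₃ ≤ q ∧ q < l
        · exact hne ⟨fun _ => h9, fun _ => h8⟩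
        · omega
      · by_cases h9 : c₃ ≤ q ∧ q < l
        · omega
        · exact hne ⟨fun h => absurd h h8, fun h => absurd h h9⟩
    · omega

end Pool.Agent.H831G
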