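import Pool.Agent.H831G.Defs2
import Pool.Agent.H831G.K0

/-!
Part K8 of the proof for MP_23a060_co (owner helper831).
-/

set_option autoImplicit false

namespace Pool.Agent.H831G


theorem K8_let (c₁ c₂ c₃ c₄ v : ℕ) (h12 : c₁ ≤ c₂) (h23 : c₂ ≤ c₃) (h34 : c₃ ≤ c₄) :
    (v < c₁ ∧ let5 c₁ c₂ c₃ c₄ 0 1 3 2 4 v = 0) ∨ (c₁ ≤ v ∧ v < c₂ ∧ let5 c₁ c₂ c₃ c₄ 0 1 3 2 4 v = 1) ∨
      (c₂ ≤ v ∧ v < c₃ ∧ let5 c₁ c₂ c₃ c₄ 0 1 3 2 4 v = 3) ∨ (c₃ ≤ v ∧ v < c₄ ∧ let5 c₁ c₂ c₃ c₄ 0 1 3 2 4 v = 2) ∨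
      (c₄ ≤ v ∧ let5 c₁ c₂ c₃ c₄ 0 1 3 2 4 v = 4) := by
  unfold let5
  split_ifs <;> omega

/-- TARGET -/
theorem kill_S2b {l u a b i x y : ℕ} {E : ℕ → ℕ → Prop} (hu1 : u < a) (hb : b < l)
    (hc : Conn (l + 1) E) (h1 : E u l) (h2 : E a l) (h3 : E 0 b)
    (hN : ∀ i, i < l → E i l → u ≤ i ∧ i ≤ a) (h0 : ∀ j, 0 < j → j ≤ l → E 0 j → a < j ∧ j ≤ b)
    (hi : b < i) (hiy : i ≤ y) (hy : y < l) (hxa : x < a) (hxu : x < u) (hx : ¬ E x l)
    (h5 : i + a ≤ x + l) (h6 : y ≤ i + u) (h7 : E x y)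
    (hcut : ∀ p q, p < i → i ≤ q → q < l → E p q → p = x ∧ q = y) : ¬ Good 3 (l + 1) E := by
  intro g
  have hb0 : 0 < b := by
    rcases Nat.eq_zero_or_pos b with h | h
    · exfalso
      subst h
      -- b = 0: the vertex `b+?`; impossible because a ≤ ... use connectivity of 0
      obtain ⟨p, q, hpq, hq, hE, hS⟩ := hc (fun v => v = 0) ⟨0, by omega, rfl⟩ ⟨l, by omega, by omega⟩
      have hp : p = 0 := by
        by_contra hne
        exact hS ⟨fun h => absurd h hne, fun h => by omega⟩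
      subst hp
      have := h0 q hpq (by omega) hE
      omega
    · exact h
  have hab : a < b := (h0 b hb0 (by omega) h3).1
  obtain ⟨c₁, c₂, c₃, c₄, k1, k2, k3, k4, k5, k6, k7, k8, k9, hR⟩ :=
    runs5 g a (l - a) i 1 (l - i) 0 1 3 2 4 (by omega) (by norm_num) (by norm_num) (by norm_num) (by norm_num) (by norm_num)
  have hL := fun v => K8_let c₁ c₂ c₃ c₄ v k2 k4 k6
  have r1 := hR u l (by omega) le_rfl h1
  have r2 := hR a l (by omega) le_rfl h2
  have r3 := hR 0 b (by omega) (by omega) h3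
  have Ll := hL l
  have Lu := hL u
  have La := hL a
  have L0 := hL 0
  have Lb := hL b
  generalize hll : let5 c₁ c₂ c₃ c₄ 0 1 3 2 4 l = ll at r1 r2 Ll
  generalize let5 c₁ c₂ c₃ c₄ 0 1 3 2 4 u = lu at r1 Lu
  generalize let5 c₁ c₂ c₃ c₄ 0 1 3 2 4 a = la at r2 La
  generalize hl0 : let5 c₁ c₂ c₃ c₄ 0 1 3 2 4 0 = l0 at r3 L0
  generalize let5 c₁ c₂ c₃ c₄ 0 1 3 2 4 b = lb at r3 Lb
  unfold radj at r1 r2 r3
  by_cases hc4 : c₄ = l + 1
  · by_cases hc3 : c₃ = l + 1
    · -- everything is A, B or D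
      obtain ⟨p, q, hpq, hq, hE, hS⟩ := hc (fun v => c₂ ≤ v) ⟨l, by omega, by omega⟩ ⟨0, by omega, by omega⟩
      have r := hR p q hpq (by omega) hE
      have Lp := hL p
      have Lq := hL q
      generalize let5 c₁ c₂ c₃ c₄ 0 1 3 2 4 p = lp at r Lp
      generalize let5 c₁ c₂ c₃ c₄ 0 1 3 2 4 q = lq at r Lq
      unfold radj at r
      omega
    · have hc3' : c₃ = l := by omega
      have hc1u : c₁ ≤ u := by omega
      have hbc : b < c₂ := by omega
      obtain ⟨p, q, hpq, hq, hE, hS⟩ := hc (fun v => c₂ ≤ v ∧ v < l) ⟨c₂, by omega, by omega⟩ ⟨0, by omega, by omega⟩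
      have r := hR p q hpq (by omega) hE
      have Lp := hL p
      have Lq := hL q
      generalize let5 c₁ c₂ c₃ c₄ 0 1 3 2 4 p = lp at r Lp
      generalize let5 c₁ c₂ c₃ c₄ 0 1 3 2 4 q = lq at r Lq
      unfold radj at r
      by_cases hql : q = l
      · subst hql
        have := hN p hpq hE
        omega
      · omega
  · have hc4' : c₄ ≤ l := by omega
    have hc2a : c₂ ≤ a := by omega
    have hc20 : c₂ = 0 := by omega
    have hc3i : c₃ = i := by omega
    have hc4i : c₄ = i + 1 := by omega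
    by_cases hyi : y = i
    · have hil : i + 1 < l := by omega
      obtain ⟨p, q, hpq, hq, hE, hS⟩ := hc (fun v => i < v ∧ v < l) ⟨i + 1, by omega, by omega⟩ ⟨0, by omega, by omega⟩
      have r := hR p q hpq (by omega) hE
      have Lp := hL p
      have Lq := hL q
      generalize let5 c₁ c₂ c₃ c₄ 0 1 3 2 4 p = lp at r Lp
      generalize let5 c₁ c₂ c₃ c₄ 0 1 3 2 4 q = lq at r Lq
      unfold radj at r
      by_cases hql : q = l
      · subst hql
        have := hN p hpq hE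
        omega
      · by_cases hpi : p < i
        · by_cases hqi : i ≤ q
          · have := hcut p q hpi hqi (by omega) hE
            omega
          · omega
        · omega
    · obtain ⟨p, q, hpq, hq, hE, hS⟩ := hc (fun v => v = i) ⟨i, by omega, rfl⟩ ⟨0, by omega, by omega⟩
      have r := hR p q hpq (by omega) hE
      have Lp := hL p
      have Lq := hL q
      generalize let5 c₁ c₂ c₃ c₄ 0 1 3 2 4 p = lp at r Lp
      generalize let5 c₁ c₂ c₃ c₄ 0 1 3 2 4 q = lq at r Lq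
      unfold radj at r
      by_cases hqi : q = i
      · have := hcut p q (by omega) (by omega) (by omega) hE
        omega
      · have hpi : p = i := by
          by_contra hne
          exact hS ⟨fun h => absurd h hne, fun h => absurd h hqi⟩
        omega

end Pool.Agent.H831G

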