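import Pool.Agent.H831G.Defs2
import Pool.Agent.H831G.K5
import Pool.Agent.H831G.K6
import Pool.Agent.H831G.K7
import Pool.Agent.H831G.K8
import Pool.Agent.H831G.K1
import Pool.Agent.H831G.K2
import Pool.Agent.H831G.K21a
import Pool.Agent.H831G.K13
import Pool.Agent.H831G.K17
import Pool.Agent.H831G.K20c
import Pool.Agent.H831G.G6

/-!
Part K21 of the proof for MP_23a060_co (owner helper831).
-/

set_option autoImplicit false

namespace Pool.Agent.H831G



theorem K21_ext (p : ℕ → Prop) (l : ℕ) (h : ∃ i, i < l ∧ p i) :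
    ∃ u a, u ≤ a ∧ u < l ∧ a < l ∧ p u ∧ p a ∧ ∀ i, i < l → p i → u ≤ i ∧ i ≤ a := by
  classical
  have hne : ((Finset.range l).filter p).Nonempty := by
    obtain ⟨i, hi, hp⟩ := h
    exact ⟨i, Finset.mem_filter.2 ⟨Finset.mem_range.2 hi, hp⟩⟩
  have h1 := Finset.mem_filter.1 (Finset.min'_mem _ hne)
  have h2 := Finset.mem_filter.1 (Finset.max'_mem _ hne)
  refine ⟨_, _, Finset.min'_le_max' _ hne, Finset.mem_range.1 h1.1, Finset.mem_range.1 h2.1,
    h1.2, h2.2, ?_⟩
  intro i hi hp
  have h3 : i ∈ (Finset.range l).filter p := Finset.mem_filter.2 ⟨Finset.mem_range.2 hi, hp⟩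
  exact ⟨Finset.min'_le _ _ h3, Finset.le_max' _ _ h3⟩

theorem K21_mir {l : ℕ} {E : ℕ → ℕ → Prop} {i j i' j' : ℕ} (h : mir (l + 1) E i j)
    (hi : i' = l - j) (hj : j' = l - i) : E i' j' := by
  subst hi hj
  simpa [mir] using h

theorem K21_mir' {l : ℕ} {E : ℕ → ℕ → Prop} {i j i' j' : ℕ} (h : E i' j')
    (hi : i' = l - j) (hj : j' = l - i) : mir (l + 1) E i j := by
  subst hi hj
  simpa [mir] using h

theorem two_nbrs {l u a b : ℕ} {E : ℕ → ℕ → Prop} (hu1 : u < a) (hb : b < l)
    (hc : Conn (l + 1) E) (h1 : E u l) (h2 : E a l) (h3 : E 0 b)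
    (hN : ∀ i, i < l → E i l → u ≤ i ∧ i ≤ a) (h0 : ∀ j, 0 < j → j ≤ l → E 0 j → a < j ∧ j ≤ b) :
    ¬ Good 3 (l + 1) E := by
  intro g
  rcases PQ_surv hu1 hb hc h1 h2 h3 hN h0 g with ⟨i, hi1, hi2, hi3, hi4, hcut⟩ |
    ⟨i, x, y, hi, hiy, hy, hxa, hx, h5, h6, h7, hcut⟩
  · exact kill_S1 hu1 hb hc h1 h2 h3 hN h0 hi1 hi2 hi3 hi4 hcut g
  · have hne : x ≠ u := by
      rintro rfl
      exact hx h1
    rcases lt_or_gt_of_ne hne with h | h
    · exact kill_S2b hu1 hb hc h1 h2 h3 hN h0 hi hiy hy hxa h hx h5 h6 h7 hcut g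
    · exact kill_S2a hu1 hb hc h1 h2 h3 hN h0 hi hiy hy hxa h hx h5 h6 h7 hcut g

theorem structure_N2 (k : ℕ) (E : ℕ → ℕ → Prop) (hk : 3 ≤ k) (hc : Conn k E) (hi : Indec k E)
    (g : Good 3 k E) :
    (∀ i j, i < j → j < k → (E i j ↔ starL i j)) ∨ (∀ i j, i < j → j < k → (E i j ↔ starR k i j)) ∨
      ∃ p q, 1 ≤ p ∧ 1 ≤ q ∧ k = p + q + 2 ∧ ∀ i j, i < j → j < k → (E i j ↔ dstar p i j) := by
  obtain ⟨l, rfl⟩ : ∃ l, k = l + 1 := ⟨k - 1, by omega⟩
  have hl : 2 ≤ l := by omega
  have hC3 : ∀ b x, 1 ≤ b → E 0 b → x < l → E x l → x < b := by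
    intro b x hb h0 hx h1
    by_contra hcon
    exact kill_C3 hb (not_lt.1 hcon) hx hc hi h0 h1 g
  have nz : ∃ j, 0 < j ∧ j ≤ l ∧ E 0 j := by
    obtain ⟨i, j, hij, hj, he, hs⟩ := hc (fun i => i = 0) ⟨0, by omega, rfl⟩
      ⟨1, by omega, by omega⟩
    have hj0 : j ≠ 0 := by omega
    have hi0 : i = 0 := by
      by_contra hne
      exact hs ⟨fun h => absurd h hne, fun h => absurd h hj0⟩
    subst hi0
    exact ⟨j, hij, by omega, he⟩
  have nl : ∃ i, i < l ∧ E i l := by
    obtain ⟨i, j, hij, hj, he, hs⟩ := hc (fun i => i = l) ⟨l, by omega, rfl⟩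
      ⟨0, by omega, by omega⟩
    have hi0 : i ≠ l := by omega
    have hj0 : j = l := by
      by_contra hne
      exact hs ⟨fun h => absurd h hi0, fun h => absurd h hne⟩
    subst hj0
    exact ⟨i, hij, he⟩
  by_cases h0l : E 0 l
  · by_cases hw : ∃ w, 1 ≤ w ∧ w < l ∧ E 0 w
    · obtain ⟨w, hw1, hwl, hw⟩ := hw
      left
      have hN : ∀ i, i < l → E i l → i = 0 := by
        intro u hul hu
        by_contra hne
        have huw : u < w := hC3 w u hw1 hw hul hu
        exact kill_A2a (by omega) huw.le hwl hc h0l hw hu g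
      intro i j hij hj
      exact starL_case hl hc g h0l hN i j hij (by omega)
    · right
      left
      have hN : ∀ i, i < l → mir (l + 1) E i l → i = 0 := by
        intro i hil h
        by_contra hne
        exact hw ⟨l - i, by omega, by omega, K21_mir h (by omega) rfl⟩
      have key := starL_case hl (conn_mir hc) (good_mir g)
        (K21_mir' h0l (by omega) (by omega)) hN
      intro i j hij hj
      have h1 := key (l - j) (l - i) (by omega) (by omega)
      constructor
      · intro h
        have h2 := h1.1 (K21_mir' h (by omega) (by omega))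
        change j = l + 1 - 1
        omega
      · intro h
        have h' : j = l + 1 - 1 := h
        exact K21_mir (h1.2 (by omega)) (by omega) (by omega)
  · obtain ⟨u, a, hua, hul, hal, hu, ha, hN⟩ := K21_ext (fun i => E i l) l nl
    obtain ⟨b₁, b, hbb, hb1l, hbl, hb1, hb, hM⟩ := K21_ext (fun j => 0 < j ∧ E 0 j) l (by
      obtain ⟨j, hj, hjl, he⟩ := nz
      refine ⟨j, ?_, hj, he⟩
      rcases Nat.lt_or_eq_of_le hjl with h | h
      · exact h
      · subst h
        exact absurd he h0l)
    have hu1 : 1 ≤ u := by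
      by_contra hcon
      have : u = 0 := by omega
      subst this
      exact h0l hu
    have hab1 : a < b₁ := hC3 b₁ a hb1.1 hb1.2 hal ha
    have hjl : ∀ j, 0 < j → j ≤ l → E 0 j → b₁ ≤ j ∧ j ≤ b := by
      intro j hj hjl he
      rcases Nat.lt_or_eq_of_le hjl with h | h
      · exact hM j h ⟨hj, he⟩
      · subst h
        exact absurd he h0l
    by_cases hlt : u < a
    · refine absurd g (two_nbrs hlt hbl hc hu ha hb.2 hN ?_)
      intro j hj hjl' he
      have := hjl j hj hjl' he
      omega
    · by_cases hlt' : b₁ < b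
      · refine absurd (good_mir g) (two_nbrs (l := l) (u := l - b) (a := l - b₁) (b := l - u)
          (by omega) (by omega) (conn_mir hc)
          (K21_mir' hb.2 (by omega) (by omega)) (K21_mir' hb1.2 (by omega) (by omega))
          (K21_mir' hu (by omega) (by omega)) ?_ ?_)
        · intro i hil h
          have h1 := hjl (l - i) (by omega) (by omega) (K21_mir h (by omega) rfl)
          omega
        · intro j hj hjl' h
          have h1 := hN (l - j) (by omega) (K21_mir h (by omega) (by omega))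
          omega
      · have hua' : u = a := by omega
        have hbb' : b₁ = b := by omega
        subst hua' hbb'
        have hleaf : Leaf l E u b₁ := by
          refine ⟨hc, hu1, hab1, hbl, hb.2, ha, ?_, ?_⟩
          · intro j hj hjl' he
            have := hjl j hj hjl' he
            omega
          · intro i hil he
            have := hN i hil he
            omega
        by_cases hfar : u + 2 ≤ b₁
        · exact absurd g (kill_far hleaf hfar)
        · have hb' : b₁ = u + 1 := by omega
          subst hb'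
          by_cases hE : E u (u + 1)
          · right
            right
            refine ⟨u, l - u - 1, hu1, by omega, by omega, ?_⟩
            intro i j hij hj
            exact class_ab hleaf g hE i j hij (by omega)
          · exact (class_nab hleaf g hE).elim

end Pool.Agent.H831G

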